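import Pool.Agent.U890.TM.Block9

/-!
# The 9-th power of the Thue-Morse product: the base cases and the induction
-/

set_option autoImplicit false

namespace Pool.Agent.U890.TM

open Finset

theorem B9_1_0 (q : ℤ) : T 9 (2 * q) = T 9 q + 36 * T 9 (q - 1) + 126 * T 9 (q - 2) + 84 * T 9 (q - 3) + 9 * T 9 (q - 4) := by
  have e := T9_even q
  rw [show (2 * q) = 2 * q by ring, e]
  try ring

theorem B9_1_n1 (q : ℤ) : T 9 (2 * q - 1) = (-9) * T 9 (q - 1) - 84 * T 9 (q - 2) - 126 * T 9 (q - 3) - 36 * T 9 (q - 4) - T 9 (q - 5) := by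
  have e := T9_odd (q - 1)
  rw [show (2 * q - 1) = 2 * (q - 1) + 1 by ring, e]
  rw [show (q - 1) - 1 = (q - 2) by ring,
    show (q - 1) - 2 = (q - 3) by ring,
    show (q - 1) - 3 = (q - 4) by ring,
    show (q - 1) - 4 = (q - 5) by ring]
  try ring

theorem B9_1_n2 (q : ℤ) : T 9 (2 * q - 2) = T 9 (q - 1) + 36 * T 9 (q - 2) + 126 * T 9 (q - 3) + 84 * T 9 (q - 4) + 9 * T 9 (q - 5) := by
  have e := T9_even (q - 1)
  rw [show (2 * q - 2) = 2 * (q - 1) by ring, e]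
  rw [show (q - 1) - 1 = (q - 2) by ring,
    show (q - 1) - 2 = (q - 3) by ring,
    show (q - 1) - 3 = (q - 4) by ring,
    show (q - 1) - 4 = (q - 5) by ring]
  try ring

theorem B9_1_n3 (q : ℤ) : T 9 (2 * q - 3) = (-9) * T 9 (q - 2) - 84 * T 9 (q - 3) - 126 * T 9 (q - 4) - 36 * T 9 (q - 5) - T 9 (q - 6) := by
  have e := T9_odd (q - 2)
  rw [show (2 * q - 3) = 2 * (q - 2) + 1 by ring, e]
  rw [show (q - 2) - 1 = (q - 3) by ring,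
    show (q - 2) - 2 = (q - 4) by ring,
    show (q - 2) - 3 = (q - 5) by ring,
    show (q - 2) - 4 = (q - 6) by ring]
  try ring

theorem B9_1_n4 (q : ℤ) : T 9 (2 * q - 4) = T 9 (q - 2) + 36 * T 9 (q - 3) + 126 * T 9 (q - 4) + 84 * T 9 (q - 5) + 9 * T 9 (q - 6) := by
  have e := T9_even (q - 2)
  rw [show (2 * q - 4) = 2 * (q - 2) by ring, e]
  rw [show (q - 2) - 1 = (q - 3) by ring,
    show (q - 2) - 2 = (q - 4) by ring,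
    show (q - 2) - 3 = (q - 5) by ring,
    show (q - 2) - 4 = (q - 6) by ring]
  try ring

theorem B9_1_n5 (q : ℤ) : T 9 (2 * q - 5) = (-9) * T 9 (q - 3) - 84 * T 9 (q - 4) - 126 * T 9 (q - 5) - 36 * T 9 (q - 6) - T 9 (q - 7) := by
  have e := T9_odd (q - 3)
  rw [show (2 * q - 5) = 2 * (q - 3) + 1 by ring, e]
  rw [show (q - 3) - 1 = (q - 4) by ring,
    show (q - 3) - 2 = (q - 5) by ring,
    show (q - 3) - 3 = (q - 6) by ring,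
    show (q - 3) - 4 = (q - 7) by ring]
  try ring

theorem B9_1_n6 (q : ℤ) : T 9 (2 * q - 6) = T 9 (q - 3) + 36 * T 9 (q - 4) + 126 * T 9 (q - 5) + 84 * T 9 (q - 6) + 9 * T 9 (q - 7) := by
  have e := T9_even (q - 3)
  rw [show (2 * q - 6) = 2 * (q - 3) by ring, e]
  rw [show (q - 3) - 1 = (q - 4) by ring,
    show (q - 3) - 2 = (q - 5) by ring,
    show (q - 3) - 3 = (q - 6) by ring,
    show (q - 3) - 4 = (q - 7) by ring]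
  try ring

theorem B9_1_n7 (q : ℤ) : T 9 (2 * q - 7) = (-9) * T 9 (q - 4) - 84 * T 9 (q - 5) - 126 * T 9 (q - 6) - 36 * T 9 (q - 7) - T 9 (q - 8) := by
  have e := T9_odd (q - 4)
  rw [show (2 * q - 7) = 2 * (q - 4) + 1 by ring, e]
  rw [show (q - 4) - 1 = (q - 5) by ring,
    show (q - 4) - 2 = (q - 6) by ring,
    show (q - 4) - 3 = (q - 7) by ring,
    show (q - 4) - 4 = (q - 8) by ring]
  try ring

theorem B9_2_1 (q : ℤ) : T 9 (4 * q + 1) = (-9) * T 9 q + 306 * T 9 (q - 1) + 1709 * T 9 (q - 2) - 3060 * T 9 (q - 3) - 3231 * T 9 (q - 4) + 162 * T 9 (q - 5) + 27 * T 9 (q - 6) := by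
  have e := T9_odd (2 * q)
  rw [show (4 * q + 1) = 2 * (2 * q) + 1 by ring, e]
  rw [show (2 * q) - 1 = (2 * q - 1) by ring,
    show (2 * q) - 2 = (2 * q - 2) by ring,
    show (2 * q) - 3 = (2 * q - 3) by ring,
    show (2 * q) - 4 = (2 * q - 4) by ring]
  rw [B9_1_0 q, B9_1_n1 q, B9_1_n2 q, B9_1_n3 q, B9_1_n4 q]
  ring

theorem B9_2_0 (q : ℤ) : T 9 (4 * q) = T 9 q - 162 * T 9 (q - 1) + 891 * T 9 (q - 2) + 4692 * T 9 (q - 3) - 153 * T 9 (q - 4) - 1170 * T 9 (q - 5) - 3 * T 9 (q - 6) := by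
  have e := T9_even (2 * q)
  rw [show (4 * q) = 2 * (2 * q) by ring, e]
  rw [show (2 * q) - 1 = (2 * q - 1) by ring,
    show (2 * q) - 2 = (2 * q - 2) by ring,
    show (2 * q) - 3 = (2 * q - 3) by ring,
    show (2 * q) - 4 = (2 * q - 4) by ring]
  rw [B9_1_0 q, B9_1_n1 q, B9_1_n2 q, B9_1_n3 q, B9_1_n4 q]
  ring

theorem B9_2_n1 (q : ℤ) : T 9 (4 * q - 1) = (-3) * T 9 (q - 1) - 1170 * T 9 (q - 2) - 153 * T 9 (q - 3) + 4692 * T 9 (q - 4) + 891 * T 9 (q - 5) - 162 * T 9 (q - 6) + T 9 (q - 7) := by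
  have e := T9_odd (2 * q - 1)
  rw [show (4 * q - 1) = 2 * (2 * q - 1) + 1 by ring, e]
  rw [show (2 * q - 1) - 1 = (2 * q - 2) by ring,
    show (2 * q - 1) - 2 = (2 * q - 3) by ring,
    show (2 * q - 1) - 3 = (2 * q - 4) by ring,
    show (2 * q - 1) - 4 = (2 * q - 5) by ring]
  rw [B9_1_n1 q, B9_1_n2 q, B9_1_n3 q, B9_1_n4 q, B9_1_n5 q]
  ring

theorem B9_2_n2 (q : ℤ) : T 9 (4 * q - 2) = 27 * T 9 (q - 1) + 162 * T 9 (q - 2) - 3231 * T 9 (q - 3) - 3060 * T 9 (q - 4) + 1709 * T 9 (q - 5) + 306 * T 9 (q - 6) - 9 * T 9 (q - 7) := by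
  have e := T9_even (2 * q - 1)
  rw [show (4 * q - 2) = 2 * (2 * q - 1) by ring, e]
  rw [show (2 * q - 1) - 1 = (2 * q - 2) by ring,
    show (2 * q - 1) - 2 = (2 * q - 3) by ring,
    show (2 * q - 1) - 3 = (2 * q - 4) by ring,
    show (2 * q - 1) - 4 = (2 * q - 5) by ring]
  rw [B9_1_n1 q, B9_1_n2 q, B9_1_n3 q, B9_1_n4 q, B9_1_n5 q]
  ring

theorem B9_2_n3 (q : ℤ) : T 9 (4 * q - 3) = (-9) * T 9 (q - 1) + 306 * T 9 (q - 2) + 1709 * T 9 (q - 3) - 3060 * T 9 (q - 4) - 3231 * T 9 (q - 5) + 162 * T 9 (q - 6) + 27 * T 9 (q - 7) := by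
  have e := T9_odd (2 * q - 2)
  rw [show (4 * q - 3) = 2 * (2 * q - 2) + 1 by ring, e]
  rw [show (2 * q - 2) - 1 = (2 * q - 3) by ring,
    show (2 * q - 2) - 2 = (2 * q - 4) by ring,
    show (2 * q - 2) - 3 = (2 * q - 5) by ring,
    show (2 * q - 2) - 4 = (2 * q - 6) by ring]
  rw [B9_1_n2 q, B9_1_n3 q, B9_1_n4 q, B9_1_n5 q, B9_1_n6 q]
  ring

theorem B9_2_n4 (q : ℤ) : T 9 (4 * q - 4) = T 9 (q - 1) - 162 * T 9 (q - 2) + 891 * T 9 (q - 3) + 4692 * T 9 (q - 4) - 153 * T 9 (q - 5) - 1170 * T 9 (q - 6) - 3 * T 9 (q - 7) := by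
  have e := T9_even (2 * q - 2)
  rw [show (4 * q - 4) = 2 * (2 * q - 2) by ring, e]
  rw [show (2 * q - 2) - 1 = (2 * q - 3) by ring,
    show (2 * q - 2) - 2 = (2 * q - 4) by ring,
    show (2 * q - 2) - 3 = (2 * q - 5) by ring,
    show (2 * q - 2) - 4 = (2 * q - 6) by ring]
  rw [B9_1_n2 q, B9_1_n3 q, B9_1_n4 q, B9_1_n5 q, B9_1_n6 q]
  ring

theorem B9_2_n5 (q : ℤ) : T 9 (4 * q - 5) = (-3) * T 9 (q - 2) - 1170 * T 9 (q - 3) - 153 * T 9 (q - 4) + 4692 * T 9 (q - 5) + 891 * T 9 (q - 6) - 162 * T 9 (q - 7) + T 9 (q - 8) := by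
  have e := T9_odd (2 * q - 3)
  rw [show (4 * q - 5) = 2 * (2 * q - 3) + 1 by ring, e]
  rw [show (2 * q - 3) - 1 = (2 * q - 4) by ring,
    show (2 * q - 3) - 2 = (2 * q - 5) by ring,
    show (2 * q - 3) - 3 = (2 * q - 6) by ring,
    show (2 * q - 3) - 4 = (2 * q - 7) by ring]
  rw [B9_1_n3 q, B9_1_n4 q, B9_1_n5 q, B9_1_n6 q, B9_1_n7 q]
  ring

theorem B9_2_n6 (q : ℤ) : T 9 (4 * q - 6) = 27 * T 9 (q - 2) + 162 * T 9 (q - 3) - 3231 * T 9 (q - 4) - 3060 * T 9 (q - 5) + 1709 * T 9 (q - 6) + 306 * T 9 (q - 7) - 9 * T 9 (q - 8) := by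
  have e := T9_even (2 * q - 3)
  rw [show (4 * q - 6) = 2 * (2 * q - 3) by ring, e]
  rw [show (2 * q - 3) - 1 = (2 * q - 4) by ring,
    show (2 * q - 3) - 2 = (2 * q - 5) by ring,
    show (2 * q - 3) - 3 = (2 * q - 6) by ring,
    show (2 * q - 3) - 4 = (2 * q - 7) by ring]
  rw [B9_1_n3 q, B9_1_n4 q, B9_1_n5 q, B9_1_n6 q, B9_1_n7 q]
  ring

theorem B9_3_3 (q : ℤ) : T 9 (8 * q + 3) = (-3) * T 9 q + 10269 * T 9 (q - 1) + 51057 * T 9 (q - 2) - 232703 * T 9 (q - 3) - 436041 * T 9 (q - 4) - 73737 * T 9 (q - 5) + 9243 * T 9 (q - 6) + 171 * T 9 (q - 7) := by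
  have e := T9_odd (4 * q + 1)
  rw [show (8 * q + 3) = 2 * (4 * q + 1) + 1 by ring, e]
  rw [show (4 * q + 1) - 1 = (4 * q) by ring,
    show (4 * q + 1) - 2 = (4 * q - 1) by ring,
    show (4 * q + 1) - 3 = (4 * q - 2) by ring,
    show (4 * q + 1) - 4 = (4 * q - 3) by ring]
  rw [B9_2_1 q, B9_2_0 q, B9_2_n1 q, B9_2_n2 q, B9_2_n3 q]
  ring

theorem B9_3_2 (q : ℤ) : T 9 (8 * q + 2) = 27 * T 9 q - 3717 * T 9 (q - 1) - 97273 * T 9 (q - 2) - 109449 * T 9 (q - 3) + 297873 * T 9 (q - 4) + 184785 * T 9 (q - 5) + 6669 * T 9 (q - 6) - 387 * T 9 (q - 7) := by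
  have e := T9_even (4 * q + 1)
  rw [show (8 * q + 2) = 2 * (4 * q + 1) by ring, e]
  rw [show (4 * q + 1) - 1 = (4 * q) by ring,
    show (4 * q + 1) - 2 = (4 * q - 1) by ring,
    show (4 * q + 1) - 3 = (4 * q - 2) by ring,
    show (4 * q + 1) - 4 = (4 * q - 3) by ring]
  rw [B9_2_1 q, B9_2_0 q, B9_2_n1 q, B9_2_n2 q, B9_2_n3 q]
  ring

theorem B9_3_1 (q : ℤ) : T 9 (8 * q + 1) = (-9) * T 9 q - 1369 * T 9 (q - 1) + 58995 * T 9 (q - 2) + 315315 * T 9 (q - 3) + 98277 * T 9 (q - 4) - 163179 * T 9 (q - 5) - 29583 * T 9 (q - 6) + 81 * T 9 (q - 7) := by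
  have e := T9_odd (4 * q)
  rw [show (8 * q + 1) = 2 * (4 * q) + 1 by ring, e]
  rw [show (4 * q) - 1 = (4 * q - 1) by ring,
    show (4 * q) - 2 = (4 * q - 2) by ring,
    show (4 * q) - 3 = (4 * q - 3) by ring,
    show (4 * q) - 4 = (4 * q - 4) by ring]
  rw [B9_2_0 q, B9_2_n1 q, B9_2_n2 q, B9_2_n3 q, B9_2_n4 q]
  ring

theorem B9_3_0 (q : ℤ) : T 9 (8 * q) = T 9 q + 2385 * T 9 (q - 1) + 3429 * T 9 (q - 2) - 256347 * T 9 (q - 3) - 431613 * T 9 (q - 4) - 26541 * T 9 (q - 5) + 35799 * T 9 (q - 6) + 1143 * T 9 (q - 7) := by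
  have e := T9_even (4 * q)
  rw [show (8 * q) = 2 * (4 * q) by ring, e]
  rw [show (4 * q) - 1 = (4 * q - 1) by ring,
    show (4 * q) - 2 = (4 * q - 2) by ring,
    show (4 * q) - 3 = (4 * q - 3) by ring,
    show (4 * q) - 4 = (4 * q - 4) by ring]
  rw [B9_2_0 q, B9_2_n1 q, B9_2_n2 q, B9_2_n3 q, B9_2_n4 q]
  ring

theorem B9_3_n1 (q : ℤ) : T 9 (8 * q - 1) = (-1143) * T 9 (q - 1) - 35799 * T 9 (q - 2) + 26541 * T 9 (q - 3) + 431613 * T 9 (q - 4) + 256347 * T 9 (q - 5) - 3429 * T 9 (q - 6) - 2385 * T 9 (q - 7) - T 9 (q - 8) := by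
  have e := T9_odd (4 * q - 1)
  rw [show (8 * q - 1) = 2 * (4 * q - 1) + 1 by ring, e]
  rw [show (4 * q - 1) - 1 = (4 * q - 2) by ring,
    show (4 * q - 1) - 2 = (4 * q - 3) by ring,
    show (4 * q - 1) - 3 = (4 * q - 4) by ring,
    show (4 * q - 1) - 4 = (4 * q - 5) by ring]
  rw [B9_2_n1 q, B9_2_n2 q, B9_2_n3 q, B9_2_n4 q, B9_2_n5 q]
  ring

theorem B9_3_n2 (q : ℤ) : T 9 (8 * q - 2) = (-81) * T 9 (q - 1) + 29583 * T 9 (q - 2) + 163179 * T 9 (q - 3) - 98277 * T 9 (q - 4) - 315315 * T 9 (q - 5) - 58995 * T 9 (q - 6) + 1369 * T 9 (q - 7) + 9 * T 9 (q - 8) := by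
  have e := T9_even (4 * q - 1)
  rw [show (8 * q - 2) = 2 * (4 * q - 1) by ring, e]
  rw [show (4 * q - 1) - 1 = (4 * q - 2) by ring,
    show (4 * q - 1) - 2 = (4 * q - 3) by ring,
    show (4 * q - 1) - 3 = (4 * q - 4) by ring,
    show (4 * q - 1) - 4 = (4 * q - 5) by ring]
  rw [B9_2_n1 q, B9_2_n2 q, B9_2_n3 q, B9_2_n4 q, B9_2_n5 q]
  ring

theorem B9_3_n3 (q : ℤ) : T 9 (8 * q - 3) = 387 * T 9 (q - 1) - 6669 * T 9 (q - 2) - 184785 * T 9 (q - 3) - 297873 * T 9 (q - 4) + 109449 * T 9 (q - 5) + 97273 * T 9 (q - 6) + 3717 * T 9 (q - 7) - 27 * T 9 (q - 8) := by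
  have e := T9_odd (4 * q - 2)
  rw [show (8 * q - 3) = 2 * (4 * q - 2) + 1 by ring, e]
  rw [show (4 * q - 2) - 1 = (4 * q - 3) by ring,
    show (4 * q - 2) - 2 = (4 * q - 4) by ring,
    show (4 * q - 2) - 3 = (4 * q - 5) by ring,
    show (4 * q - 2) - 4 = (4 * q - 6) by ring]
  rw [B9_2_n2 q, B9_2_n3 q, B9_2_n4 q, B9_2_n5 q, B9_2_n6 q]
  ring

theorem B9_3_n4 (q : ℤ) : T 9 (8 * q - 4) = (-171) * T 9 (q - 1) - 9243 * T 9 (q - 2) + 73737 * T 9 (q - 3) + 436041 * T 9 (q - 4) + 232703 * T 9 (q - 5) - 51057 * T 9 (q - 6) - 10269 * T 9 (q - 7) + 3 * T 9 (q - 8) := by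
  have e := T9_even (4 * q - 2)
  rw [show (8 * q - 4) = 2 * (4 * q - 2) by ring, e]
  rw [show (4 * q - 2) - 1 = (4 * q - 3) by ring,
    show (4 * q - 2) - 2 = (4 * q - 4) by ring,
    show (4 * q - 2) - 3 = (4 * q - 5) by ring,
    show (4 * q - 2) - 4 = (4 * q - 6) by ring]
  rw [B9_2_n2 q, B9_2_n3 q, B9_2_n4 q, B9_2_n5 q, B9_2_n6 q]
  ring

theorem B9_4_7 (q : ℤ) : T 9 (16 * q + 7) = (-1143) * T 9 q + 307584 * T 9 (q - 1) + 190404 * T 9 (q - 2) - 19239696 * T 9 (q - 3) - 18373410 * T 9 (q - 4) + 6401376 * T 9 (q - 5) + 1798740 * T 9 (q - 6) - 18000 * T 9 (q - 7) + T 9 (q - 8) := by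
  have e := T9_odd (8 * q + 3)
  rw [show (16 * q + 7) = 2 * (8 * q + 3) + 1 by ring, e]
  rw [show (8 * q + 3) - 1 = (8 * q + 2) by ring,
    show (8 * q + 3) - 2 = (8 * q + 1) by ring,
    show (8 * q + 3) - 3 = (8 * q) by ring,
    show (8 * q + 3) - 4 = (8 * q - 1) by ring]
  rw [B9_3_3 q, B9_3_2 q, B9_3_1 q, B9_3_0 q, B9_3_n1 q]
  ring

theorem B9_4_6 (q : ℤ) : T 9 (16 * q + 6) = (-81) * T 9 q - 105984 * T 9 (q - 1) + 3948444 * T 9 (q - 2) + 14262544 * T 9 (q - 3) - 9700686 * T 9 (q - 4) - 13904352 * T 9 (q - 5) - 501876 * T 9 (q - 6) + 70992 * T 9 (q - 7) - 9 * T 9 (q - 8) := by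
  have e := T9_even (8 * q + 3)
  rw [show (16 * q + 6) = 2 * (8 * q + 3) by ring, e]
  rw [show (8 * q + 3) - 1 = (8 * q + 2) by ring,
    show (8 * q + 3) - 2 = (8 * q + 1) by ring,
    show (8 * q + 3) - 3 = (8 * q) by ring,
    show (8 * q + 3) - 4 = (8 * q - 1) by ring]
  rw [B9_3_3 q, B9_3_2 q, B9_3_1 q, B9_3_0 q, B9_3_n1 q]
  ring

theorem B9_4_5 (q : ℤ) : T 9 (16 * q + 5) = 387 * T 9 q - 110832 * T 9 (q - 1) - 3252996 * T 9 (q - 2) + 5679648 * T 9 (q - 3) + 28007322 * T 9 (q - 4) + 6474960 * T 9 (q - 5) - 1903284 * T 9 (q - 6) - 62848 * T 9 (q - 7) + 27 * T 9 (q - 8) := by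
  have e := T9_odd (8 * q + 2)
  rw [show (16 * q + 5) = 2 * (8 * q + 2) + 1 by ring, e]
  rw [show (8 * q + 2) - 1 = (8 * q + 1) by ring,
    show (8 * q + 2) - 2 = (8 * q) by ring,
    show (8 * q + 2) - 3 = (8 * q - 1) by ring,
    show (8 * q + 2) - 4 = (8 * q - 2) by ring]
  rw [B9_3_2 q, B9_3_1 q, B9_3_0 q, B9_3_n1 q, B9_3_n2 q]
  ring

theorem B9_4_4 (q : ℤ) : T 9 (16 * q + 4) = (-171) * T 9 q + 150768 * T 9 (q - 1) - 282268 * T 9 (q - 2) - 17359776 * T 9 (q - 3) - 15176394 * T 9 (q - 4) + 9661488 * T 9 (q - 5) + 2633364 * T 9 (q - 6) - 41472 * T 9 (q - 7) - 3 * T 9 (q - 8) := by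
  have e := T9_even (8 * q + 2)
  rw [show (16 * q + 4) = 2 * (8 * q + 2) by ring, e]
  rw [show (8 * q + 2) - 1 = (8 * q + 1) by ring,
    show (8 * q + 2) - 2 = (8 * q) by ring,
    show (8 * q + 2) - 3 = (8 * q - 1) by ring,
    show (8 * q + 2) - 4 = (8 * q - 2) by ring]
  rw [B9_3_2 q, B9_3_1 q, B9_3_0 q, B9_3_n1 q, B9_3_n2 q]
  ring

theorem B9_4_3 (q : ℤ) : T 9 (16 * q + 3) = (-3) * T 9 q - 41472 * T 9 (q - 1) + 2633364 * T 9 (q - 2) + 9661488 * T 9 (q - 3) - 15176394 * T 9 (q - 4) - 17359776 * T 9 (q - 5) - 282268 * T 9 (q - 6) + 150768 * T 9 (q - 7) - 171 * T 9 (q - 8) := by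
  have e := T9_odd (8 * q + 1)
  rw [show (16 * q + 3) = 2 * (8 * q + 1) + 1 by ring, e]
  rw [show (8 * q + 1) - 1 = (8 * q) by ring,
    show (8 * q + 1) - 2 = (8 * q - 1) by ring,
    show (8 * q + 1) - 3 = (8 * q - 2) by ring,
    show (8 * q + 1) - 4 = (8 * q - 3) by ring]
  rw [B9_3_1 q, B9_3_0 q, B9_3_n1 q, B9_3_n2 q, B9_3_n3 q]
  ring

theorem B9_4_2 (q : ℤ) : T 9 (16 * q + 2) = 27 * T 9 q - 62848 * T 9 (q - 1) - 1903284 * T 9 (q - 2) + 6474960 * T 9 (q - 3) + 28007322 * T 9 (q - 4) + 5679648 * T 9 (q - 5) - 3252996 * T 9 (q - 6) - 110832 * T 9 (q - 7) + 387 * T 9 (q - 8) := by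
  have e := T9_even (8 * q + 1)
  rw [show (16 * q + 2) = 2 * (8 * q + 1) by ring, e]
  rw [show (8 * q + 1) - 1 = (8 * q) by ring,
    show (8 * q + 1) - 2 = (8 * q - 1) by ring,
    show (8 * q + 1) - 3 = (8 * q - 2) by ring,
    show (8 * q + 1) - 4 = (8 * q - 3) by ring]
  rw [B9_3_1 q, B9_3_0 q, B9_3_n1 q, B9_3_n2 q, B9_3_n3 q]
  ring

theorem B9_4_1 (q : ℤ) : T 9 (16 * q + 1) = (-9) * T 9 q + 70992 * T 9 (q - 1) - 501876 * T 9 (q - 2) - 13904352 * T 9 (q - 3) - 9700686 * T 9 (q - 4) + 14262544 * T 9 (q - 5) + 3948444 * T 9 (q - 6) - 105984 * T 9 (q - 7) - 81 * T 9 (q - 8) := by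
  have e := T9_odd (8 * q)
  rw [show (16 * q + 1) = 2 * (8 * q) + 1 by ring, e]
  rw [show (8 * q) - 1 = (8 * q - 1) by ring,
    show (8 * q) - 2 = (8 * q - 2) by ring,
    show (8 * q) - 3 = (8 * q - 3) by ring,
    show (8 * q) - 4 = (8 * q - 4) by ring]
  rw [B9_3_0 q, B9_3_n1 q, B9_3_n2 q, B9_3_n3 q, B9_3_n4 q]
  ring

theorem B9_4_0 (q : ℤ) : T 9 (16 * q) = T 9 q - 18000 * T 9 (q - 1) + 1798740 * T 9 (q - 2) + 6401376 * T 9 (q - 3) - 18373410 * T 9 (q - 4) - 19239696 * T 9 (q - 5) + 190404 * T 9 (q - 6) + 307584 * T 9 (q - 7) - 1143 * T 9 (q - 8) := by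
  have e := T9_even (8 * q)
  rw [show (16 * q) = 2 * (8 * q) by ring, e]
  rw [show (8 * q) - 1 = (8 * q - 1) by ring,
    show (8 * q) - 2 = (8 * q - 2) by ring,
    show (8 * q) - 3 = (8 * q - 3) by ring,
    show (8 * q) - 4 = (8 * q - 4) by ring]
  rw [B9_3_0 q, B9_3_n1 q, B9_3_n2 q, B9_3_n3 q, B9_3_n4 q]
  ring

theorem D9_0_0 (q : ℤ) : S9 0 q 0 = 1 * (T 9 q + T 9 (q - 8) + 2 * ((-9000) * T 9 (q - 1) + 899370 * T 9 (q - 2) + 3200688 * T 9 (q - 3) - 9186705 * T 9 (q - 4) - 9619848 * T 9 (q - 5) + 95202 * T 9 (q - 6) + 153792 * T 9 (q - 7) - 572 * T 9 (q - 8))) := by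
  unfold S9
  rw [show (8 * (2 ^ 0 * (2 * q + 1) - 1) + 0 : ℤ) = (16 * q) by ring, B9_4_0 q]
  ring

theorem D9_0_1 (q : ℤ) : S9 0 q 1 = 1 * (T 9 q + T 9 (q - 8) + 2 * ((-5) * T 9 q + 35496 * T 9 (q - 1) - 250938 * T 9 (q - 2) - 6952176 * T 9 (q - 3) - 4850343 * T 9 (q - 4) + 7131272 * T 9 (q - 5) + 1974222 * T 9 (q - 6) - 52992 * T 9 (q - 7) - 41 * T 9 (q - 8))) := by
  unfold S9
  rw [show (8 * (2 ^ 0 * (2 * q + 1) - 1) + 1 : ℤ) = (16 * q + 1) by ring, B9_4_1 q]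
  ring

theorem D9_0_2 (q : ℤ) : S9 0 q 2 = 1 * (T 9 q + T 9 (q - 8) + 2 * (13 * T 9 q - 31424 * T 9 (q - 1) - 951642 * T 9 (q - 2) + 3237480 * T 9 (q - 3) + 14003661 * T 9 (q - 4) + 2839824 * T 9 (q - 5) - 1626498 * T 9 (q - 6) - 55416 * T 9 (q - 7) + 193 * T 9 (q - 8))) := by
  unfold S9
  rw [show (8 * (2 ^ 0 * (2 * q + 1) - 1) + 2 : ℤ) = (16 * q + 2) by ring, B9_4_2 q]
  ring

theorem D9_0_3 (q : ℤ) : S9 0 q 3 = 1 * (T 9 q + T 9 (q - 8) + 2 * ((-2) * T 9 q - 20736 * T 9 (q - 1) + 1316682 * T 9 (q - 2) + 4830744 * T 9 (q - 3) - 7588197 * T 9 (q - 4) - 8679888 * T 9 (q - 5) - 141134 * T 9 (q - 6) + 75384 * T 9 (q - 7) - 86 * T 9 (q - 8))) := by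
  unfold S9
  rw [show (8 * (2 ^ 0 * (2 * q + 1) - 1) + 3 : ℤ) = (16 * q + 3) by ring, B9_4_3 q]
  ring

theorem D9_0_4 (q : ℤ) : S9 0 q 4 = 1 * (T 9 q + T 9 (q - 8) + 2 * ((-86) * T 9 q + 75384 * T 9 (q - 1) - 141134 * T 9 (q - 2) - 8679888 * T 9 (q - 3) - 7588197 * T 9 (q - 4) + 4830744 * T 9 (q - 5) + 1316682 * T 9 (q - 6) - 20736 * T 9 (q - 7) - 2 * T 9 (q - 8))) := by
  unfold S9
  rw [show (8 * (2 ^ 0 * (2 * q + 1) - 1) + 4 : ℤ) = (16 * q + 4) by ring, B9_4_4 q]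
  ring

theorem D9_0_5 (q : ℤ) : S9 0 q 5 = 1 * (T 9 q + T 9 (q - 8) + 2 * (193 * T 9 q - 55416 * T 9 (q - 1) - 1626498 * T 9 (q - 2) + 2839824 * T 9 (q - 3) + 14003661 * T 9 (q - 4) + 3237480 * T 9 (q - 5) - 951642 * T 9 (q - 6) - 31424 * T 9 (q - 7) + 13 * T 9 (q - 8))) := by
  unfold S9
  rw [show (8 * (2 ^ 0 * (2 * q + 1) - 1) + 5 : ℤ) = (16 * q + 5) by ring, B9_4_5 q]
  ring

theorem D9_0_6 (q : ℤ) : S9 0 q 6 = 1 * (T 9 q + T 9 (q - 8) + 2 * ((-41) * T 9 q - 52992 * T 9 (q - 1) + 1974222 * T 9 (q - 2) + 7131272 * T 9 (q - 3) - 4850343 * T 9 (q - 4) - 6952176 * T 9 (q - 5) - 250938 * T 9 (q - 6) + 35496 * T 9 (q - 7) - 5 * T 9 (q - 8))) := by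
  unfold S9
  rw [show (8 * (2 ^ 0 * (2 * q + 1) - 1) + 6 : ℤ) = (16 * q + 6) by ring, B9_4_6 q]
  ring

theorem D9_0_7 (q : ℤ) : S9 0 q 7 = 1 * (T 9 q + T 9 (q - 8) + 2 * ((-572) * T 9 q + 153792 * T 9 (q - 1) + 95202 * T 9 (q - 2) - 9619848 * T 9 (q - 3) - 9186705 * T 9 (q - 4) + 3200688 * T 9 (q - 5) + 899370 * T 9 (q - 6) - 9000 * T 9 (q - 7))) := by
  unfold S9
  rw [show (8 * (2 ^ 0 * (2 * q + 1) - 1) + 7 : ℤ) = (16 * q + 7) by ring, B9_4_7 q]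
  ring

theorem D9_1_0 (q : ℤ) : S9 1 q 0 = 8 * (T 9 q + T 9 (q - 8) + 2 * (148 * T 9 q - 216234 * T 9 (q - 1) - 10703992 * T 9 (q - 2) + 2246598 * T 9 (q - 3) + 124198605 * T 9 (q - 4) + 70327602 * T 9 (q - 5) - 5251428 * T 9 (q - 6) - 919566 * T 9 (q - 7) + 1594 * T 9 (q - 8))) := by
  rw [S9_1_0 0 q, D9_0_0 q, D9_0_1 q, D9_0_2 q, D9_0_3 q, D9_0_4 q]
  ring

theorem D9_1_1 (q : ℤ) : S9 1 q 1 = 8 * (T 9 q + T 9 (q - 8) + 2 * ((-81) * T 9 q + 469242 * T 9 (q - 1) + 2338776 * T 9 (q - 2) - 61063542 * T 9 (q - 3) - 109369989 * T 9 (q - 4) + 10088766 * T 9 (q - 5) + 16722084 * T 9 (q - 6) + 323838 * T 9 (q - 7) - 1895 * T 9 (q - 8))) := by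
  rw [S9_1_1 0 q, D9_0_0 q, D9_0_1 q, D9_0_2 q, D9_0_3 q, D9_0_4 q]
  ring

theorem D9_1_2 (q : ℤ) : S9 1 q 2 = 8 * (T 9 q + T 9 (q - 8) + 2 * ((-248) * T 9 q - 284310 * T 9 (q - 1) + 9624780 * T 9 (q - 2) + 63552042 * T 9 (q - 3) - 10328727 * T 9 (q - 4) - 76724370 * T 9 (q - 5) - 11273976 * T 9 (q - 6) + 448574 * T 9 (q - 7) + 634 * T 9 (q - 8))) := by
  rw [S9_1_2 0 q, D9_0_1 q, D9_0_2 q, D9_0_3 q, D9_0_4 q, D9_0_5 q]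
  ring

theorem D9_1_3 (q : ℤ) : S9 1 q 3 = 8 * (T 9 q + T 9 (q - 8) + 2 * (643 * T 9 q - 265626 * T 9 (q - 1) - 13112268 * T 9 (q - 2) - 1839834 * T 9 (q - 3) + 121025871 * T 9 (q - 4) + 68672642 * T 9 (q - 5) - 3459240 * T 9 (q - 6) - 678222 * T 9 (q - 7) + 481 * T 9 (q - 8))) := by
  rw [S9_1_3 0 q, D9_0_1 q, D9_0_2 q, D9_0_3 q, D9_0_4 q, D9_0_5 q]
  ring

theorem D9_1_4 (q : ℤ) : S9 1 q 4 = 8 * (T 9 q + T 9 (q - 8) + 2 * ((-482) * T 9 q + 678222 * T 9 (q - 1) + 3459240 * T 9 (q - 2) - 68672642 * T 9 (q - 3) - 121025871 * T 9 (q - 4) + 1839834 * T 9 (q - 5) + 13112268 * T 9 (q - 6) + 265626 * T 9 (q - 7) - 644 * T 9 (q - 8))) := by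
  rw [S9_1_4 0 q, D9_0_2 q, D9_0_3 q, D9_0_4 q, D9_0_5 q, D9_0_6 q]
  ring

theorem D9_1_5 (q : ℤ) : S9 1 q 5 = 8 * (T 9 q + T 9 (q - 8) + 2 * ((-635) * T 9 q - 448574 * T 9 (q - 1) + 11273976 * T 9 (q - 2) + 76724370 * T 9 (q - 3) + 10328727 * T 9 (q - 4) - 63552042 * T 9 (q - 5) - 9624780 * T 9 (q - 6) + 284310 * T 9 (q - 7) + 247 * T 9 (q - 8))) := by
  rw [S9_1_5 0 q, D9_0_2 q, D9_0_3 q, D9_0_4 q, D9_0_5 q, D9_0_6 q]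
  ring

theorem D9_1_6 (q : ℤ) : S9 1 q 6 = 8 * (T 9 q + T 9 (q - 8) + 2 * (1894 * T 9 q - 323838 * T 9 (q - 1) - 16722084 * T 9 (q - 2) - 10088766 * T 9 (q - 3) + 109369989 * T 9 (q - 4) + 61063542 * T 9 (q - 5) - 2338776 * T 9 (q - 6) - 469242 * T 9 (q - 7) + 80 * T 9 (q - 8))) := by
  rw [S9_1_6 0 q, D9_0_3 q, D9_0_4 q, D9_0_5 q, D9_0_6 q, D9_0_7 q]
  ring

theorem D9_1_7 (q : ℤ) : S9 1 q 7 = 8 * (T 9 q + T 9 (q - 8) + 2 * ((-1595) * T 9 q + 919566 * T 9 (q - 1) + 5251428 * T 9 (q - 2) - 70327602 * T 9 (q - 3) - 124198605 * T 9 (q - 4) - 2246598 * T 9 (q - 5) + 10703992 * T 9 (q - 6) + 216234 * T 9 (q - 7) - 149 * T 9 (q - 8))) := by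
  rw [S9_1_7 0 q, D9_0_3 q, D9_0_4 q, D9_0_5 q, D9_0_6 q, D9_0_7 q]
  ring

theorem D9_2_0 (q : ℤ) : S9 2 q 0 = 32 * (T 9 q + T 9 (q - 8) + 2 * ((-3482) * T 9 q - 1809288 * T 9 (q - 1) + 211065282 * T 9 (q - 2) + 690883120 * T 9 (q - 3) - 1283701437 * T 9 (q - 4) - 1428202728 * T 9 (q - 5) - 43637286 * T 9 (q - 6) + 12824064 * T 9 (q - 7) - 12038 * T 9 (q - 8))) := by
  rw [S9_1_0 1 q, D9_1_0 q, D9_1_1 q, D9_1_2 q, D9_1_3 q, D9_1_4 q]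
  ring

theorem D9_2_1 (q : ℤ) : S9 2 q 1 = 32 * (T 9 q + T 9 (q - 8) + 2 * ((-3947) * T 9 q + 8838792 * T 9 (q - 1) - 53979218 * T 9 (q - 2) - 1259729136 * T 9 (q - 3) - 990599931 * T 9 (q - 4) + 862171752 * T 9 (q - 5) + 249085782 * T 9 (q - 6) - 3169728 * T 9 (q - 7) - 11999 * T 9 (q - 8))) := by
  rw [S9_1_1 1 q, D9_1_0 q, D9_1_1 q, D9_1_2 q, D9_1_3 q, D9_1_4 q]
  ring

theorem D9_2_2 (q : ℤ) : S9 2 q 2 = 32 * (T 9 q + T 9 (q - 8) + 2 * (10399 * T 9 q - 7290080 * T 9 (q - 1) - 171702162 * T 9 (q - 2) + 540372456 * T 9 (q - 3) + 2262678537 * T 9 (q - 4) + 575346672 * T 9 (q - 5) - 192490650 * T 9 (q - 6) - 8753592 * T 9 (q - 7) + 18499 * T 9 (q - 8))) := by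
  rw [S9_1_2 1 q, D9_1_1 q, D9_1_2 q, D9_1_3 q, D9_1_4 q, D9_1_5 q]
  ring

theorem D9_2_3 (q : ℤ) : S9 2 q 3 = 32 * (T 9 q + T 9 (q - 8) + 2 * ((-6484) * T 9 q - 2424672 * T 9 (q - 1) + 227818242 * T 9 (q - 2) + 770747928 * T 9 (q - 3) - 1173710241 * T 9 (q - 4) - 1370835504 * T 9 (q - 5) - 47450550 * T 9 (q - 6) + 11028024 * T 9 (q - 7) - 7448 * T 9 (q - 8))) := by
  rw [S9_1_3 1 q, D9_1_1 q, D9_1_2 q, D9_1_3 q, D9_1_4 q, D9_1_5 q]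
  ring

theorem D9_2_4 (q : ℤ) : S9 2 q 4 = 32 * (T 9 q + T 9 (q - 8) + 2 * ((-7448) * T 9 q + 11028024 * T 9 (q - 1) - 47450550 * T 9 (q - 2) - 1370835504 * T 9 (q - 3) - 1173710241 * T 9 (q - 4) + 770747928 * T 9 (q - 5) + 227818242 * T 9 (q - 6) - 2424672 * T 9 (q - 7) - 6484 * T 9 (q - 8))) := by
  rw [S9_1_4 1 q, D9_1_2 q, D9_1_3 q, D9_1_4 q, D9_1_5 q, D9_1_6 q]
  ring

theorem D9_2_5 (q : ℤ) : S9 2 q 5 = 32 * (T 9 q + T 9 (q - 8) + 2 * (18499 * T 9 q - 8753592 * T 9 (q - 1) - 192490650 * T 9 (q - 2) + 575346672 * T 9 (q - 3) + 2262678537 * T 9 (q - 4) + 540372456 * T 9 (q - 5) - 171702162 * T 9 (q - 6) - 7290080 * T 9 (q - 7) + 10399 * T 9 (q - 8))) := by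
  rw [S9_1_5 1 q, D9_1_2 q, D9_1_3 q, D9_1_4 q, D9_1_5 q, D9_1_6 q]
  ring

theorem D9_2_6 (q : ℤ) : S9 2 q 6 = 32 * (T 9 q + T 9 (q - 8) + 2 * ((-11999) * T 9 q - 3169728 * T 9 (q - 1) + 249085782 * T 9 (q - 2) + 862171752 * T 9 (q - 3) - 990599931 * T 9 (q - 4) - 1259729136 * T 9 (q - 5) - 53979218 * T 9 (q - 6) + 8838792 * T 9 (q - 7) - 3947 * T 9 (q - 8))) := by
  rw [S9_1_6 1 q, D9_1_3 q, D9_1_4 q, D9_1_5 q, D9_1_6 q, D9_1_7 q]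
  ring

theorem D9_2_7 (q : ℤ) : S9 2 q 7 = 32 * (T 9 q + T 9 (q - 8) + 2 * ((-12038) * T 9 q + 12824064 * T 9 (q - 1) - 43637286 * T 9 (q - 2) - 1428202728 * T 9 (q - 3) - 1283701437 * T 9 (q - 4) + 690883120 * T 9 (q - 5) + 211065282 * T 9 (q - 6) - 1809288 * T 9 (q - 7) - 3482 * T 9 (q - 8))) := by
  rw [S9_1_7 1 q, D9_1_3 q, D9_1_4 q, D9_1_5 q, D9_1_6 q, D9_1_7 q]
  ring

theorem D9_3_0 (q : ℤ) : S9 3 q 0 = 256 * (T 9 q + T 9 (q - 8) + 2 * (88330 * T 9 q - 33579414 * T 9 (q - 1) - 2014391628 * T 9 (q - 2) - 642034998 * T 9 (q - 3) + 18363313701 * T 9 (q - 4) + 10435369134 * T 9 (q - 5) - 650469168 * T 9 (q - 6) - 107401122 * T 9 (q - 7) + 117516 * T 9 (q - 8))) := by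
  rw [S9_1_0 2 q, D9_2_0 q, D9_2_1 q, D9_2_2 q, D9_2_3 q, D9_2_4 q]
  ring

theorem D9_3_1 (q : ℤ) : S9 3 q 1 = 256 * (T 9 q + T 9 (q - 8) + 2 * ((-69143) * T 9 q + 88322886 * T 9 (q - 1) + 582122700 * T 9 (q - 2) - 9479108762 * T 9 (q - 3) - 17374643037 * T 9 (q - 4) + 763723746 * T 9 (q - 5) + 2158231632 * T 9 (q - 6) + 37463346 * T 9 (q - 7) - 150377 * T 9 (q - 8))) := by
  rw [S9_1_1 2 q, D9_2_0 q, D9_2_1 q, D9_2_2 q, D9_2_3 q, D9_2_4 q]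
  ring

theorem D9_3_2 (q : ℤ) : S9 3 q 2 = 256 * (T 9 q + T 9 (q - 8) + 2 * ((-28562) * T 9 q - 56258874 * T 9 (q - 1) + 1486949184 * T 9 (q - 2) + 10299153942 * T 9 (q - 3) - 841097847 * T 9 (q - 4) - 11043663678 * T 9 (q - 5) - 1484557164 * T 9 (q - 6) + 66390434 * T 9 (q - 7) + 35572 * T 9 (q - 8))) := by
  rw [S9_1_2 2 q, D9_2_1 q, D9_2_2 q, D9_2_3 q, D9_2_4 q, D9_2_5 q]
  ring

theorem D9_3_3 (q : ℤ) : S9 3 q 3 = 256 * (T 9 q + T 9 (q - 8) + 2 * (113197 * T 9 q - 36057366 * T 9 (q - 1) - 2093947424 * T 9 (q - 2) - 666981990 * T 9 (q - 3) + 18206152047 * T 9 (q - 4) + 10193055438 * T 9 (q - 5) - 616508244 * T 9 (q - 6) - 100243602 * T 9 (q - 7) + 91927 * T 9 (q - 8))) := by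
  rw [S9_1_3 2 q, D9_2_1 q, D9_2_2 q, D9_2_3 q, D9_2_4 q, D9_2_5 q]
  ring

theorem D9_3_4 (q : ℤ) : S9 3 q 4 = 256 * (T 9 q + T 9 (q - 8) + 2 * ((-91928) * T 9 q + 100243602 * T 9 (q - 1) + 616508244 * T 9 (q - 2) - 10193055438 * T 9 (q - 3) - 18206152047 * T 9 (q - 4) + 666981990 * T 9 (q - 5) + 2093947424 * T 9 (q - 6) + 36057366 * T 9 (q - 7) - 113198 * T 9 (q - 8))) := by
  rw [S9_1_4 2 q, D9_2_2 q, D9_2_3 q, D9_2_4 q, D9_2_5 q, D9_2_6 q]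
  ring

theorem D9_3_5 (q : ℤ) : S9 3 q 5 = 256 * (T 9 q + T 9 (q - 8) + 2 * ((-35573) * T 9 q - 66390434 * T 9 (q - 1) + 1484557164 * T 9 (q - 2) + 11043663678 * T 9 (q - 3) + 841097847 * T 9 (q - 4) - 10299153942 * T 9 (q - 5) - 1486949184 * T 9 (q - 6) + 56258874 * T 9 (q - 7) + 28561 * T 9 (q - 8))) := by
  rw [S9_1_5 2 q, D9_2_2 q, D9_2_3 q, D9_2_4 q, D9_2_5 q, D9_2_6 q]
  ring

theorem D9_3_6 (q : ℤ) : S9 3 q 6 = 256 * (T 9 q + T 9 (q - 8) + 2 * (150376 * T 9 q - 37463346 * T 9 (q - 1) - 2158231632 * T 9 (q - 2) - 763723746 * T 9 (q - 3) + 17374643037 * T 9 (q - 4) + 9479108762 * T 9 (q - 5) - 582122700 * T 9 (q - 6) - 88322886 * T 9 (q - 7) + 69142 * T 9 (q - 8))) := by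
  rw [S9_1_6 2 q, D9_2_3 q, D9_2_4 q, D9_2_5 q, D9_2_6 q, D9_2_7 q]
  ring

theorem D9_3_7 (q : ℤ) : S9 3 q 7 = 256 * (T 9 q + T 9 (q - 8) + 2 * ((-117517) * T 9 q + 107401122 * T 9 (q - 1) + 650469168 * T 9 (q - 2) - 10435369134 * T 9 (q - 3) - 18363313701 * T 9 (q - 4) + 642034998 * T 9 (q - 5) + 2014391628 * T 9 (q - 6) + 33579414 * T 9 (q - 7) - 88331 * T 9 (q - 8))) := by
  rw [S9_1_7 2 q, D9_2_3 q, D9_2_4 q, D9_2_5 q, D9_2_6 q, D9_2_7 q]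
  ring

theorem D9_4_0 (q : ℤ) : S9 4 q 0 = 1024 * (T 9 q + T 9 (q - 8) + 2 * ((-1157141) * T 9 q - 292383000 * T 9 (q - 1) + 35839695078 * T 9 (q - 2) + 115366384656 * T 9 (q - 3) - 190740799719 * T 9 (q - 4) - 216453382200 * T 9 (q - 5) - 7929329362 * T 9 (q - 6) + 1743198336 * T 9 (q - 7) - 973913 * T 9 (q - 8))) := by
  rw [S9_1_0 3 q, D9_3_0 q, D9_3_1 q, D9_3_2 q, D9_3_3 q, D9_3_4 q]
  ring

theorem D9_4_1 (q : ℤ) : S9 4 q 1 = 1024 * (T 9 q + T 9 (q - 8) + 2 * ((-670424) * T 9 q + 1517299992 * T 9 (q - 1) - 8988653334 * T 9 (q - 2) - 202009865040 * T 9 (q - 3) - 163089809793 * T 9 (q - 4) + 122838176184 * T 9 (q - 5) + 35737374690 * T 9 (q - 6) - 377631936 * T 9 (q - 7) - 1472308 * T 9 (q - 8))) := by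
  rw [S9_1_1 3 q, D9_3_0 q, D9_3_1 q, D9_3_2 q, D9_3_3 q, D9_3_4 q]
  ring

theorem D9_4_2 (q : ℤ) : S9 4 q 2 = 1024 * (T 9 q + T 9 (q - 8) + 2 * (1974118 * T 9 q - 1232922080 * T 9 (q - 1) - 27503921430 * T 9 (q - 2) + 84967722360 * T 9 (q - 3) + 353092693899 * T 9 (q - 4) + 94310736912 * T 9 (q - 5) - 27265899438 * T 9 (q - 6) - 1340600808 * T 9 (q - 7) + 2292754 * T 9 (q - 8))) := by
  rw [S9_1_2 3 q, D9_3_1 q, D9_3_2 q, D9_3_3 q, D9_3_4 q, D9_3_5 q]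
  ring

theorem D9_4_3 (q : ℤ) : S9 4 q 3 = 1024 * (T 9 q + T 9 (q - 8) + 2 * ((-1280867) * T 9 q - 335680992 * T 9 (q - 1) + 36144343782 * T 9 (q - 2) + 119893245320 * T 9 (q - 3) - 181143525267 * T 9 (q - 4) - 212712729552 * T 9 (q - 5) - 8385793986 * T 9 (q - 6) + 1667006568 * T 9 (q - 7) - 865391 * T 9 (q - 8))) := by
  rw [S9_1_3 3 q, D9_3_1 q, D9_3_2 q, D9_3_3 q, D9_3_4 q, D9_3_5 q]
  ring

theorem D9_4_4 (q : ℤ) : S9 4 q 4 = 1024 * (T 9 q + T 9 (q - 8) + 2 * ((-865391) * T 9 q + 1667006568 * T 9 (q - 1) - 8385793986 * T 9 (q - 2) - 212712729552 * T 9 (q - 3) - 181143525267 * T 9 (q - 4) + 119893245320 * T 9 (q - 5) + 36144343782 * T 9 (q - 6) - 335680992 * T 9 (q - 7) - 1280867 * T 9 (q - 8))) := by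
  rw [S9_1_4 3 q, D9_3_2 q, D9_3_3 q, D9_3_4 q, D9_3_5 q, D9_3_6 q]
  ring

theorem D9_4_5 (q : ℤ) : S9 4 q 5 = 1024 * (T 9 q + T 9 (q - 8) + 2 * (2292754 * T 9 q - 1340600808 * T 9 (q - 1) - 27265899438 * T 9 (q - 2) + 94310736912 * T 9 (q - 3) + 353092693899 * T 9 (q - 4) + 84967722360 * T 9 (q - 5) - 27503921430 * T 9 (q - 6) - 1232922080 * T 9 (q - 7) + 1974118 * T 9 (q - 8))) := by
  rw [S9_1_5 3 q, D9_3_2 q, D9_3_3 q, D9_3_4 q, D9_3_5 q, D9_3_6 q]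
  ring

theorem D9_4_6 (q : ℤ) : S9 4 q 6 = 1024 * (T 9 q + T 9 (q - 8) + 2 * ((-1472308) * T 9 q - 377631936 * T 9 (q - 1) + 35737374690 * T 9 (q - 2) + 122838176184 * T 9 (q - 3) - 163089809793 * T 9 (q - 4) - 202009865040 * T 9 (q - 5) - 8988653334 * T 9 (q - 6) + 1517299992 * T 9 (q - 7) - 670424 * T 9 (q - 8))) := by
  rw [S9_1_6 3 q, D9_3_3 q, D9_3_4 q, D9_3_5 q, D9_3_6 q, D9_3_7 q]
  ring

theorem D9_4_7 (q : ℤ) : S9 4 q 7 = 1024 * (T 9 q + T 9 (q - 8) + 2 * ((-973913) * T 9 q + 1743198336 * T 9 (q - 1) - 7929329362 * T 9 (q - 2) - 216453382200 * T 9 (q - 3) - 190740799719 * T 9 (q - 4) + 115366384656 * T 9 (q - 5) + 35839695078 * T 9 (q - 6) - 292383000 * T 9 (q - 7) - 1157141 * T 9 (q - 8))) := by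
  rw [S9_1_7 3 q, D9_3_3 q, D9_3_4 q, D9_3_5 q, D9_3_6 q, D9_3_7 q]
  ring

theorem D9_5_0 (q : ℤ) : S9 5 q 0 = 8192 * (T 9 q + T 9 (q - 8) + 2 * (16879063 * T 9 q - 5117992362 * T 9 (q - 1) - 325646642796 * T 9 (q - 2) - 140144260266 * T 9 (q - 3) + 2796394722039 * T 9 (q - 4) + 1589464274002 * T 9 (q - 5) - 96334007400 * T 9 (q - 6) - 15658930494 * T 9 (q - 7) + 15501637 * T 9 (q - 8))) := by
  rw [S9_1_0 4 q, D9_4_0 q, D9_4_1 q, D9_4_2 q, D9_4_3 q, D9_4_4 q]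
  ring

theorem D9_5_1 (q : ℤ) : S9 5 q 1 = 8192 * (T 9 q + T 9 (q - 8) + 2 * ((-13508156) * T 9 q + 14276488698 * T 9 (q - 1) + 99074149164 * T 9 (q - 2) - 1463195287686 * T 9 (q - 3) - 2697669703647 * T 9 (q - 4) + 87494532894 * T 9 (q - 5) + 316999346312 * T 9 (q - 6) + 5469978798 * T 9 (q - 7) - 18836186 * T 9 (q - 8))) := by
  rw [S9_1_1 4 q, D9_4_0 q, D9_4_1 q, D9_4_2 q, D9_4_3 q, D9_4_4 q]
  ring

theorem D9_5_2 (q : ℤ) : S9 5 q 2 = 8192 * (T 9 q + T 9 (q - 8) + 2 * ((-3807293) * T 9 q - 9191740518 * T 9 (q - 1) + 229225694184 * T 9 (q - 2) + 1607800159530 * T 9 (q - 3) - 100022549997 * T 9 (q - 4) - 1671629235426 * T 9 (q - 5) - 218952096012 * T 9 (q - 6) + 10089529310 * T 9 (q - 7) + 3270541 * T 9 (q - 8))) := by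
  rw [S9_1_2 4 q, D9_4_1 q, D9_4_2 q, D9_4_3 q, D9_4_4 q, D9_4_5 q]
  ring

theorem D9_5_3 (q : ℤ) : S9 5 q 3 = 8192 * (T 9 q + T 9 (q - 8) + 2 * (17881168 * T 9 q - 5349930570 * T 9 (q - 1) - 325657212744 * T 9 (q - 2) - 118038050010 * T 9 (q - 3) + 2789257361301 * T 9 (q - 4) + 1556004638802 * T 9 (q - 5) - 98268067188 * T 9 (q - 6) - 15263758062 * T 9 (q - 7) + 14724758 * T 9 (q - 8))) := by
  rw [S9_1_3 4 q, D9_4_1 q, D9_4_2 q, D9_4_3 q, D9_4_4 q, D9_4_5 q]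
  ring

theorem D9_5_4 (q : ℤ) : S9 5 q 4 = 8192 * (T 9 q + T 9 (q - 8) + 2 * ((-14724759) * T 9 q + 15263758062 * T 9 (q - 1) + 98268067188 * T 9 (q - 2) - 1556004638802 * T 9 (q - 3) - 2789257361301 * T 9 (q - 4) + 118038050010 * T 9 (q - 5) + 325657212744 * T 9 (q - 6) + 5349930570 * T 9 (q - 7) - 17881169 * T 9 (q - 8))) := by
  rw [S9_1_4 4 q, D9_4_2 q, D9_4_3 q, D9_4_4 q, D9_4_5 q, D9_4_6 q]
  ring

theorem D9_5_5 (q : ℤ) : S9 5 q 5 = 8192 * (T 9 q + T 9 (q - 8) + 2 * ((-3270542) * T 9 q - 10089529310 * T 9 (q - 1) + 218952096012 * T 9 (q - 2) + 1671629235426 * T 9 (q - 3) + 100022549997 * T 9 (q - 4) - 1607800159530 * T 9 (q - 5) - 229225694184 * T 9 (q - 6) + 9191740518 * T 9 (q - 7) + 3807292 * T 9 (q - 8))) := by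
  rw [S9_1_5 4 q, D9_4_2 q, D9_4_3 q, D9_4_4 q, D9_4_5 q, D9_4_6 q]
  ring

theorem D9_5_6 (q : ℤ) : S9 5 q 6 = 8192 * (T 9 q + T 9 (q - 8) + 2 * (18836185 * T 9 q - 5469978798 * T 9 (q - 1) - 316999346312 * T 9 (q - 2) - 87494532894 * T 9 (q - 3) + 2697669703647 * T 9 (q - 4) + 1463195287686 * T 9 (q - 5) - 99074149164 * T 9 (q - 6) - 14276488698 * T 9 (q - 7) + 13508155 * T 9 (q - 8))) := by
  rw [S9_1_6 4 q, D9_4_3 q, D9_4_4 q, D9_4_5 q, D9_4_6 q, D9_4_7 q]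
  ring

theorem D9_5_7 (q : ℤ) : S9 5 q 7 = 8192 * (T 9 q + T 9 (q - 8) + 2 * ((-15501638) * T 9 q + 15658930494 * T 9 (q - 1) + 96334007400 * T 9 (q - 2) - 1589464274002 * T 9 (q - 3) - 2796394722039 * T 9 (q - 4) + 140144260266 * T 9 (q - 5) + 325646642796 * T 9 (q - 6) + 5117992362 * T 9 (q - 7) - 16879064 * T 9 (q - 8))) := by
  rw [S9_1_7 4 q, D9_4_3 q, D9_4_4 q, D9_4_5 q, D9_4_6 q, D9_4_7 q]
  ring

theorem D9_6_0 (q : ℤ) : S9 6 q 0 = 32768 * (T 9 q + T 9 (q - 8) + 2 * ((-208373760) * T 9 q - 45582482088 * T 9 (q - 1) + 5662113655050 * T 9 (q - 2) + 18151935788400 * T 9 (q - 3) - 29103884065521 * T 9 (q - 4) - 33209089846920 * T 9 (q - 5) - 1259754569982 * T 9 (q - 6) + 261420794496 * T 9 (q - 7) - 129606620 * T 9 (q - 8))) := by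
  rw [S9_1_0 5 q, D9_5_0 q, D9_5_1 q, D9_5_2 q, D9_5_3 q, D9_5_4 q]
  ring

theorem D9_6_1 (q : ℤ) : S9 6 q 1 = 32768 * (T 9 q + T 9 (q - 8) + 2 * ((-105090485) * T 9 q + 240336012456 * T 9 (q - 1) - 1413166732122 * T 9 (q - 2) - 31462101883440 * T 9 (q - 3) - 25567936547175 * T 9 (q - 4) + 18529821024008 * T 9 (q - 5) + 5398981091694 * T 9 (q - 6) - 54633674304 * T 9 (q - 7) - 206359097 * T 9 (q - 8))) := by
  rw [S9_1_1 5 q, D9_5_0 q, D9_5_1 q, D9_5_2 q, D9_5_3 q, D9_5_4 q]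
  ring

theorem D9_6_2 (q : ℤ) : S9 6 q 2 = 32768 * (T 9 q + T 9 (q - 8) + 2 * (319569853 * T 9 q - 194575824032 * T 9 (q - 1) - 4282395159258 * T 9 (q - 2) + 13167280937160 * T 9 (q - 3) + 54613065883629 * T 9 (q - 4) + 14767187287536 * T 9 (q - 5) - 4106581112322 * T 9 (q - 6) - 206173500888 * T 9 (q - 7) + 330151153 * T 9 (q - 8))) := by
  rw [S9_1_2 5 q, D9_5_1 q, D9_5_2 q, D9_5_3 q, D9_5_4 q, D9_5_5 q]
  ring

theorem D9_6_3 (q : ℤ) : S9 6 q 3 = 32768 * (T 9 q + T 9 (q - 8) + 2 * ((-209035490) * T 9 q - 50158122912 * T 9 (q - 1) + 5614130789514 * T 9 (q - 2) + 18528727596600 * T 9 (q - 3) - 27937632655269 * T 9 (q - 4) - 32852605327920 * T 9 (q - 5) - 1336280511758 * T 9 (q - 6) + 255605162328 * T 9 (q - 7) - 121617590 * T 9 (q - 8))) := by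
  rw [S9_1_3 5 q, D9_5_1 q, D9_5_2 q, D9_5_3 q, D9_5_4 q, D9_5_5 q]
  ring

theorem D9_6_4 (q : ℤ) : S9 6 q 4 = 32768 * (T 9 q + T 9 (q - 8) + 2 * ((-121617590) * T 9 q + 255605162328 * T 9 (q - 1) - 1336280511758 * T 9 (q - 2) - 32852605327920 * T 9 (q - 3) - 27937632655269 * T 9 (q - 4) + 18528727596600 * T 9 (q - 5) + 5614130789514 * T 9 (q - 6) - 50158122912 * T 9 (q - 7) - 209035490 * T 9 (q - 8))) := by
  rw [S9_1_4 5 q, D9_5_2 q, D9_5_3 q, D9_5_4 q, D9_5_5 q, D9_5_6 q]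
  ring

theorem D9_6_5 (q : ℤ) : S9 6 q 5 = 32768 * (T 9 q + T 9 (q - 8) + 2 * (330151153 * T 9 q - 206173500888 * T 9 (q - 1) - 4106581112322 * T 9 (q - 2) + 14767187287536 * T 9 (q - 3) + 54613065883629 * T 9 (q - 4) + 13167280937160 * T 9 (q - 5) - 4282395159258 * T 9 (q - 6) - 194575824032 * T 9 (q - 7) + 319569853 * T 9 (q - 8))) := by
  rw [S9_1_5 5 q, D9_5_2 q, D9_5_3 q, D9_5_4 q, D9_5_5 q, D9_5_6 q]
  ring

theorem D9_6_6 (q : ℤ) : S9 6 q 6 = 32768 * (T 9 q + T 9 (q - 8) + 2 * ((-206359097) * T 9 q - 54633674304 * T 9 (q - 1) + 5398981091694 * T 9 (q - 2) + 18529821024008 * T 9 (q - 3) - 25567936547175 * T 9 (q - 4) - 31462101883440 * T 9 (q - 5) - 1413166732122 * T 9 (q - 6) + 240336012456 * T 9 (q - 7) - 105090485 * T 9 (q - 8))) := by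
  rw [S9_1_6 5 q, D9_5_3 q, D9_5_4 q, D9_5_5 q, D9_5_6 q, D9_5_7 q]
  ring

theorem D9_6_7 (q : ℤ) : S9 6 q 7 = 32768 * (T 9 q + T 9 (q - 8) + 2 * ((-129606620) * T 9 q + 261420794496 * T 9 (q - 1) - 1259754569982 * T 9 (q - 2) - 33209089846920 * T 9 (q - 3) - 29103884065521 * T 9 (q - 4) + 18151935788400 * T 9 (q - 5) + 5662113655050 * T 9 (q - 6) - 45582482088 * T 9 (q - 7) - 208373760 * T 9 (q - 8))) := by
  rw [S9_1_7 5 q, D9_5_3 q, D9_5_4 q, D9_5_5 q, D9_5_6 q, D9_5_7 q]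
  ring

theorem D9_7_0 (q : ℤ) : S9 7 q 0 = 262144 * (T 9 q + T 9 (q - 8) + 2 * (2739492724 * T 9 q - 786082297878 * T 9 (q - 1) - 50819543094820 * T 9 (q - 2) - 23273768735190 * T 9 (q - 3) + 429739033317489 * T 9 (q - 4) + 244265461426926 * T 9 (q - 5) - 14718070901736 * T 9 (q - 6) - 2382834360258 * T 9 (q - 7) + 2313894118 * T 9 (q - 8))) := by
  rw [S9_1_0 6 q, D9_6_0 q, D9_6_1 q, D9_6_2 q, D9_6_3 q, D9_6_4 q]
  ring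

theorem D9_7_1 (q : ℤ) : S9 7 q 1 = 262144 * (T 9 q + T 9 (q - 8) + 2 * ((-2202578865) * T 9 q + 2227859465670 * T 9 (q - 1) + 15654152131812 * T 9 (q - 2) - 225666667028730 * T 9 (q - 3) - 416687108079177 * T 9 (q - 4) + 12291279241122 * T 9 (q - 5) + 48255755162952 * T 9 (q - 6) + 832980257874 * T 9 (q - 7) - 2742914291 * T 9 (q - 8))) := by
  rw [S9_1_1 6 q, D9_6_0 q, D9_6_1 q, D9_6_2 q, D9_6_3 q, D9_6_4 q]
  ring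

theorem D9_7_2 (q : ℤ) : S9 7 q 2 = 262144 * (T 9 q + T 9 (q - 8) + 2 * ((-561062552) * T 9 q - 1438207031322 * T 9 (q - 1) + 35341013247048 * T 9 (q - 2) + 248698219303062 * T 9 (q - 3) - 14237164871211 * T 9 (q - 4) - 256501834441758 * T 9 (q - 5) - 33363376853508 * T 9 (q - 6) + 1549463132642 * T 9 (q - 7) + 418242622 * T 9 (q - 8))) := by
  rw [S9_1_2 6 q, D9_6_1 q, D9_6_2 q, D9_6_3 q, D9_6_4 q, D9_6_5 q]
  ring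

theorem D9_7_3 (q : ℤ) : S9 7 q 3 = 262144 * (T 9 q + T 9 (q - 8) + 2 * (2772945571 * T 9 q - 816369373494 * T 9 (q - 1) - 50324286751848 * T 9 (q - 2) - 18808190883558 * T 9 (q - 3) + 429360353673795 * T 9 (q - 4) + 239295132674222 * T 9 (q - 5) - 15279518306556 * T 9 (q - 6) - 2345613250770 * T 9 (q - 7) + 2290948285 * T 9 (q - 8))) := by
  rw [S9_1_3 6 q, D9_6_1 q, D9_6_2 q, D9_6_3 q, D9_6_4 q, D9_6_5 q]
  ring

theorem D9_7_4 (q : ℤ) : S9 7 q 4 = 262144 * (T 9 q + T 9 (q - 8) + 2 * ((-2290948286) * T 9 q + 2345613250770 * T 9 (q - 1) + 15279518306556 * T 9 (q - 2) - 239295132674222 * T 9 (q - 3) - 429360353673795 * T 9 (q - 4) + 18808190883558 * T 9 (q - 5) + 50324286751848 * T 9 (q - 6) + 816369373494 * T 9 (q - 7) - 2772945572 * T 9 (q - 8))) := by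
  rw [S9_1_4 6 q, D9_6_2 q, D9_6_3 q, D9_6_4 q, D9_6_5 q, D9_6_6 q]
  ring

theorem D9_7_5 (q : ℤ) : S9 7 q 5 = 262144 * (T 9 q + T 9 (q - 8) + 2 * ((-418242623) * T 9 q - 1549463132642 * T 9 (q - 1) + 33363376853508 * T 9 (q - 2) + 256501834441758 * T 9 (q - 3) + 14237164871211 * T 9 (q - 4) - 248698219303062 * T 9 (q - 5) - 35341013247048 * T 9 (q - 6) + 1438207031322 * T 9 (q - 7) + 561062551 * T 9 (q - 8))) := by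
  rw [S9_1_5 6 q, D9_6_2 q, D9_6_3 q, D9_6_4 q, D9_6_5 q, D9_6_6 q]
  ring

theorem D9_7_6 (q : ℤ) : S9 7 q 6 = 262144 * (T 9 q + T 9 (q - 8) + 2 * (2742914290 * T 9 q - 832980257874 * T 9 (q - 1) - 48255755162952 * T 9 (q - 2) - 12291279241122 * T 9 (q - 3) + 416687108079177 * T 9 (q - 4) + 225666667028730 * T 9 (q - 5) - 15654152131812 * T 9 (q - 6) - 2227859465670 * T 9 (q - 7) + 2202578864 * T 9 (q - 8))) := by
  rw [S9_1_6 6 q, D9_6_3 q, D9_6_4 q, D9_6_5 q, D9_6_6 q, D9_6_7 q]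
  ring

theorem D9_7_7 (q : ℤ) : S9 7 q 7 = 262144 * (T 9 q + T 9 (q - 8) + 2 * ((-2313894119) * T 9 q + 2382834360258 * T 9 (q - 1) + 14718070901736 * T 9 (q - 2) - 244265461426926 * T 9 (q - 3) - 429739033317489 * T 9 (q - 4) + 23273768735190 * T 9 (q - 5) + 50819543094820 * T 9 (q - 6) + 786082297878 * T 9 (q - 7) - 2739492725 * T 9 (q - 8))) := by
  rw [S9_1_7 6 q, D9_6_3 q, D9_6_4 q, D9_6_5 q, D9_6_6 q, D9_6_7 q]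
  ring

theorem odd9 (q : ℕ) : ∃ a : ℤ, T 9 (q : ℤ) + T 9 ((q : ℤ) - 8) = 2 * a + 1 := by
  have h1 := par9 (q : ℤ) (by omega)
  have h2 := par9 ((q : ℤ) - 8) (by omega)
  have h3 : (T 9 (q : ℤ) + T 9 ((q : ℤ) - 8)) % 2 = 1 := by
    rw [Int.add_emod, h1, h2]
    split_ifs <;> first | rfl | (exfalso; omega)
  exact ⟨(T 9 (q : ℤ) + T 9 ((q : ℤ) - 8)) / 2, by omega⟩

/-- the exponent -/
def e9 (v : ℕ) : ℕ := (5 * ((v + 1) / 2) - 2 * (v % 2))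

theorem e9_2 (v : ℕ) : e9 (v + 2) = e9 v + 5 := by
  unfold e9
  have h1 : (v + 2 + 1) / 2 = (v + 1) / 2 + 1 := by omega
  have h2 : (v + 2) % 2 = v % 2 := by omega
  have h3 : v % 2 ≤ (v + 1) / 2 := by omega
  rw [h1, h2]
  omega

theorem e9_4 (v : ℕ) : e9 (v + 4) = e9 v + 10 := by
  rw [show v + 4 = (v + 2) + 2 from rfl, e9_2, e9_2]
theorem e9_6 (v : ℕ) : e9 (v + 6) = e9 v + 15 := by
  rw [show v + 6 = (v + 4) + 2 from rfl, e9_2, e9_4]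
theorem e9_8 (v : ℕ) : e9 (v + 8) = e9 v + 20 := by
  rw [show v + 8 = (v + 6) + 2 from rfl, e9_2, e9_6]

theorem main9_0 (q v : ℕ) : ∃ a : ℤ, S9 v (q : ℤ) 0 = 2 ^ e9 v * (2 * a + 1) := by
  obtain ⟨a, ha⟩ := odd9 q
  induction v using Nat.strong_induction_on with
  | _ v ih =>
    rcases Nat.lt_or_ge v 8 with hv | hv
    · interval_cases v
      · rw [D9_0_0 q, ha]; exact ⟨a + ((-9000) * T 9 ((q : ℤ) - 1) + 899370 * T 9 ((q : ℤ) - 2) + 3200688 * T 9 ((q : ℤ) - 3) - 9186705 * T 9 ((q : ℤ) - 4) - 9619848 * T 9 ((q : ℤ) - 5) + 95202 * T 9 ((q : ℤ) - 6) + 153792 * T 9 ((q : ℤ) - 7) - 572 * T 9 ((q : ℤ) - 8)), by rw [show e9 0 = 0 from rfl]; ring⟩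
      · rw [D9_1_0 q, ha]; exact ⟨a + (148 * T 9 (q : ℤ) - 216234 * T 9 ((q : ℤ) - 1) - 10703992 * T 9 ((q : ℤ) - 2) + 2246598 * T 9 ((q : ℤ) - 3) + 124198605 * T 9 ((q : ℤ) - 4) + 70327602 * T 9 ((q : ℤ) - 5) - 5251428 * T 9 ((q : ℤ) - 6) - 919566 * T 9 ((q : ℤ) - 7) + 1594 * T 9 ((q : ℤ) - 8)), by rw [show e9 1 = 3 from rfl]; ring⟩
      · rw [D9_2_0 q, ha]; exact ⟨a + ((-3482) * T 9 (q : ℤ) - 1809288 * T 9 ((q : ℤ) - 1) + 211065282 * T 9 ((q : ℤ) - 2) + 690883120 * T 9 ((q : ℤ) - 3) - 1283701437 * T 9 ((q : ℤ) - 4) - 1428202728 * T 9 ((q : ℤ) - 5) - 43637286 * T 9 ((q : ℤ) - 6) + 12824064 * T 9 ((q : ℤ) - 7) - 12038 * T 9 ((q : ℤ) - 8)), by rw [show e9 2 = 5 from rfl]; ring⟩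
      · rw [D9_3_0 q, ha]; exact ⟨a + (88330 * T 9 (q : ℤ) - 33579414 * T 9 ((q : ℤ) - 1) - 2014391628 * T 9 ((q : ℤ) - 2) - 642034998 * T 9 ((q : ℤ) - 3) + 18363313701 * T 9 ((q : ℤ) - 4) + 10435369134 * T 9 ((q : ℤ) - 5) - 650469168 * T 9 ((q : ℤ) - 6) - 107401122 * T 9 ((q : ℤ) - 7) + 117516 * T 9 ((q : ℤ) - 8)), by rw [show e9 3 = 8 from rfl]; ring⟩
      · rw [D9_4_0 q, ha]; exact ⟨a + ((-1157141) * T 9 (q : ℤ) - 292383000 * T 9 ((q : ℤ) - 1) + 35839695078 * T 9 ((q : ℤ) - 2) + 115366384656 * T 9 ((q : ℤ) - 3) - 190740799719 * T 9 ((q : ℤ) - 4) - 216453382200 * T 9 ((q : ℤ) - 5) - 7929329362 * T 9 ((q : ℤ) - 6) + 1743198336 * T 9 ((q : ℤ) - 7) - 973913 * T 9 ((q : ℤ) - 8)), by rw [show e9 4 = 10 from rfl]; ring⟩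
      · rw [D9_5_0 q, ha]; exact ⟨a + (16879063 * T 9 (q : ℤ) - 5117992362 * T 9 ((q : ℤ) - 1) - 325646642796 * T 9 ((q : ℤ) - 2) - 140144260266 * T 9 ((q : ℤ) - 3) + 2796394722039 * T 9 ((q : ℤ) - 4) + 1589464274002 * T 9 ((q : ℤ) - 5) - 96334007400 * T 9 ((q : ℤ) - 6) - 15658930494 * T 9 ((q : ℤ) - 7) + 15501637 * T 9 ((q : ℤ) - 8)), by rw [show e9 5 = 13 from rfl]; ring⟩
      · rw [D9_6_0 q, ha]; exact ⟨a + ((-208373760) * T 9 (q : ℤ) - 45582482088 * T 9 ((q : ℤ) - 1) + 5662113655050 * T 9 ((q : ℤ) - 2) + 18151935788400 * T 9 ((q : ℤ) - 3) - 29103884065521 * T 9 ((q : ℤ) - 4) - 33209089846920 * T 9 ((q : ℤ) - 5) - 1259754569982 * T 9 ((q : ℤ) - 6) + 261420794496 * T 9 ((q : ℤ) - 7) - 129606620 * T 9 ((q : ℤ) - 8)), by rw [show e9 6 = 15 from rfl]; ring⟩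
      · rw [D9_7_0 q, ha]; exact ⟨a + (2739492724 * T 9 (q : ℤ) - 786082297878 * T 9 ((q : ℤ) - 1) - 50819543094820 * T 9 ((q : ℤ) - 2) - 23273768735190 * T 9 ((q : ℤ) - 3) + 429739033317489 * T 9 ((q : ℤ) - 4) + 244265461426926 * T 9 ((q : ℤ) - 5) - 14718070901736 * T 9 ((q : ℤ) - 6) - 2382834360258 * T 9 ((q : ℤ) - 7) + 2313894118 * T 9 ((q : ℤ) - 8)), by rw [show e9 7 = 18 from rfl]; ring⟩
    · obtain ⟨u, rfl⟩ := Nat.exists_eq_add_of_le' hv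
      obtain ⟨a0, h0⟩ := ih u (by omega)
      obtain ⟨a2, h2⟩ := ih (u + 2) (by omega)
      obtain ⟨a4, h4⟩ := ih (u + 4) (by omega)
      obtain ⟨a6, h6⟩ := ih (u + 6) (by omega)
      rw [S9_ch_0 u q, h0, h2, h4, h6, e9_2 u, e9_4 u, e9_6 u, e9_8 u]
      exact ⟨205 * a6 - 8274 * a4 + 68224 * a2 - 65536 * a0 + (-2691), by ring⟩

theorem main9_1 (q v : ℕ) : ∃ a : ℤ, S9 v (q : ℤ) 1 = 2 ^ e9 v * (2 * a + 1) := by
  obtain ⟨a, ha⟩ := odd9 q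
  induction v using Nat.strong_induction_on with
  | _ v ih =>
    rcases Nat.lt_or_ge v 8 with hv | hv
    · interval_cases v
      · rw [D9_0_1 q, ha]; exact ⟨a + ((-5) * T 9 (q : ℤ) + 35496 * T 9 ((q : ℤ) - 1) - 250938 * T 9 ((q : ℤ) - 2) - 6952176 * T 9 ((q : ℤ) - 3) - 4850343 * T 9 ((q : ℤ) - 4) + 7131272 * T 9 ((q : ℤ) - 5) + 1974222 * T 9 ((q : ℤ) - 6) - 52992 * T 9 ((q : ℤ) - 7) - 41 * T 9 ((q : ℤ) - 8)), by rw [show e9 0 = 0 from rfl]; ring⟩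
      · rw [D9_1_1 q, ha]; exact ⟨a + ((-81) * T 9 (q : ℤ) + 469242 * T 9 ((q : ℤ) - 1) + 2338776 * T 9 ((q : ℤ) - 2) - 61063542 * T 9 ((q : ℤ) - 3) - 109369989 * T 9 ((q : ℤ) - 4) + 10088766 * T 9 ((q : ℤ) - 5) + 16722084 * T 9 ((q : ℤ) - 6) + 323838 * T 9 ((q : ℤ) - 7) - 1895 * T 9 ((q : ℤ) - 8)), by rw [show e9 1 = 3 from rfl]; ring⟩
      · rw [D9_2_1 q, ha]; exact ⟨a + ((-3947) * T 9 (q : ℤ) + 8838792 * T 9 ((q : ℤ) - 1) - 53979218 * T 9 ((q : ℤ) - 2) - 1259729136 * T 9 ((q : ℤ) - 3) - 990599931 * T 9 ((q : ℤ) - 4) + 862171752 * T 9 ((q : ℤ) - 5) + 249085782 * T 9 ((q : ℤ) - 6) - 3169728 * T 9 ((q : ℤ) - 7) - 11999 * T 9 ((q : ℤ) - 8)), by rw [show e9 2 = 5 from rfl]; ring⟩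
      · rw [D9_3_1 q, ha]; exact ⟨a + ((-69143) * T 9 (q : ℤ) + 88322886 * T 9 ((q : ℤ) - 1) + 582122700 * T 9 ((q : ℤ) - 2) - 9479108762 * T 9 ((q : ℤ) - 3) - 17374643037 * T 9 ((q : ℤ) - 4) + 763723746 * T 9 ((q : ℤ) - 5) + 2158231632 * T 9 ((q : ℤ) - 6) + 37463346 * T 9 ((q : ℤ) - 7) - 150377 * T 9 ((q : ℤ) - 8)), by rw [show e9 3 = 8 from rfl]; ring⟩
      · rw [D9_4_1 q, ha]; exact ⟨a + ((-670424) * T 9 (q : ℤ) + 1517299992 * T 9 ((q : ℤ) - 1) - 8988653334 * T 9 ((q : ℤ) - 2) - 202009865040 * T 9 ((q : ℤ) - 3) - 163089809793 * T 9 ((q : ℤ) - 4) + 122838176184 * T 9 ((q : ℤ) - 5) + 35737374690 * T 9 ((q : ℤ) - 6) - 377631936 * T 9 ((q : ℤ) - 7) - 1472308 * T 9 ((q : ℤ) - 8)), by rw [show e9 4 = 10 from rfl]; ring⟩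
      · rw [D9_5_1 q, ha]; exact ⟨a + ((-13508156) * T 9 (q : ℤ) + 14276488698 * T 9 ((q : ℤ) - 1) + 99074149164 * T 9 ((q : ℤ) - 2) - 1463195287686 * T 9 ((q : ℤ) - 3) - 2697669703647 * T 9 ((q : ℤ) - 4) + 87494532894 * T 9 ((q : ℤ) - 5) + 316999346312 * T 9 ((q : ℤ) - 6) + 5469978798 * T 9 ((q : ℤ) - 7) - 18836186 * T 9 ((q : ℤ) - 8)), by rw [show e9 5 = 13 from rfl]; ring⟩
      · rw [D9_6_1 q, ha]; exact ⟨a + ((-105090485) * T 9 (q : ℤ) + 240336012456 * T 9 ((q : ℤ) - 1) - 1413166732122 * T 9 ((q : ℤ) - 2) - 31462101883440 * T 9 ((q : ℤ) - 3) - 25567936547175 * T 9 ((q : ℤ) - 4) + 18529821024008 * T 9 ((q : ℤ) - 5) + 5398981091694 * T 9 ((q : ℤ) - 6) - 54633674304 * T 9 ((q : ℤ) - 7) - 206359097 * T 9 ((q : ℤ) - 8)), by rw [show e9 6 = 15 from rfl]; ring⟩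
      · rw [D9_7_1 q, ha]; exact ⟨a + ((-2202578865) * T 9 (q : ℤ) + 2227859465670 * T 9 ((q : ℤ) - 1) + 15654152131812 * T 9 ((q : ℤ) - 2) - 225666667028730 * T 9 ((q : ℤ) - 3) - 416687108079177 * T 9 ((q : ℤ) - 4) + 12291279241122 * T 9 ((q : ℤ) - 5) + 48255755162952 * T 9 ((q : ℤ) - 6) + 832980257874 * T 9 ((q : ℤ) - 7) - 2742914291 * T 9 ((q : ℤ) - 8)), by rw [show e9 7 = 18 from rfl]; ring⟩
    · obtain ⟨u, rfl⟩ := Nat.exists_eq_add_of_le' hv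
      obtain ⟨a0, h0⟩ := ih u (by omega)
      obtain ⟨a2, h2⟩ := ih (u + 2) (by omega)
      obtain ⟨a4, h4⟩ := ih (u + 4) (by omega)
      obtain ⟨a6, h6⟩ := ih (u + 6) (by omega)
      rw [S9_ch_1 u q, h0, h2, h4, h6, e9_2 u, e9_4 u, e9_6 u, e9_8 u]
      exact ⟨205 * a6 - 8274 * a4 + 68224 * a2 - 65536 * a0 + (-2691), by ring⟩

theorem main9_2 (q v : ℕ) : ∃ a : ℤ, S9 v (q : ℤ) 2 = 2 ^ e9 v * (2 * a + 1) := by
  obtain ⟨a, ha⟩ := odd9 q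
  induction v using Nat.strong_induction_on with
  | _ v ih =>
    rcases Nat.lt_or_ge v 8 with hv | hv
    · interval_cases v
      · rw [D9_0_2 q, ha]; exact ⟨a + (13 * T 9 (q : ℤ) - 31424 * T 9 ((q : ℤ) - 1) - 951642 * T 9 ((q : ℤ) - 2) + 3237480 * T 9 ((q : ℤ) - 3) + 14003661 * T 9 ((q : ℤ) - 4) + 2839824 * T 9 ((q : ℤ) - 5) - 1626498 * T 9 ((q : ℤ) - 6) - 55416 * T 9 ((q : ℤ) - 7) + 193 * T 9 ((q : ℤ) - 8)), by rw [show e9 0 = 0 from rfl]; ring⟩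
      · rw [D9_1_2 q, ha]; exact ⟨a + ((-248) * T 9 (q : ℤ) - 284310 * T 9 ((q : ℤ) - 1) + 9624780 * T 9 ((q : ℤ) - 2) + 63552042 * T 9 ((q : ℤ) - 3) - 10328727 * T 9 ((q : ℤ) - 4) - 76724370 * T 9 ((q : ℤ) - 5) - 11273976 * T 9 ((q : ℤ) - 6) + 448574 * T 9 ((q : ℤ) - 7) + 634 * T 9 ((q : ℤ) - 8)), by rw [show e9 1 = 3 from rfl]; ring⟩
      · rw [D9_2_2 q, ha]; exact ⟨a + (10399 * T 9 (q : ℤ) - 7290080 * T 9 ((q : ℤ) - 1) - 171702162 * T 9 ((q : ℤ) - 2) + 540372456 * T 9 ((q : ℤ) - 3) + 2262678537 * T 9 ((q : ℤ) - 4) + 575346672 * T 9 ((q : ℤ) - 5) - 192490650 * T 9 ((q : ℤ) - 6) - 8753592 * T 9 ((q : ℤ) - 7) + 18499 * T 9 ((q : ℤ) - 8)), by rw [show e9 2 = 5 from rfl]; ring⟩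
      · rw [D9_3_2 q, ha]; exact ⟨a + ((-28562) * T 9 (q : ℤ) - 56258874 * T 9 ((q : ℤ) - 1) + 1486949184 * T 9 ((q : ℤ) - 2) + 10299153942 * T 9 ((q : ℤ) - 3) - 841097847 * T 9 ((q : ℤ) - 4) - 11043663678 * T 9 ((q : ℤ) - 5) - 1484557164 * T 9 ((q : ℤ) - 6) + 66390434 * T 9 ((q : ℤ) - 7) + 35572 * T 9 ((q : ℤ) - 8)), by rw [show e9 3 = 8 from rfl]; ring⟩
      · rw [D9_4_2 q, ha]; exact ⟨a + (1974118 * T 9 (q : ℤ) - 1232922080 * T 9 ((q : ℤ) - 1) - 27503921430 * T 9 ((q : ℤ) - 2) + 84967722360 * T 9 ((q : ℤ) - 3) + 353092693899 * T 9 ((q : ℤ) - 4) + 94310736912 * T 9 ((q : ℤ) - 5) - 27265899438 * T 9 ((q : ℤ) - 6) - 1340600808 * T 9 ((q : ℤ) - 7) + 2292754 * T 9 ((q : ℤ) - 8)), by rw [show e9 4 = 10 from rfl]; ring⟩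
      · rw [D9_5_2 q, ha]; exact ⟨a + ((-3807293) * T 9 (q : ℤ) - 9191740518 * T 9 ((q : ℤ) - 1) + 229225694184 * T 9 ((q : ℤ) - 2) + 1607800159530 * T 9 ((q : ℤ) - 3) - 100022549997 * T 9 ((q : ℤ) - 4) - 1671629235426 * T 9 ((q : ℤ) - 5) - 218952096012 * T 9 ((q : ℤ) - 6) + 10089529310 * T 9 ((q : ℤ) - 7) + 3270541 * T 9 ((q : ℤ) - 8)), by rw [show e9 5 = 13 from rfl]; ring⟩
      · rw [D9_6_2 q, ha]; exact ⟨a + (319569853 * T 9 (q : ℤ) - 194575824032 * T 9 ((q : ℤ) - 1) - 4282395159258 * T 9 ((q : ℤ) - 2) + 13167280937160 * T 9 ((q : ℤ) - 3) + 54613065883629 * T 9 ((q : ℤ) - 4) + 14767187287536 * T 9 ((q : ℤ) - 5) - 4106581112322 * T 9 ((q : ℤ) - 6) - 206173500888 * T 9 ((q : ℤ) - 7) + 330151153 * T 9 ((q : ℤ) - 8)), by rw [show e9 6 = 15 from rfl]; ring⟩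
      · rw [D9_7_2 q, ha]; exact ⟨a + ((-561062552) * T 9 (q : ℤ) - 1438207031322 * T 9 ((q : ℤ) - 1) + 35341013247048 * T 9 ((q : ℤ) - 2) + 248698219303062 * T 9 ((q : ℤ) - 3) - 14237164871211 * T 9 ((q : ℤ) - 4) - 256501834441758 * T 9 ((q : ℤ) - 5) - 33363376853508 * T 9 ((q : ℤ) - 6) + 1549463132642 * T 9 ((q : ℤ) - 7) + 418242622 * T 9 ((q : ℤ) - 8)), by rw [show e9 7 = 18 from rfl]; ring⟩
    · obtain ⟨u, rfl⟩ := Nat.exists_eq_add_of_le' hv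
      obtain ⟨a0, h0⟩ := ih u (by omega)
      obtain ⟨a2, h2⟩ := ih (u + 2) (by omega)
      obtain ⟨a4, h4⟩ := ih (u + 4) (by omega)
      obtain ⟨a6, h6⟩ := ih (u + 6) (by omega)
      rw [S9_ch_2 u q, h0, h2, h4, h6, e9_2 u, e9_4 u, e9_6 u, e9_8 u]
      exact ⟨205 * a6 - 8274 * a4 + 68224 * a2 - 65536 * a0 + (-2691), by ring⟩

theorem main9_3 (q v : ℕ) : ∃ a : ℤ, S9 v (q : ℤ) 3 = 2 ^ e9 v * (2 * a + 1) := by
  obtain ⟨a, ha⟩ := odd9 q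
  induction v using Nat.strong_induction_on with
  | _ v ih =>
    rcases Nat.lt_or_ge v 8 with hv | hv
    · interval_cases v
      · rw [D9_0_3 q, ha]; exact ⟨a + ((-2) * T 9 (q : ℤ) - 20736 * T 9 ((q : ℤ) - 1) + 1316682 * T 9 ((q : ℤ) - 2) + 4830744 * T 9 ((q : ℤ) - 3) - 7588197 * T 9 ((q : ℤ) - 4) - 8679888 * T 9 ((q : ℤ) - 5) - 141134 * T 9 ((q : ℤ) - 6) + 75384 * T 9 ((q : ℤ) - 7) - 86 * T 9 ((q : ℤ) - 8)), by rw [show e9 0 = 0 from rfl]; ring⟩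
      · rw [D9_1_3 q, ha]; exact ⟨a + (643 * T 9 (q : ℤ) - 265626 * T 9 ((q : ℤ) - 1) - 13112268 * T 9 ((q : ℤ) - 2) - 1839834 * T 9 ((q : ℤ) - 3) + 121025871 * T 9 ((q : ℤ) - 4) + 68672642 * T 9 ((q : ℤ) - 5) - 3459240 * T 9 ((q : ℤ) - 6) - 678222 * T 9 ((q : ℤ) - 7) + 481 * T 9 ((q : ℤ) - 8)), by rw [show e9 1 = 3 from rfl]; ring⟩
      · rw [D9_2_3 q, ha]; exact ⟨a + ((-6484) * T 9 (q : ℤ) - 2424672 * T 9 ((q : ℤ) - 1) + 227818242 * T 9 ((q : ℤ) - 2) + 770747928 * T 9 ((q : ℤ) - 3) - 1173710241 * T 9 ((q : ℤ) - 4) - 1370835504 * T 9 ((q : ℤ) - 5) - 47450550 * T 9 ((q : ℤ) - 6) + 11028024 * T 9 ((q : ℤ) - 7) - 7448 * T 9 ((q : ℤ) - 8)), by rw [show e9 2 = 5 from rfl]; ring⟩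
      · rw [D9_3_3 q, ha]; exact ⟨a + (113197 * T 9 (q : ℤ) - 36057366 * T 9 ((q : ℤ) - 1) - 2093947424 * T 9 ((q : ℤ) - 2) - 666981990 * T 9 ((q : ℤ) - 3) + 18206152047 * T 9 ((q : ℤ) - 4) + 10193055438 * T 9 ((q : ℤ) - 5) - 616508244 * T 9 ((q : ℤ) - 6) - 100243602 * T 9 ((q : ℤ) - 7) + 91927 * T 9 ((q : ℤ) - 8)), by rw [show e9 3 = 8 from rfl]; ring⟩
      · rw [D9_4_3 q, ha]; exact ⟨a + ((-1280867) * T 9 (q : ℤ) - 335680992 * T 9 ((q : ℤ) - 1) + 36144343782 * T 9 ((q : ℤ) - 2) + 119893245320 * T 9 ((q : ℤ) - 3) - 181143525267 * T 9 ((q : ℤ) - 4) - 212712729552 * T 9 ((q : ℤ) - 5) - 8385793986 * T 9 ((q : ℤ) - 6) + 1667006568 * T 9 ((q : ℤ) - 7) - 865391 * T 9 ((q : ℤ) - 8)), by rw [show e9 4 = 10 from rfl]; ring⟩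
      · rw [D9_5_3 q, ha]; exact ⟨a + (17881168 * T 9 (q : ℤ) - 5349930570 * T 9 ((q : ℤ) - 1) - 325657212744 * T 9 ((q : ℤ) - 2) - 118038050010 * T 9 ((q : ℤ) - 3) + 2789257361301 * T 9 ((q : ℤ) - 4) + 1556004638802 * T 9 ((q : ℤ) - 5) - 98268067188 * T 9 ((q : ℤ) - 6) - 15263758062 * T 9 ((q : ℤ) - 7) + 14724758 * T 9 ((q : ℤ) - 8)), by rw [show e9 5 = 13 from rfl]; ring⟩
      · rw [D9_6_3 q, ha]; exact ⟨a + ((-209035490) * T 9 (q : ℤ) - 50158122912 * T 9 ((q : ℤ) - 1) + 5614130789514 * T 9 ((q : ℤ) - 2) + 18528727596600 * T 9 ((q : ℤ) - 3) - 27937632655269 * T 9 ((q : ℤ) - 4) - 32852605327920 * T 9 ((q : ℤ) - 5) - 1336280511758 * T 9 ((q : ℤ) - 6) + 255605162328 * T 9 ((q : ℤ) - 7) - 121617590 * T 9 ((q : ℤ) - 8)), by rw [show e9 6 = 15 from rfl]; ring⟩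
      · rw [D9_7_3 q, ha]; exact ⟨a + (2772945571 * T 9 (q : ℤ) - 816369373494 * T 9 ((q : ℤ) - 1) - 50324286751848 * T 9 ((q : ℤ) - 2) - 18808190883558 * T 9 ((q : ℤ) - 3) + 429360353673795 * T 9 ((q : ℤ) - 4) + 239295132674222 * T 9 ((q : ℤ) - 5) - 15279518306556 * T 9 ((q : ℤ) - 6) - 2345613250770 * T 9 ((q : ℤ) - 7) + 2290948285 * T 9 ((q : ℤ) - 8)), by rw [show e9 7 = 18 from rfl]; ring⟩
    · obtain ⟨u, rfl⟩ := Nat.exists_eq_add_of_le' hv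
      obtain ⟨a0, h0⟩ := ih u (by omega)
      obtain ⟨a2, h2⟩ := ih (u + 2) (by omega)
      obtain ⟨a4, h4⟩ := ih (u + 4) (by omega)
      obtain ⟨a6, h6⟩ := ih (u + 6) (by omega)
      rw [S9_ch_3 u q, h0, h2, h4, h6, e9_2 u, e9_4 u, e9_6 u, e9_8 u]
      exact ⟨205 * a6 - 8274 * a4 + 68224 * a2 - 65536 * a0 + (-2691), by ring⟩

theorem main9_4 (q v : ℕ) : ∃ a : ℤ, S9 v (q : ℤ) 4 = 2 ^ e9 v * (2 * a + 1) := by
  obtain ⟨a, ha⟩ := odd9 q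
  induction v using Nat.strong_induction_on with
  | _ v ih =>
    rcases Nat.lt_or_ge v 8 with hv | hv
    · interval_cases v
      · rw [D9_0_4 q, ha]; exact ⟨a + ((-86) * T 9 (q : ℤ) + 75384 * T 9 ((q : ℤ) - 1) - 141134 * T 9 ((q : ℤ) - 2) - 8679888 * T 9 ((q : ℤ) - 3) - 7588197 * T 9 ((q : ℤ) - 4) + 4830744 * T 9 ((q : ℤ) - 5) + 1316682 * T 9 ((q : ℤ) - 6) - 20736 * T 9 ((q : ℤ) - 7) - 2 * T 9 ((q : ℤ) - 8)), by rw [show e9 0 = 0 from rfl]; ring⟩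
      · rw [D9_1_4 q, ha]; exact ⟨a + ((-482) * T 9 (q : ℤ) + 678222 * T 9 ((q : ℤ) - 1) + 3459240 * T 9 ((q : ℤ) - 2) - 68672642 * T 9 ((q : ℤ) - 3) - 121025871 * T 9 ((q : ℤ) - 4) + 1839834 * T 9 ((q : ℤ) - 5) + 13112268 * T 9 ((q : ℤ) - 6) + 265626 * T 9 ((q : ℤ) - 7) - 644 * T 9 ((q : ℤ) - 8)), by rw [show e9 1 = 3 from rfl]; ring⟩
      · rw [D9_2_4 q, ha]; exact ⟨a + ((-7448) * T 9 (q : ℤ) + 11028024 * T 9 ((q : ℤ) - 1) - 47450550 * T 9 ((q : ℤ) - 2) - 1370835504 * T 9 ((q : ℤ) - 3) - 1173710241 * T 9 ((q : ℤ) - 4) + 770747928 * T 9 ((q : ℤ) - 5) + 227818242 * T 9 ((q : ℤ) - 6) - 2424672 * T 9 ((q : ℤ) - 7) - 6484 * T 9 ((q : ℤ) - 8)), by rw [show e9 2 = 5 from rfl]; ring⟩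
      · rw [D9_3_4 q, ha]; exact ⟨a + ((-91928) * T 9 (q : ℤ) + 100243602 * T 9 ((q : ℤ) - 1) + 616508244 * T 9 ((q : ℤ) - 2) - 10193055438 * T 9 ((q : ℤ) - 3) - 18206152047 * T 9 ((q : ℤ) - 4) + 666981990 * T 9 ((q : ℤ) - 5) + 2093947424 * T 9 ((q : ℤ) - 6) + 36057366 * T 9 ((q : ℤ) - 7) - 113198 * T 9 ((q : ℤ) - 8)), by rw [show e9 3 = 8 from rfl]; ring⟩
      · rw [D9_4_4 q, ha]; exact ⟨a + ((-865391) * T 9 (q : ℤ) + 1667006568 * T 9 ((q : ℤ) - 1) - 8385793986 * T 9 ((q : ℤ) - 2) - 212712729552 * T 9 ((q : ℤ) - 3) - 181143525267 * T 9 ((q : ℤ) - 4) + 119893245320 * T 9 ((q : ℤ) - 5) + 36144343782 * T 9 ((q : ℤ) - 6) - 335680992 * T 9 ((q : ℤ) - 7) - 1280867 * T 9 ((q : ℤ) - 8)), by rw [show e9 4 = 10 from rfl]; ring⟩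
      · rw [D9_5_4 q, ha]; exact ⟨a + ((-14724759) * T 9 (q : ℤ) + 15263758062 * T 9 ((q : ℤ) - 1) + 98268067188 * T 9 ((q : ℤ) - 2) - 1556004638802 * T 9 ((q : ℤ) - 3) - 2789257361301 * T 9 ((q : ℤ) - 4) + 118038050010 * T 9 ((q : ℤ) - 5) + 325657212744 * T 9 ((q : ℤ) - 6) + 5349930570 * T 9 ((q : ℤ) - 7) - 17881169 * T 9 ((q : ℤ) - 8)), by rw [show e9 5 = 13 from rfl]; ring⟩
      · rw [D9_6_4 q, ha]; exact ⟨a + ((-121617590) * T 9 (q : ℤ) + 255605162328 * T 9 ((q : ℤ) - 1) - 1336280511758 * T 9 ((q : ℤ) - 2) - 32852605327920 * T 9 ((q : ℤ) - 3) - 27937632655269 * T 9 ((q : ℤ) - 4) + 18528727596600 * T 9 ((q : ℤ) - 5) + 5614130789514 * T 9 ((q : ℤ) - 6) - 50158122912 * T 9 ((q : ℤ) - 7) - 209035490 * T 9 ((q : ℤ) - 8)), by rw [show e9 6 = 15 from rfl]; ring⟩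
      · rw [D9_7_4 q, ha]; exact ⟨a + ((-2290948286) * T 9 (q : ℤ) + 2345613250770 * T 9 ((q : ℤ) - 1) + 15279518306556 * T 9 ((q : ℤ) - 2) - 239295132674222 * T 9 ((q : ℤ) - 3) - 429360353673795 * T 9 ((q : ℤ) - 4) + 18808190883558 * T 9 ((q : ℤ) - 5) + 50324286751848 * T 9 ((q : ℤ) - 6) + 816369373494 * T 9 ((q : ℤ) - 7) - 2772945572 * T 9 ((q : ℤ) - 8)), by rw [show e9 7 = 18 from rfl]; ring⟩
    · obtain ⟨u, rfl⟩ := Nat.exists_eq_add_of_le' hv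
      obtain ⟨a0, h0⟩ := ih u (by omega)
      obtain ⟨a2, h2⟩ := ih (u + 2) (by omega)
      obtain ⟨a4, h4⟩ := ih (u + 4) (by omega)
      obtain ⟨a6, h6⟩ := ih (u + 6) (by omega)
      rw [S9_ch_4 u q, h0, h2, h4, h6, e9_2 u, e9_4 u, e9_6 u, e9_8 u]
      exact ⟨205 * a6 - 8274 * a4 + 68224 * a2 - 65536 * a0 + (-2691), by ring⟩

theorem main9_5 (q v : ℕ) : ∃ a : ℤ, S9 v (q : ℤ) 5 = 2 ^ e9 v * (2 * a + 1) := by
  obtain ⟨a, ha⟩ := odd9 q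
  induction v using Nat.strong_induction_on with
  | _ v ih =>
    rcases Nat.lt_or_ge v 8 with hv | hv
    · interval_cases v
      · rw [D9_0_5 q, ha]; exact ⟨a + (193 * T 9 (q : ℤ) - 55416 * T 9 ((q : ℤ) - 1) - 1626498 * T 9 ((q : ℤ) - 2) + 2839824 * T 9 ((q : ℤ) - 3) + 14003661 * T 9 ((q : ℤ) - 4) + 3237480 * T 9 ((q : ℤ) - 5) - 951642 * T 9 ((q : ℤ) - 6) - 31424 * T 9 ((q : ℤ) - 7) + 13 * T 9 ((q : ℤ) - 8)), by rw [show e9 0 = 0 from rfl]; ring⟩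
      · rw [D9_1_5 q, ha]; exact ⟨a + ((-635) * T 9 (q : ℤ) - 448574 * T 9 ((q : ℤ) - 1) + 11273976 * T 9 ((q : ℤ) - 2) + 76724370 * T 9 ((q : ℤ) - 3) + 10328727 * T 9 ((q : ℤ) - 4) - 63552042 * T 9 ((q : ℤ) - 5) - 9624780 * T 9 ((q : ℤ) - 6) + 284310 * T 9 ((q : ℤ) - 7) + 247 * T 9 ((q : ℤ) - 8)), by rw [show e9 1 = 3 from rfl]; ring⟩
      · rw [D9_2_5 q, ha]; exact ⟨a + (18499 * T 9 (q : ℤ) - 8753592 * T 9 ((q : ℤ) - 1) - 192490650 * T 9 ((q : ℤ) - 2) + 575346672 * T 9 ((q : ℤ) - 3) + 2262678537 * T 9 ((q : ℤ) - 4) + 540372456 * T 9 ((q : ℤ) - 5) - 171702162 * T 9 ((q : ℤ) - 6) - 7290080 * T 9 ((q : ℤ) - 7) + 10399 * T 9 ((q : ℤ) - 8)), by rw [show e9 2 = 5 from rfl]; ring⟩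
      · rw [D9_3_5 q, ha]; exact ⟨a + ((-35573) * T 9 (q : ℤ) - 66390434 * T 9 ((q : ℤ) - 1) + 1484557164 * T 9 ((q : ℤ) - 2) + 11043663678 * T 9 ((q : ℤ) - 3) + 841097847 * T 9 ((q : ℤ) - 4) - 10299153942 * T 9 ((q : ℤ) - 5) - 1486949184 * T 9 ((q : ℤ) - 6) + 56258874 * T 9 ((q : ℤ) - 7) + 28561 * T 9 ((q : ℤ) - 8)), by rw [show e9 3 = 8 from rfl]; ring⟩
      · rw [D9_4_5 q, ha]; exact ⟨a + (2292754 * T 9 (q : ℤ) - 1340600808 * T 9 ((q : ℤ) - 1) - 27265899438 * T 9 ((q : ℤ) - 2) + 94310736912 * T 9 ((q : ℤ) - 3) + 353092693899 * T 9 ((q : ℤ) - 4) + 84967722360 * T 9 ((q : ℤ) - 5) - 27503921430 * T 9 ((q : ℤ) - 6) - 1232922080 * T 9 ((q : ℤ) - 7) + 1974118 * T 9 ((q : ℤ) - 8)), by rw [show e9 4 = 10 from rfl]; ring⟩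
      · rw [D9_5_5 q, ha]; exact ⟨a + ((-3270542) * T 9 (q : ℤ) - 10089529310 * T 9 ((q : ℤ) - 1) + 218952096012 * T 9 ((q : ℤ) - 2) + 1671629235426 * T 9 ((q : ℤ) - 3) + 100022549997 * T 9 ((q : ℤ) - 4) - 1607800159530 * T 9 ((q : ℤ) - 5) - 229225694184 * T 9 ((q : ℤ) - 6) + 9191740518 * T 9 ((q : ℤ) - 7) + 3807292 * T 9 ((q : ℤ) - 8)), by rw [show e9 5 = 13 from rfl]; ring⟩
      · rw [D9_6_5 q, ha]; exact ⟨a + (330151153 * T 9 (q : ℤ) - 206173500888 * T 9 ((q : ℤ) - 1) - 4106581112322 * T 9 ((q : ℤ) - 2) + 14767187287536 * T 9 ((q : ℤ) - 3) + 54613065883629 * T 9 ((q : ℤ) - 4) + 13167280937160 * T 9 ((q : ℤ) - 5) - 4282395159258 * T 9 ((q : ℤ) - 6) - 194575824032 * T 9 ((q : ℤ) - 7) + 319569853 * T 9 ((q : ℤ) - 8)), by rw [show e9 6 = 15 from rfl]; ring⟩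
      · rw [D9_7_5 q, ha]; exact ⟨a + ((-418242623) * T 9 (q : ℤ) - 1549463132642 * T 9 ((q : ℤ) - 1) + 33363376853508 * T 9 ((q : ℤ) - 2) + 256501834441758 * T 9 ((q : ℤ) - 3) + 14237164871211 * T 9 ((q : ℤ) - 4) - 248698219303062 * T 9 ((q : ℤ) - 5) - 35341013247048 * T 9 ((q : ℤ) - 6) + 1438207031322 * T 9 ((q : ℤ) - 7) + 561062551 * T 9 ((q : ℤ) - 8)), by rw [show e9 7 = 18 from rfl]; ring⟩
    · obtain ⟨u, rfl⟩ := Nat.exists_eq_add_of_le' hv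
      obtain ⟨a0, h0⟩ := ih u (by omega)
      obtain ⟨a2, h2⟩ := ih (u + 2) (by omega)
      obtain ⟨a4, h4⟩ := ih (u + 4) (by omega)
      obtain ⟨a6, h6⟩ := ih (u + 6) (by omega)
      rw [S9_ch_5 u q, h0, h2, h4, h6, e9_2 u, e9_4 u, e9_6 u, e9_8 u]
      exact ⟨205 * a6 - 8274 * a4 + 68224 * a2 - 65536 * a0 + (-2691), by ring⟩

theorem main9_6 (q v : ℕ) : ∃ a : ℤ, S9 v (q : ℤ) 6 = 2 ^ e9 v * (2 * a + 1) := by
  obtain ⟨a, ha⟩ := odd9 q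
  induction v using Nat.strong_induction_on with
  | _ v ih =>
    rcases Nat.lt_or_ge v 8 with hv | hv
    · interval_cases v
      · rw [D9_0_6 q, ha]; exact ⟨a + ((-41) * T 9 (q : ℤ) - 52992 * T 9 ((q : ℤ) - 1) + 1974222 * T 9 ((q : ℤ) - 2) + 7131272 * T 9 ((q : ℤ) - 3) - 4850343 * T 9 ((q : ℤ) - 4) - 6952176 * T 9 ((q : ℤ) - 5) - 250938 * T 9 ((q : ℤ) - 6) + 35496 * T 9 ((q : ℤ) - 7) - 5 * T 9 ((q : ℤ) - 8)), by rw [show e9 0 = 0 from rfl]; ring⟩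
      · rw [D9_1_6 q, ha]; exact ⟨a + (1894 * T 9 (q : ℤ) - 323838 * T 9 ((q : ℤ) - 1) - 16722084 * T 9 ((q : ℤ) - 2) - 10088766 * T 9 ((q : ℤ) - 3) + 109369989 * T 9 ((q : ℤ) - 4) + 61063542 * T 9 ((q : ℤ) - 5) - 2338776 * T 9 ((q : ℤ) - 6) - 469242 * T 9 ((q : ℤ) - 7) + 80 * T 9 ((q : ℤ) - 8)), by rw [show e9 1 = 3 from rfl]; ring⟩
      · rw [D9_2_6 q, ha]; exact ⟨a + ((-11999) * T 9 (q : ℤ) - 3169728 * T 9 ((q : ℤ) - 1) + 249085782 * T 9 ((q : ℤ) - 2) + 862171752 * T 9 ((q : ℤ) - 3) - 990599931 * T 9 ((q : ℤ) - 4) - 1259729136 * T 9 ((q : ℤ) - 5) - 53979218 * T 9 ((q : ℤ) - 6) + 8838792 * T 9 ((q : ℤ) - 7) - 3947 * T 9 ((q : ℤ) - 8)), by rw [show e9 2 = 5 from rfl]; ring⟩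
      · rw [D9_3_6 q, ha]; exact ⟨a + (150376 * T 9 (q : ℤ) - 37463346 * T 9 ((q : ℤ) - 1) - 2158231632 * T 9 ((q : ℤ) - 2) - 763723746 * T 9 ((q : ℤ) - 3) + 17374643037 * T 9 ((q : ℤ) - 4) + 9479108762 * T 9 ((q : ℤ) - 5) - 582122700 * T 9 ((q : ℤ) - 6) - 88322886 * T 9 ((q : ℤ) - 7) + 69142 * T 9 ((q : ℤ) - 8)), by rw [show e9 3 = 8 from rfl]; ring⟩
      · rw [D9_4_6 q, ha]; exact ⟨a + ((-1472308) * T 9 (q : ℤ) - 377631936 * T 9 ((q : ℤ) - 1) + 35737374690 * T 9 ((q : ℤ) - 2) + 122838176184 * T 9 ((q : ℤ) - 3) - 163089809793 * T 9 ((q : ℤ) - 4) - 202009865040 * T 9 ((q : ℤ) - 5) - 8988653334 * T 9 ((q : ℤ) - 6) + 1517299992 * T 9 ((q : ℤ) - 7) - 670424 * T 9 ((q : ℤ) - 8)), by rw [show e9 4 = 10 from rfl]; ring⟩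
      · rw [D9_5_6 q, ha]; exact ⟨a + (18836185 * T 9 (q : ℤ) - 5469978798 * T 9 ((q : ℤ) - 1) - 316999346312 * T 9 ((q : ℤ) - 2) - 87494532894 * T 9 ((q : ℤ) - 3) + 2697669703647 * T 9 ((q : ℤ) - 4) + 1463195287686 * T 9 ((q : ℤ) - 5) - 99074149164 * T 9 ((q : ℤ) - 6) - 14276488698 * T 9 ((q : ℤ) - 7) + 13508155 * T 9 ((q : ℤ) - 8)), by rw [show e9 5 = 13 from rfl]; ring⟩
      · rw [D9_6_6 q, ha]; exact ⟨a + ((-206359097) * T 9 (q : ℤ) - 54633674304 * T 9 ((q : ℤ) - 1) + 5398981091694 * T 9 ((q : ℤ) - 2) + 18529821024008 * T 9 ((q : ℤ) - 3) - 25567936547175 * T 9 ((q : ℤ) - 4) - 31462101883440 * T 9 ((q : ℤ) - 5) - 1413166732122 * T 9 ((q : ℤ) - 6) + 240336012456 * T 9 ((q : ℤ) - 7) - 105090485 * T 9 ((q : ℤ) - 8)), by rw [show e9 6 = 15 from rfl]; ring⟩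
      · rw [D9_7_6 q, ha]; exact ⟨a + (2742914290 * T 9 (q : ℤ) - 832980257874 * T 9 ((q : ℤ) - 1) - 48255755162952 * T 9 ((q : ℤ) - 2) - 12291279241122 * T 9 ((q : ℤ) - 3) + 416687108079177 * T 9 ((q : ℤ) - 4) + 225666667028730 * T 9 ((q : ℤ) - 5) - 15654152131812 * T 9 ((q : ℤ) - 6) - 2227859465670 * T 9 ((q : ℤ) - 7) + 2202578864 * T 9 ((q : ℤ) - 8)), by rw [show e9 7 = 18 from rfl]; ring⟩
    · obtain ⟨u, rfl⟩ := Nat.exists_eq_add_of_le' hv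
      obtain ⟨a0, h0⟩ := ih u (by omega)
      obtain ⟨a2, h2⟩ := ih (u + 2) (by omega)
      obtain ⟨a4, h4⟩ := ih (u + 4) (by omega)
      obtain ⟨a6, h6⟩ := ih (u + 6) (by omega)
      rw [S9_ch_6 u q, h0, h2, h4, h6, e9_2 u, e9_4 u, e9_6 u, e9_8 u]
      exact ⟨205 * a6 - 8274 * a4 + 68224 * a2 - 65536 * a0 + (-2691), by ring⟩

theorem main9_7 (q v : ℕ) : ∃ a : ℤ, S9 v (q : ℤ) 7 = 2 ^ e9 v * (2 * a + 1) := by
  obtain ⟨a, ha⟩ := odd9 q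
  induction v using Nat.strong_induction_on with
  | _ v ih =>
    rcases Nat.lt_or_ge v 8 with hv | hv
    · interval_cases v
      · rw [D9_0_7 q, ha]; exact ⟨a + ((-572) * T 9 (q : ℤ) + 153792 * T 9 ((q : ℤ) - 1) + 95202 * T 9 ((q : ℤ) - 2) - 9619848 * T 9 ((q : ℤ) - 3) - 9186705 * T 9 ((q : ℤ) - 4) + 3200688 * T 9 ((q : ℤ) - 5) + 899370 * T 9 ((q : ℤ) - 6) - 9000 * T 9 ((q : ℤ) - 7)), by rw [show e9 0 = 0 from rfl]; ring⟩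
      · rw [D9_1_7 q, ha]; exact ⟨a + ((-1595) * T 9 (q : ℤ) + 919566 * T 9 ((q : ℤ) - 1) + 5251428 * T 9 ((q : ℤ) - 2) - 70327602 * T 9 ((q : ℤ) - 3) - 124198605 * T 9 ((q : ℤ) - 4) - 2246598 * T 9 ((q : ℤ) - 5) + 10703992 * T 9 ((q : ℤ) - 6) + 216234 * T 9 ((q : ℤ) - 7) - 149 * T 9 ((q : ℤ) - 8)), by rw [show e9 1 = 3 from rfl]; ring⟩
      · rw [D9_2_7 q, ha]; exact ⟨a + ((-12038) * T 9 (q : ℤ) + 12824064 * T 9 ((q : ℤ) - 1) - 43637286 * T 9 ((q : ℤ) - 2) - 1428202728 * T 9 ((q : ℤ) - 3) - 1283701437 * T 9 ((q : ℤ) - 4) + 690883120 * T 9 ((q : ℤ) - 5) + 211065282 * T 9 ((q : ℤ) - 6) - 1809288 * T 9 ((q : ℤ) - 7) - 3482 * T 9 ((q : ℤ) - 8)), by rw [show e9 2 = 5 from rfl]; ring⟩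
      · rw [D9_3_7 q, ha]; exact ⟨a + ((-117517) * T 9 (q : ℤ) + 107401122 * T 9 ((q : ℤ) - 1) + 650469168 * T 9 ((q : ℤ) - 2) - 10435369134 * T 9 ((q : ℤ) - 3) - 18363313701 * T 9 ((q : ℤ) - 4) + 642034998 * T 9 ((q : ℤ) - 5) + 2014391628 * T 9 ((q : ℤ) - 6) + 33579414 * T 9 ((q : ℤ) - 7) - 88331 * T 9 ((q : ℤ) - 8)), by rw [show e9 3 = 8 from rfl]; ring⟩
      · rw [D9_4_7 q, ha]; exact ⟨a + ((-973913) * T 9 (q : ℤ) + 1743198336 * T 9 ((q : ℤ) - 1) - 7929329362 * T 9 ((q : ℤ) - 2) - 216453382200 * T 9 ((q : ℤ) - 3) - 190740799719 * T 9 ((q : ℤ) - 4) + 115366384656 * T 9 ((q : ℤ) - 5) + 35839695078 * T 9 ((q : ℤ) - 6) - 292383000 * T 9 ((q : ℤ) - 7) - 1157141 * T 9 ((q : ℤ) - 8)), by rw [show e9 4 = 10 from rfl]; ring⟩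
      · rw [D9_5_7 q, ha]; exact ⟨a + ((-15501638) * T 9 (q : ℤ) + 15658930494 * T 9 ((q : ℤ) - 1) + 96334007400 * T 9 ((q : ℤ) - 2) - 1589464274002 * T 9 ((q : ℤ) - 3) - 2796394722039 * T 9 ((q : ℤ) - 4) + 140144260266 * T 9 ((q : ℤ) - 5) + 325646642796 * T 9 ((q : ℤ) - 6) + 5117992362 * T 9 ((q : ℤ) - 7) - 16879064 * T 9 ((q : ℤ) - 8)), by rw [show e9 5 = 13 from rfl]; ring⟩
      · rw [D9_6_7 q, ha]; exact ⟨a + ((-129606620) * T 9 (q : ℤ) + 261420794496 * T 9 ((q : ℤ) - 1) - 1259754569982 * T 9 ((q : ℤ) - 2) - 33209089846920 * T 9 ((q : ℤ) - 3) - 29103884065521 * T 9 ((q : ℤ) - 4) + 18151935788400 * T 9 ((q : ℤ) - 5) + 5662113655050 * T 9 ((q : ℤ) - 6) - 45582482088 * T 9 ((q : ℤ) - 7) - 208373760 * T 9 ((q : ℤ) - 8)), by rw [show e9 6 = 15 from rfl]; ring⟩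
      · rw [D9_7_7 q, ha]; exact ⟨a + ((-2313894119) * T 9 (q : ℤ) + 2382834360258 * T 9 ((q : ℤ) - 1) + 14718070901736 * T 9 ((q : ℤ) - 2) - 244265461426926 * T 9 ((q : ℤ) - 3) - 429739033317489 * T 9 ((q : ℤ) - 4) + 23273768735190 * T 9 ((q : ℤ) - 5) + 50819543094820 * T 9 ((q : ℤ) - 6) + 786082297878 * T 9 ((q : ℤ) - 7) - 2739492725 * T 9 ((q : ℤ) - 8)), by rw [show e9 7 = 18 from rfl]; ring⟩
    · obtain ⟨u, rfl⟩ := Nat.exists_eq_add_of_le' hv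
      obtain ⟨a0, h0⟩ := ih u (by omega)
      obtain ⟨a2, h2⟩ := ih (u + 2) (by omega)
      obtain ⟨a4, h4⟩ := ih (u + 4) (by omega)
      obtain ⟨a6, h6⟩ := ih (u + 6) (by omega)
      rw [S9_ch_7 u q, h0, h2, h4, h6, e9_2 u, e9_4 u, e9_6 u, e9_8 u]
      exact ⟨205 * a6 - 8274 * a4 + 68224 * a2 - 65536 * a0 + (-2691), by ring⟩

end Pool.Agent.U890.TM
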