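import Pool.Agent.U890.TM.Block5

/-!
# The 5-th power of the Thue-Morse product: the base cases and the induction
-/

set_option autoImplicit false

namespace Pool.Agent.U890.TM

open Finset

theorem B5_1_0 (q : ℤ) : T 5 (2 * q) = T 5 q + 10 * T 5 (q - 1) + 5 * T 5 (q - 2) := by
  have e := T5_even q
  rw [show (2 * q) = 2 * q by ring, e]
  try ring

theorem B5_1_n1 (q : ℤ) : T 5 (2 * q - 1) = (-5) * T 5 (q - 1) - 10 * T 5 (q - 2) - T 5 (q - 3) := by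
  have e := T5_odd (q - 1)
  rw [show (2 * q - 1) = 2 * (q - 1) + 1 by ring, e]
  rw [show (q - 1) - 1 = (q - 2) by ring,
    show (q - 1) - 2 = (q - 3) by ring]
  try ring

theorem B5_1_n2 (q : ℤ) : T 5 (2 * q - 2) = T 5 (q - 1) + 10 * T 5 (q - 2) + 5 * T 5 (q - 3) := by
  have e := T5_even (q - 1)
  rw [show (2 * q - 2) = 2 * (q - 1) by ring, e]
  rw [show (q - 1) - 1 = (q - 2) by ring,
    show (q - 1) - 2 = (q - 3) by ring]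
  try ring

theorem B5_1_n3 (q : ℤ) : T 5 (2 * q - 3) = (-5) * T 5 (q - 2) - 10 * T 5 (q - 3) - T 5 (q - 4) := by
  have e := T5_odd (q - 2)
  rw [show (2 * q - 3) = 2 * (q - 2) + 1 by ring, e]
  rw [show (q - 2) - 1 = (q - 3) by ring,
    show (q - 2) - 2 = (q - 4) by ring]
  try ring

theorem B5_2_1 (q : ℤ) : T 5 (4 * q + 1) = (-5) * T 5 q - T 5 (q - 1) + 65 * T 5 (q - 2) + 5 * T 5 (q - 3) := by
  have e := T5_odd (2 * q)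
  rw [show (4 * q + 1) = 2 * (2 * q) + 1 by ring, e]
  rw [show (2 * q) - 1 = (2 * q - 1) by ring,
    show (2 * q) - 2 = (2 * q - 2) by ring]
  rw [B5_1_0 q, B5_1_n1 q, B5_1_n2 q]
  ring

theorem B5_2_0 (q : ℤ) : T 5 (4 * q) = T 5 q - 35 * T 5 (q - 1) - 45 * T 5 (q - 2) + 15 * T 5 (q - 3) := by
  have e := T5_even (2 * q)
  rw [show (4 * q) = 2 * (2 * q) by ring, e]
  rw [show (2 * q) - 1 = (2 * q - 1) by ring,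
    show (2 * q) - 2 = (2 * q - 2) by ring]
  rw [B5_1_0 q, B5_1_n1 q, B5_1_n2 q]
  ring

theorem B5_2_n1 (q : ℤ) : T 5 (4 * q - 1) = 15 * T 5 (q - 1) - 45 * T 5 (q - 2) - 35 * T 5 (q - 3) + T 5 (q - 4) := by
  have e := T5_odd (2 * q - 1)
  rw [show (4 * q - 1) = 2 * (2 * q - 1) + 1 by ring, e]
  rw [show (2 * q - 1) - 1 = (2 * q - 2) by ring,
    show (2 * q - 1) - 2 = (2 * q - 3) by ring]
  rw [B5_1_n1 q, B5_1_n2 q, B5_1_n3 q]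
  ring

theorem B5_2_n2 (q : ℤ) : T 5 (4 * q - 2) = 5 * T 5 (q - 1) + 65 * T 5 (q - 2) - T 5 (q - 3) - 5 * T 5 (q - 4) := by
  have e := T5_even (2 * q - 1)
  rw [show (4 * q - 2) = 2 * (2 * q - 1) by ring, e]
  rw [show (2 * q - 1) - 1 = (2 * q - 2) by ring,
    show (2 * q - 1) - 2 = (2 * q - 3) by ring]
  rw [B5_1_n1 q, B5_1_n2 q, B5_1_n3 q]
  ring

theorem B5_3_3 (q : ℤ) : T 5 (8 * q + 3) = 15 * T 5 q + 340 * T 5 (q - 1) + 170 * T 5 (q - 2) - 140 * T 5 (q - 3) - T 5 (q - 4) := by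
  have e := T5_odd (4 * q + 1)
  rw [show (8 * q + 3) = 2 * (4 * q + 1) + 1 by ring, e]
  rw [show (4 * q + 1) - 1 = (4 * q) by ring,
    show (4 * q + 1) - 2 = (4 * q - 1) by ring]
  rw [B5_2_1 q, B5_2_0 q, B5_2_n1 q]
  ring

theorem B5_3_2 (q : ℤ) : T 5 (8 * q + 2) = 5 * T 5 q - 276 * T 5 (q - 1) - 610 * T 5 (q - 2) - 20 * T 5 (q - 3) + 5 * T 5 (q - 4) := by
  have e := T5_even (4 * q + 1)
  rw [show (8 * q + 2) = 2 * (4 * q + 1) by ring, e]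
  rw [show (4 * q + 1) - 1 = (4 * q) by ring,
    show (4 * q + 1) - 2 = (4 * q - 1) by ring]
  rw [B5_2_1 q, B5_2_0 q, B5_2_n1 q]
  ring

theorem B5_3_1 (q : ℤ) : T 5 (8 * q + 1) = (-5) * T 5 q + 20 * T 5 (q - 1) + 610 * T 5 (q - 2) + 276 * T 5 (q - 3) - 5 * T 5 (q - 4) := by
  have e := T5_odd (4 * q)
  rw [show (8 * q + 1) = 2 * (4 * q) + 1 by ring, e]
  rw [show (4 * q) - 1 = (4 * q - 1) by ring,
    show (4 * q) - 2 = (4 * q - 2) by ring]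
  rw [B5_2_0 q, B5_2_n1 q, B5_2_n2 q]
  ring

theorem B5_3_0 (q : ℤ) : T 5 (8 * q) = T 5 q + 140 * T 5 (q - 1) - 170 * T 5 (q - 2) - 340 * T 5 (q - 3) - 15 * T 5 (q - 4) := by
  have e := T5_even (4 * q)
  rw [show (8 * q) = 2 * (4 * q) by ring, e]
  rw [show (4 * q) - 1 = (4 * q - 1) by ring,
    show (4 * q) - 2 = (4 * q - 2) by ring]
  rw [B5_2_0 q, B5_2_n1 q, B5_2_n2 q]
  ring

theorem D5_0_0 (q : ℤ) : S5 0 q 0 = 1 * (T 5 q + T 5 (q - 4) + 2 * (70 * T 5 (q - 1) - 85 * T 5 (q - 2) - 170 * T 5 (q - 3) - 8 * T 5 (q - 4))) := by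
  unfold S5
  rw [show (4 * (2 ^ 0 * (2 * q + 1) - 1) + 0 : ℤ) = (8 * q) by ring, B5_3_0 q]
  ring

theorem D5_0_1 (q : ℤ) : S5 0 q 1 = 1 * (T 5 q + T 5 (q - 4) + 2 * ((-3) * T 5 q + 10 * T 5 (q - 1) + 305 * T 5 (q - 2) + 138 * T 5 (q - 3) - 3 * T 5 (q - 4))) := by
  unfold S5
  rw [show (4 * (2 ^ 0 * (2 * q + 1) - 1) + 1 : ℤ) = (8 * q + 1) by ring, B5_3_1 q]
  ring

theorem D5_0_2 (q : ℤ) : S5 0 q 2 = 1 * (T 5 q + T 5 (q - 4) + 2 * (2 * T 5 q - 138 * T 5 (q - 1) - 305 * T 5 (q - 2) - 10 * T 5 (q - 3) + 2 * T 5 (q - 4))) := by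
  unfold S5
  rw [show (4 * (2 ^ 0 * (2 * q + 1) - 1) + 2 : ℤ) = (8 * q + 2) by ring, B5_3_2 q]
  ring

theorem D5_0_3 (q : ℤ) : S5 0 q 3 = 1 * (T 5 q + T 5 (q - 4) + 2 * (7 * T 5 q + 170 * T 5 (q - 1) + 85 * T 5 (q - 2) - 70 * T 5 (q - 3) - T 5 (q - 4))) := by
  unfold S5
  rw [show (4 * (2 ^ 0 * (2 * q + 1) - 1) + 3 : ℤ) = (8 * q + 3) by ring, B5_3_3 q]
  ring

theorem D5_1_0 (q : ℤ) : S5 1 q 0 = 8 * (T 5 q + T 5 (q - 4) + 2 * ((-3) * T 5 q + 39 * T 5 (q - 1) + 290 * T 5 (q - 2) + 65 * T 5 (q - 3) - 8 * T 5 (q - 4))) := by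
  rw [S5_1_0 0 q, D5_0_0 q, D5_0_1 q, D5_0_2 q]
  ring

theorem D5_1_1 (q : ℤ) : S5 1 q 1 = 8 * (T 5 q + T 5 (q - 4) + 2 * (T 5 q + 65 * T 5 (q - 1) - 180 * T 5 (q - 2) - 145 * T 5 (q - 3) + 2 * T 5 (q - 4))) := by
  rw [S5_1_1 0 q, D5_0_0 q, D5_0_1 q, D5_0_2 q]
  ring

theorem D5_1_2 (q : ℤ) : S5 1 q 2 = 8 * (T 5 q + T 5 (q - 4) + 2 * (2 * T 5 q - 145 * T 5 (q - 1) - 180 * T 5 (q - 2) + 65 * T 5 (q - 3) + T 5 (q - 4))) := by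
  rw [S5_1_2 0 q, D5_0_1 q, D5_0_2 q, D5_0_3 q]
  ring

theorem D5_1_3 (q : ℤ) : S5 1 q 3 = 8 * (T 5 q + T 5 (q - 4) + 2 * ((-8) * T 5 q + 65 * T 5 (q - 1) + 290 * T 5 (q - 2) + 39 * T 5 (q - 3) - 3 * T 5 (q - 4))) := by
  rw [S5_1_3 0 q, D5_0_1 q, D5_0_2 q, D5_0_3 q]
  ring

theorem D5_2_0 (q : ℤ) : S5 2 q 0 = 16 * (T 5 q + T 5 (q - 4) + 2 * (2 * T 5 q + 350 * T 5 (q - 1) - 265 * T 5 (q - 2) - 530 * T 5 (q - 3) - 6 * T 5 (q - 4))) := by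
  rw [S5_1_0 1 q, D5_1_0 q, D5_1_1 q, D5_1_2 q]
  ring

theorem D5_2_1 (q : ℤ) : S5 2 q 1 = 16 * (T 5 q + T 5 (q - 4) + 2 * ((-13) * T 5 q + 18 * T 5 (q - 1) + 1205 * T 5 (q - 2) + 530 * T 5 (q - 3) - 13 * T 5 (q - 4))) := by
  rw [S5_1_1 1 q, D5_1_0 q, D5_1_1 q, D5_1_2 q]
  ring

theorem D5_2_2 (q : ℤ) : S5 2 q 2 = 16 * (T 5 q + T 5 (q - 4) + 2 * (12 * T 5 q - 530 * T 5 (q - 1) - 1205 * T 5 (q - 2) - 18 * T 5 (q - 3) + 12 * T 5 (q - 4))) := by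
  rw [S5_1_2 1 q, D5_1_1 q, D5_1_2 q, D5_1_3 q]
  ring

theorem D5_2_3 (q : ℤ) : S5 2 q 3 = 16 * (T 5 q + T 5 (q - 4) + 2 * (5 * T 5 q + 530 * T 5 (q - 1) + 265 * T 5 (q - 2) - 350 * T 5 (q - 3) - 3 * T 5 (q - 4))) := by
  rw [S5_1_3 1 q, D5_1_1 q, D5_1_2 q, D5_1_3 q]
  ring

theorem D5_3_0 (q : ℤ) : S5 3 q 0 = 128 * (T 5 q + T 5 (q - 4) + 2 * ((-13) * T 5 q + 175 * T 5 (q - 1) + 1190 * T 5 (q - 2) + 329 * T 5 (q - 3) - 18 * T 5 (q - 4))) := by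
  rw [S5_1_0 2 q, D5_2_0 q, D5_2_1 q, D5_2_2 q]
  ring

theorem D5_3_1 (q : ℤ) : S5 3 q 1 = 128 * (T 5 q + T 5 (q - 4) + 2 * (7 * T 5 q + 265 * T 5 (q - 1) - 720 * T 5 (q - 2) - 585 * T 5 (q - 3) + 8 * T 5 (q - 4))) := by
  rw [S5_1_1 2 q, D5_2_0 q, D5_2_1 q, D5_2_2 q]
  ring

theorem D5_3_2 (q : ℤ) : S5 3 q 2 = 128 * (T 5 q + T 5 (q - 4) + 2 * (8 * T 5 q - 585 * T 5 (q - 1) - 720 * T 5 (q - 2) + 265 * T 5 (q - 3) + 7 * T 5 (q - 4))) := by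
  rw [S5_1_2 2 q, D5_2_1 q, D5_2_2 q, D5_2_3 q]
  ring

theorem D5_3_3 (q : ℤ) : S5 3 q 3 = 128 * (T 5 q + T 5 (q - 4) + 2 * ((-18) * T 5 q + 329 * T 5 (q - 1) + 1190 * T 5 (q - 2) + 175 * T 5 (q - 3) - 13 * T 5 (q - 4))) := by
  rw [S5_1_3 2 q, D5_2_1 q, D5_2_2 q, D5_2_3 q]
  ring

theorem odd5 (q : ℕ) : ∃ a : ℤ, T 5 (q : ℤ) + T 5 ((q : ℤ) - 4) = 2 * a + 1 := by
  have h1 := par5 (q : ℤ) (by omega)
  have h2 := par5 ((q : ℤ) - 4) (by omega)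
  have h3 : (T 5 (q : ℤ) + T 5 ((q : ℤ) - 4)) % 2 = 1 := by
    rw [Int.add_emod, h1, h2]
    split_ifs <;> first | rfl | (exfalso; omega)
  exact ⟨(T 5 (q : ℤ) + T 5 ((q : ℤ) - 4)) / 2, by omega⟩

/-- the exponent -/
def e5 (v : ℕ) : ℕ := (4 * ((v + 1) / 2) - v % 2)

theorem e5_2 (v : ℕ) : e5 (v + 2) = e5 v + 4 := by
  unfold e5
  have h1 : (v + 2 + 1) / 2 = (v + 1) / 2 + 1 := by omega
  have h2 : (v + 2) % 2 = v % 2 := by omega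
  have h3 : v % 2 ≤ (v + 1) / 2 := by omega
  rw [h1, h2]
  omega

theorem e5_4 (v : ℕ) : e5 (v + 4) = e5 v + 8 := by
  rw [show v + 4 = (v + 2) + 2 from rfl, e5_2, e5_2]

theorem main5_0 (q v : ℕ) : ∃ a : ℤ, S5 v (q : ℤ) 0 = 2 ^ e5 v * (2 * a + 1) := by
  obtain ⟨a, ha⟩ := odd5 q
  induction v using Nat.strong_induction_on with
  | _ v ih =>
    rcases Nat.lt_or_ge v 4 with hv | hv
    · interval_cases v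
      · rw [D5_0_0 q, ha]; exact ⟨a + (70 * T 5 ((q : ℤ) - 1) - 85 * T 5 ((q : ℤ) - 2) - 170 * T 5 ((q : ℤ) - 3) - 8 * T 5 ((q : ℤ) - 4)), by rw [show e5 0 = 0 from rfl]; ring⟩
      · rw [D5_1_0 q, ha]; exact ⟨a + ((-3) * T 5 (q : ℤ) + 39 * T 5 ((q : ℤ) - 1) + 290 * T 5 ((q : ℤ) - 2) + 65 * T 5 ((q : ℤ) - 3) - 8 * T 5 ((q : ℤ) - 4)), by rw [show e5 1 = 3 from rfl]; ring⟩
      · rw [D5_2_0 q, ha]; exact ⟨a + (2 * T 5 (q : ℤ) + 350 * T 5 ((q : ℤ) - 1) - 265 * T 5 ((q : ℤ) - 2) - 530 * T 5 ((q : ℤ) - 3) - 6 * T 5 ((q : ℤ) - 4)), by rw [show e5 2 = 4 from rfl]; ring⟩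
      · rw [D5_3_0 q, ha]; exact ⟨a + ((-13) * T 5 (q : ℤ) + 175 * T 5 ((q : ℤ) - 1) + 1190 * T 5 ((q : ℤ) - 2) + 329 * T 5 ((q : ℤ) - 3) - 18 * T 5 ((q : ℤ) - 4)), by rw [show e5 3 = 7 from rfl]; ring⟩
    · obtain ⟨u, rfl⟩ := Nat.exists_eq_add_of_le' hv
      obtain ⟨a0, h0⟩ := ih u (by omega)
      obtain ⟨a2, h2⟩ := ih (u + 2) (by omega)
      rw [S5_ch_0 u q, h0, h2, e5_2 u, e5_4 u]
      exact ⟨5 * a2 - 4 * a0, by ring⟩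

theorem main5_1 (q v : ℕ) : ∃ a : ℤ, S5 v (q : ℤ) 1 = 2 ^ e5 v * (2 * a + 1) := by
  obtain ⟨a, ha⟩ := odd5 q
  induction v using Nat.strong_induction_on with
  | _ v ih =>
    rcases Nat.lt_or_ge v 4 with hv | hv
    · interval_cases v
      · rw [D5_0_1 q, ha]; exact ⟨a + ((-3) * T 5 (q : ℤ) + 10 * T 5 ((q : ℤ) - 1) + 305 * T 5 ((q : ℤ) - 2) + 138 * T 5 ((q : ℤ) - 3) - 3 * T 5 ((q : ℤ) - 4)), by rw [show e5 0 = 0 from rfl]; ring⟩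
      · rw [D5_1_1 q, ha]; exact ⟨a + (T 5 (q : ℤ) + 65 * T 5 ((q : ℤ) - 1) - 180 * T 5 ((q : ℤ) - 2) - 145 * T 5 ((q : ℤ) - 3) + 2 * T 5 ((q : ℤ) - 4)), by rw [show e5 1 = 3 from rfl]; ring⟩
      · rw [D5_2_1 q, ha]; exact ⟨a + ((-13) * T 5 (q : ℤ) + 18 * T 5 ((q : ℤ) - 1) + 1205 * T 5 ((q : ℤ) - 2) + 530 * T 5 ((q : ℤ) - 3) - 13 * T 5 ((q : ℤ) - 4)), by rw [show e5 2 = 4 from rfl]; ring⟩
      · rw [D5_3_1 q, ha]; exact ⟨a + (7 * T 5 (q : ℤ) + 265 * T 5 ((q : ℤ) - 1) - 720 * T 5 ((q : ℤ) - 2) - 585 * T 5 ((q : ℤ) - 3) + 8 * T 5 ((q : ℤ) - 4)), by rw [show e5 3 = 7 from rfl]; ring⟩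
    · obtain ⟨u, rfl⟩ := Nat.exists_eq_add_of_le' hv
      obtain ⟨a0, h0⟩ := ih u (by omega)
      obtain ⟨a2, h2⟩ := ih (u + 2) (by omega)
      rw [S5_ch_1 u q, h0, h2, e5_2 u, e5_4 u]
      exact ⟨5 * a2 - 4 * a0, by ring⟩

theorem main5_2 (q v : ℕ) : ∃ a : ℤ, S5 v (q : ℤ) 2 = 2 ^ e5 v * (2 * a + 1) := by
  obtain ⟨a, ha⟩ := odd5 q
  induction v using Nat.strong_induction_on with
  | _ v ih =>
    rcases Nat.lt_or_ge v 4 with hv | hv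
    · interval_cases v
      · rw [D5_0_2 q, ha]; exact ⟨a + (2 * T 5 (q : ℤ) - 138 * T 5 ((q : ℤ) - 1) - 305 * T 5 ((q : ℤ) - 2) - 10 * T 5 ((q : ℤ) - 3) + 2 * T 5 ((q : ℤ) - 4)), by rw [show e5 0 = 0 from rfl]; ring⟩
      · rw [D5_1_2 q, ha]; exact ⟨a + (2 * T 5 (q : ℤ) - 145 * T 5 ((q : ℤ) - 1) - 180 * T 5 ((q : ℤ) - 2) + 65 * T 5 ((q : ℤ) - 3) + T 5 ((q : ℤ) - 4)), by rw [show e5 1 = 3 from rfl]; ring⟩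
      · rw [D5_2_2 q, ha]; exact ⟨a + (12 * T 5 (q : ℤ) - 530 * T 5 ((q : ℤ) - 1) - 1205 * T 5 ((q : ℤ) - 2) - 18 * T 5 ((q : ℤ) - 3) + 12 * T 5 ((q : ℤ) - 4)), by rw [show e5 2 = 4 from rfl]; ring⟩
      · rw [D5_3_2 q, ha]; exact ⟨a + (8 * T 5 (q : ℤ) - 585 * T 5 ((q : ℤ) - 1) - 720 * T 5 ((q : ℤ) - 2) + 265 * T 5 ((q : ℤ) - 3) + 7 * T 5 ((q : ℤ) - 4)), by rw [show e5 3 = 7 from rfl]; ring⟩
    · obtain ⟨u, rfl⟩ := Nat.exists_eq_add_of_le' hv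
      obtain ⟨a0, h0⟩ := ih u (by omega)
      obtain ⟨a2, h2⟩ := ih (u + 2) (by omega)
      rw [S5_ch_2 u q, h0, h2, e5_2 u, e5_4 u]
      exact ⟨5 * a2 - 4 * a0, by ring⟩

theorem main5_3 (q v : ℕ) : ∃ a : ℤ, S5 v (q : ℤ) 3 = 2 ^ e5 v * (2 * a + 1) := by
  obtain ⟨a, ha⟩ := odd5 q
  induction v using Nat.strong_induction_on with
  | _ v ih =>
    rcases Nat.lt_or_ge v 4 with hv | hv
    · interval_cases v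
      · rw [D5_0_3 q, ha]; exact ⟨a + (7 * T 5 (q : ℤ) + 170 * T 5 ((q : ℤ) - 1) + 85 * T 5 ((q : ℤ) - 2) - 70 * T 5 ((q : ℤ) - 3) - T 5 ((q : ℤ) - 4)), by rw [show e5 0 = 0 from rfl]; ring⟩
      · rw [D5_1_3 q, ha]; exact ⟨a + ((-8) * T 5 (q : ℤ) + 65 * T 5 ((q : ℤ) - 1) + 290 * T 5 ((q : ℤ) - 2) + 39 * T 5 ((q : ℤ) - 3) - 3 * T 5 ((q : ℤ) - 4)), by rw [show e5 1 = 3 from rfl]; ring⟩
      · rw [D5_2_3 q, ha]; exact ⟨a + (5 * T 5 (q : ℤ) + 530 * T 5 ((q : ℤ) - 1) + 265 * T 5 ((q : ℤ) - 2) - 350 * T 5 ((q : ℤ) - 3) - 3 * T 5 ((q : ℤ) - 4)), by rw [show e5 2 = 4 from rfl]; ring⟩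
      · rw [D5_3_3 q, ha]; exact ⟨a + ((-18) * T 5 (q : ℤ) + 329 * T 5 ((q : ℤ) - 1) + 1190 * T 5 ((q : ℤ) - 2) + 175 * T 5 ((q : ℤ) - 3) - 13 * T 5 ((q : ℤ) - 4)), by rw [show e5 3 = 7 from rfl]; ring⟩
    · obtain ⟨u, rfl⟩ := Nat.exists_eq_add_of_le' hv
      obtain ⟨a0, h0⟩ := ih u (by omega)
      obtain ⟨a2, h2⟩ := ih (u + 2) (by omega)
      rw [S5_ch_3 u q, h0, h2, e5_2 u, e5_4 u]
      exact ⟨5 * a2 - 4 * a0, by ring⟩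

end Pool.Agent.U890.TM
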