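import Mathlib

/-!
# Coefficients of powers of the Thue-Morse product: definition and recurrence

The definitions and the recurrence `c_succ` are those of
`Pool/Agent/Results/MP_1a5b88_nt/NotDetermined.lean`.
-/

set_option autoImplicit false

namespace Pool.Agent.U890.TM

open Finset Polynomial

/-- `t m n` is the coefficient of `x^n` in `∏_{i ≥ 0} (1 - x^(2^i))^m`.  The factors with `i > n`
do not contribute to this coefficient (as `2^i > n`), so the product may be cut at `i ≤ n`. -/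
noncomputable def t (m n : ℕ) : ℤ := (∏ i ∈ range (n + 1), (1 - (X : ℤ[X]) ^ (2 ^ i)) ^ m).coeff n

/-- the partial products -/
noncomputable def G (m N : ℕ) : ℤ[X] := ∏ i ∈ range N, (1 - (X : ℤ[X]) ^ (2 ^ i)) ^ m

theorem G_succ (m N : ℕ) : G m (N + 1) = (1 - X) ^ m * expand ℤ 2 (G m N) := by
  unfold G
  rw [prod_range_succ', mul_comm]
  congr 1
  · simp
  · rw [map_prod]
    refine prod_congr rfl fun i _ => ?_
    simp only [map_pow, map_sub, map_one, expand_X]
    rw [← pow_mul, pow_succ, mul_comm 2]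

theorem G_succ' (m N : ℕ) : G m (N + 1) = G m N * (1 - (X : ℤ[X]) ^ (2 ^ N)) ^ m := by
  unfold G
  rw [prod_range_succ]

/-- coefficients with an integer index -/
noncomputable def c (m N : ℕ) (z : ℤ) : ℤ := if z < 0 then 0 else (G m N).coeff z.toNat

theorem coeff_stable {m N n : ℕ} (h : n < 2 ^ N) : (G m (N + 1)).coeff n = (G m N).coeff n := by
  rw [G_succ']
  obtain ⟨Q, hQ⟩ : ∃ Q : ℤ[X], (1 - (X : ℤ[X]) ^ (2 ^ N)) ^ m = 1 + X ^ (2 ^ N) * Q := by
    have h1 : (X : ℤ[X]) ^ (2 ^ N) ∣ (1 - (X : ℤ[X]) ^ (2 ^ N)) ^ m - 1 := by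
      have := sub_dvd_pow_sub_pow (1 - (X : ℤ[X]) ^ (2 ^ N)) 1 m
      rw [one_pow] at this
      refine dvd_trans ⟨-1, by ring⟩ this
    obtain ⟨Q, hQ⟩ := h1
    exact ⟨Q, by linear_combination hQ⟩
  rw [hQ, mul_add, mul_one, coeff_add]
  have : (G m N * (X ^ (2 ^ N) * Q)).coeff n = 0 := by
    rw [show G m N * (X ^ (2 ^ N) * Q) = (G m N * Q) * X ^ (2 ^ N) by ring, coeff_mul_X_pow']
    rw [if_neg (by omega)]
  rw [this, add_zero]

theorem coeff_stable' {m N n : ℕ} (h : n < 2 ^ N) (M : ℕ) :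
    (G m (N + M)).coeff n = (G m N).coeff n := by
  induction M with
  | zero => rfl
  | succ M ih =>
    rw [← add_assoc, coeff_stable (lt_of_lt_of_le h (Nat.pow_le_pow_right (by norm_num) (by omega))),
      ih]

theorem t_eq {m N n : ℕ} (h : n < 2 ^ N) : t m n = c m N n := by
  have h2 : n < 2 ^ (n + 1) := lt_of_lt_of_le (Nat.lt_two_pow_self) (Nat.pow_le_pow_right (by norm_num) (by omega))
  have e1 : t m n = (G m (n + 1)).coeff n := rfl
  have e2 : c m N n = (G m N).coeff n := by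
    unfold c
    rw [if_neg (by omega)]
    simp
  rw [e1, e2]
  rcases le_total N (n + 1) with hle | hle
  · obtain ⟨M, hM⟩ := Nat.exists_eq_add_of_le hle
    rw [hM, coeff_stable' h]
  · obtain ⟨M, hM⟩ := Nat.exists_eq_add_of_le hle
    rw [hM, coeff_stable' h2]

theorem one_sub_X_pow (m : ℕ) :
    (1 - X : ℤ[X]) ^ m = ∑ j ∈ range (m + 1), C ((-1) ^ j * (m.choose j : ℤ)) * X ^ j := by
  rw [sub_eq_add_neg, add_comm, add_pow]
  refine sum_congr rfl fun j _ => ?_
  rw [neg_pow]
  simp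
  ring

theorem c_succ (m N : ℕ) (z : ℤ) :
    c m (N + 1) z = ∑ j ∈ range (m + 1), (-1) ^ j * (m.choose j : ℤ) *
      (if (z - j) % 2 = 0 then c m N ((z - j) / 2) else 0) := by
  unfold c
  split_ifs with hz
  · symm
    refine sum_eq_zero fun j _ => ?_
    have : (z - j) / 2 < 0 := by omega
    rw [if_pos this]
    simp
  · obtain ⟨n, rfl⟩ := Int.eq_ofNat_of_zero_le (not_lt.mp hz)
    simp only [Int.toNat_natCast]
    rw [G_succ, one_sub_X_pow, sum_mul, finsetSum_coeff]
    refine sum_congr rfl fun j _ => ?_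
    rw [mul_assoc, coeff_C_mul, coeff_X_pow_mul']
    congr 1
    by_cases hj : j ≤ n
    · rw [if_pos hj, coeff_expand (by norm_num)]
      by_cases h2 : 2 ∣ n - j
      · rw [if_pos h2, if_pos (by omega), if_neg (by omega)]
        congr 1
        omega
      · rw [if_neg h2, if_neg (by omega)]
    · rw [if_neg hj]
      split_ifs with h1 h2
      · rfl
      · exfalso; omega
      · rfl

/-- the coefficient sequence, extended by `0` to negative indices -/
noncomputable def T (m : ℕ) (z : ℤ) : ℤ := if z < 0 then 0 else t m z.toNat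

theorem T_nat (m n : ℕ) : T m (n : ℤ) = t m n := by
  unfold T
  rw [if_neg (by omega)]
  simp

theorem T_neg (m : ℕ) {z : ℤ} (h : z < 0) : T m z = 0 := by
  unfold T
  rw [if_pos h]

theorem T_eq_c {m N : ℕ} {z : ℤ} (h : z < 2 ^ N) : T m z = c m N z := by
  by_cases hz : z < 0
  · rw [T_neg m hz]
    unfold c
    rw [if_pos hz]
  · obtain ⟨n, rfl⟩ := Int.eq_ofNat_of_zero_le (not_lt.mp hz)
    rw [T_nat]
    exact t_eq (by exact_mod_cast h)

theorem T_rec (m : ℕ) (z : ℤ) :
    T m z = ∑ j ∈ range (m + 1), (-1) ^ j * (m.choose j : ℤ) *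
      (if (z - j) % 2 = 0 then T m ((z - j) / 2) else 0) := by
  obtain ⟨N, hN⟩ : ∃ N : ℕ, z < 2 ^ N := by
    refine ⟨z.toNat, ?_⟩
    have h1 : z.toNat < 2 ^ z.toNat := Nat.lt_two_pow_self
    have h2 : z ≤ (z.toNat : ℤ) := Int.self_le_toNat z
    exact lt_of_le_of_lt h2 (by exact_mod_cast h1)
  have hpos : (0 : ℤ) < 2 ^ N := by positivity
  rw [T_eq_c (N := N + 1) (by rw [pow_succ]; omega), c_succ]
  refine sum_congr rfl fun j _ => ?_
  congr 1
  split_ifs with h
  · rw [T_eq_c (N := N) (by omega)]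
  · rfl

theorem T_zero (m : ℕ) : T m 0 = 1 := by
  have := T_nat m 0
  rw [Nat.cast_zero] at this
  rw [this]
  unfold t
  simp [Polynomial.coeff_zero_eq_eval_zero]

end Pool.Agent.U890.TM
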