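import Pool.Agent.U890.TM.Basic

/-!
# The 5-th power of the Thue-Morse product: blocks of 4 coefficients
-/

set_option autoImplicit false

namespace Pool.Agent.U890.TM

open Finset

theorem T5_even (z : ℤ) : T 5 (2 * z) = T 5 z + 10 * T 5 (z - 1) + 5 * T 5 (z - 2) := by
  rw [T_rec]
  simp only [sum_range_succ, sum_range_zero]
  rw [if_pos (show (2 * z - ((0 : ℕ) : ℤ)) % 2 = 0 by omega),
    show (2 * z - ((0 : ℕ) : ℤ)) / 2 = z by omega,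
    if_neg (show ¬ (2 * z - ((1 : ℕ) : ℤ)) % 2 = 0 by omega),
    if_pos (show (2 * z - ((2 : ℕ) : ℤ)) % 2 = 0 by omega),
    show (2 * z - ((2 : ℕ) : ℤ)) / 2 = z - 1 by omega,
    if_neg (show ¬ (2 * z - ((3 : ℕ) : ℤ)) % 2 = 0 by omega),
    if_pos (show (2 * z - ((4 : ℕ) : ℤ)) % 2 = 0 by omega),
    show (2 * z - ((4 : ℕ) : ℤ)) / 2 = z - 2 by omega,
    if_neg (show ¬ (2 * z - ((5 : ℕ) : ℤ)) % 2 = 0 by omega)]
  norm_num [Nat.choose]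
  try ring

theorem T5_odd (z : ℤ) : T 5 (2 * z + 1) = (-5) * T 5 z - 10 * T 5 (z - 1) - T 5 (z - 2) := by
  rw [T_rec]
  simp only [sum_range_succ, sum_range_zero]
  rw [if_neg (show ¬ (2 * z + 1 - ((0 : ℕ) : ℤ)) % 2 = 0 by omega),
    if_pos (show (2 * z + 1 - ((1 : ℕ) : ℤ)) % 2 = 0 by omega),
    show (2 * z + 1 - ((1 : ℕ) : ℤ)) / 2 = z by omega,
    if_neg (show ¬ (2 * z + 1 - ((2 : ℕ) : ℤ)) % 2 = 0 by omega),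
    if_pos (show (2 * z + 1 - ((3 : ℕ) : ℤ)) % 2 = 0 by omega),
    show (2 * z + 1 - ((3 : ℕ) : ℤ)) / 2 = z - 1 by omega,
    if_neg (show ¬ (2 * z + 1 - ((4 : ℕ) : ℤ)) % 2 = 0 by omega),
    if_pos (show (2 * z + 1 - ((5 : ℕ) : ℤ)) % 2 = 0 by omega),
    show (2 * z + 1 - ((5 : ℕ) : ℤ)) / 2 = z - 2 by omega]
  norm_num [Nat.choose]
  try ring

theorem par5_nat (n : ℕ) : T 5 (n : ℤ) % 2 = if n % 8 < 4 then 1 else 0 := by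
  induction n using Nat.strong_induction_on with
  | _ n ih =>
    rcases Nat.eq_zero_or_pos n with rfl | hn
    · rw [Nat.cast_zero, T_zero]; norm_num
    · have key : ∀ z : ℤ, z < n → -4 ≤ z → T 5 z % 2 = if z % 8 < 4 then 1 else 0 := by
        intro z hz hz2
        by_cases h0 : z < 0
        · rw [T_neg 5 h0, if_neg (by omega)]; norm_num
        · obtain ⟨k, rfl⟩ := Int.eq_ofNat_of_zero_le (not_lt.mp h0)
          rw [ih k (by exact_mod_cast hz)]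
          split_ifs <;> first | rfl | (exfalso; omega)
      obtain ⟨k, hk | hk⟩ : ∃ k : ℕ, n = 2 * k ∨ n = 2 * k + 1 := ⟨n / 2, by omega⟩
      · have e := T5_even (k : ℤ)
        rw [show ((n : ℕ) : ℤ) = 2 * (k : ℤ) by omega, e]
        have h0 := key (k : ℤ) (by omega) (by omega)
        have h2 := key ((k : ℤ) - 2) (by omega) (by omega)
        split_ifs at * <;> omega
      · have e := T5_odd (k : ℤ)
        rw [show ((n : ℕ) : ℤ) = 2 * (k : ℤ) + 1 by omega, e]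
        have h0 := key (k : ℤ) (by omega) (by omega)
        have h2 := key ((k : ℤ) - 2) (by omega) (by omega)
        split_ifs at * <;> omega

theorem par5 (z : ℤ) (hz : -4 ≤ z) : T 5 z % 2 = if z % 8 < 4 then 1 else 0 := by
  by_cases h0 : z < 0
  · rw [T_neg 5 h0, if_neg (by omega)]; norm_num
  · obtain ⟨k, rfl⟩ := Int.eq_ofNat_of_zero_le (not_lt.mp h0)
    rw [par5_nat k]
    split_ifs <;> first | rfl | (exfalso; omega)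

/-- the block of 4 coefficients number `2 ^ v * (2 * q + 1) - 1` -/
noncomputable def S5 (v : ℕ) (q : ℤ) (j : ℤ) : ℤ := T 5 (4 * (2 ^ v * (2 * q + 1) - 1) + j)

theorem S5_1_0 (v : ℕ) (q : ℤ) : S5 (v + 1) q 0 = 5 * S5 v q 0 + 10 * S5 v q 1 + S5 v q 2 := by
  have e := T5_even (4 * (2 ^ v * (2 * q + 1) - 1) + 2)
  unfold S5
  rw [show (4 * (2 ^ (v + 1) * (2 * q + 1) - 1) + 0 : ℤ) = 2 * (4 * (2 ^ v * (2 * q + 1) - 1) + 2) by ring, e]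
  rw [show (4 * (2 ^ v * (2 * q + 1) - 1) + 2 - 1 : ℤ) = 4 * (2 ^ v * (2 * q + 1) - 1) + 1 by ring,
    show (4 * (2 ^ v * (2 * q + 1) - 1) + 2 - 2 : ℤ) = 4 * (2 ^ v * (2 * q + 1) - 1) + 0 by ring]
  ring

theorem S5_1_1 (v : ℕ) (q : ℤ) : S5 (v + 1) q 1 = (-1) * S5 v q 0 - 10 * S5 v q 1 - 5 * S5 v q 2 := by
  have e := T5_odd (4 * (2 ^ v * (2 * q + 1) - 1) + 2)
  unfold S5
  rw [show (4 * (2 ^ (v + 1) * (2 * q + 1) - 1) + 1 : ℤ) = 2 * (4 * (2 ^ v * (2 * q + 1) - 1) + 2) + 1 by ring, e]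
  rw [show (4 * (2 ^ v * (2 * q + 1) - 1) + 2 - 1 : ℤ) = 4 * (2 ^ v * (2 * q + 1) - 1) + 1 by ring,
    show (4 * (2 ^ v * (2 * q + 1) - 1) + 2 - 2 : ℤ) = 4 * (2 ^ v * (2 * q + 1) - 1) + 0 by ring]
  ring

theorem S5_1_2 (v : ℕ) (q : ℤ) : S5 (v + 1) q 2 = 5 * S5 v q 1 + 10 * S5 v q 2 + S5 v q 3 := by
  have e := T5_even (4 * (2 ^ v * (2 * q + 1) - 1) + 3)
  unfold S5
  rw [show (4 * (2 ^ (v + 1) * (2 * q + 1) - 1) + 2 : ℤ) = 2 * (4 * (2 ^ v * (2 * q + 1) - 1) + 3) by ring, e]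
  rw [show (4 * (2 ^ v * (2 * q + 1) - 1) + 3 - 1 : ℤ) = 4 * (2 ^ v * (2 * q + 1) - 1) + 2 by ring,
    show (4 * (2 ^ v * (2 * q + 1) - 1) + 3 - 2 : ℤ) = 4 * (2 ^ v * (2 * q + 1) - 1) + 1 by ring]
  ring

theorem S5_1_3 (v : ℕ) (q : ℤ) : S5 (v + 1) q 3 = (-1) * S5 v q 1 - 10 * S5 v q 2 - 5 * S5 v q 3 := by
  have e := T5_odd (4 * (2 ^ v * (2 * q + 1) - 1) + 3)
  unfold S5
  rw [show (4 * (2 ^ (v + 1) * (2 * q + 1) - 1) + 3 : ℤ) = 2 * (4 * (2 ^ v * (2 * q + 1) - 1) + 3) + 1 by ring, e]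
  rw [show (4 * (2 ^ v * (2 * q + 1) - 1) + 3 - 1 : ℤ) = 4 * (2 ^ v * (2 * q + 1) - 1) + 2 by ring,
    show (4 * (2 ^ v * (2 * q + 1) - 1) + 3 - 2 : ℤ) = 4 * (2 ^ v * (2 * q + 1) - 1) + 1 by ring]
  ring

theorem S5_2_0 (v : ℕ) (q : ℤ) : S5 (v + 2) q 0 = 15 * S5 v q 0 - 45 * S5 v q 1 - 35 * S5 v q 2 + S5 v q 3 := by
  rw [show v + 2 = (v + 1) + 1 from rfl, S5_1_0 (v + 1) q, S5_1_0 v q, S5_1_1 v q, S5_1_2 v q]
  ring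

theorem S5_2_1 (v : ℕ) (q : ℤ) : S5 (v + 2) q 1 = 5 * S5 v q 0 + 65 * S5 v q 1 - S5 v q 2 - 5 * S5 v q 3 := by
  rw [show v + 2 = (v + 1) + 1 from rfl, S5_1_1 (v + 1) q, S5_1_0 v q, S5_1_1 v q, S5_1_2 v q]
  ring

theorem S5_2_2 (v : ℕ) (q : ℤ) : S5 (v + 2) q 2 = (-5) * S5 v q 0 - S5 v q 1 + 65 * S5 v q 2 + 5 * S5 v q 3 := by
  rw [show v + 2 = (v + 1) + 1 from rfl, S5_1_2 (v + 1) q, S5_1_1 v q, S5_1_2 v q, S5_1_3 v q]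
  ring

theorem S5_2_3 (v : ℕ) (q : ℤ) : S5 (v + 2) q 3 = S5 v q 0 - 35 * S5 v q 1 - 45 * S5 v q 2 + 15 * S5 v q 3 := by
  rw [show v + 2 = (v + 1) + 1 from rfl, S5_1_3 (v + 1) q, S5_1_1 v q, S5_1_2 v q, S5_1_3 v q]
  ring

theorem S5_4_0 (v : ℕ) (q : ℤ) : S5 (v + 4) q 0 = 176 * S5 v q 0 - 3600 * S5 v q 1 - 2800 * S5 v q 2 + 80 * S5 v q 3 := by
  rw [show v + 4 = (v + 2) + 2 from rfl, S5_2_0 (v + 2) q, S5_2_0 v q, S5_2_1 v q, S5_2_2 v q, S5_2_3 v q]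
  ring

theorem S5_4_1 (v : ℕ) (q : ℤ) : S5 (v + 4) q 1 = 400 * S5 v q 0 + 4176 * S5 v q 1 - 80 * S5 v q 2 - 400 * S5 v q 3 := by
  rw [show v + 4 = (v + 2) + 2 from rfl, S5_2_1 (v + 2) q, S5_2_0 v q, S5_2_1 v q, S5_2_2 v q, S5_2_3 v q]
  ring

theorem S5_4_2 (v : ℕ) (q : ℤ) : S5 (v + 4) q 2 = (-400) * S5 v q 0 - 80 * S5 v q 1 + 4176 * S5 v q 2 + 400 * S5 v q 3 := by
  rw [show v + 4 = (v + 2) + 2 from rfl, S5_2_2 (v + 2) q, S5_2_0 v q, S5_2_1 v q, S5_2_2 v q, S5_2_3 v q]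
  ring

theorem S5_4_3 (v : ℕ) (q : ℤ) : S5 (v + 4) q 3 = 80 * S5 v q 0 - 2800 * S5 v q 1 - 3600 * S5 v q 2 + 176 * S5 v q 3 := by
  rw [show v + 4 = (v + 2) + 2 from rfl, S5_2_3 (v + 2) q, S5_2_0 v q, S5_2_1 v q, S5_2_2 v q, S5_2_3 v q]
  ring

theorem S5_ch_0 (v : ℕ) (q : ℤ) : S5 (v + 4) q 0 = 80 * S5 (v + 2) q 0 - 1024 * S5 v q 0 := by
  rw [S5_4_0 v q, S5_2_0 v q]
  ring

theorem S5_ch_1 (v : ℕ) (q : ℤ) : S5 (v + 4) q 1 = 80 * S5 (v + 2) q 1 - 1024 * S5 v q 1 := by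
  rw [S5_4_1 v q, S5_2_1 v q]
  ring

theorem S5_ch_2 (v : ℕ) (q : ℤ) : S5 (v + 4) q 2 = 80 * S5 (v + 2) q 2 - 1024 * S5 v q 2 := by
  rw [S5_4_2 v q, S5_2_2 v q]
  ring

theorem S5_ch_3 (v : ℕ) (q : ℤ) : S5 (v + 4) q 3 = 80 * S5 (v + 2) q 3 - 1024 * S5 v q 3 := by
  rw [S5_4_3 v q, S5_2_3 v q]
  ring

end Pool.Agent.U890.TM
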