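import Pool.Agent.U890.TM.Basic

/-!
# The 9-th power of the Thue-Morse product: blocks of 8 coefficients
-/

set_option autoImplicit false

namespace Pool.Agent.U890.TM

open Finset

theorem T9_even (z : ℤ) : T 9 (2 * z) = T 9 z + 36 * T 9 (z - 1) + 126 * T 9 (z - 2) + 84 * T 9 (z - 3) + 9 * T 9 (z - 4) := by
  rw [T_rec]
  simp only [sum_range_succ, sum_range_zero]
  rw [if_pos (show (2 * z - ((0 : ℕ) : ℤ)) % 2 = 0 by omega),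
    show (2 * z - ((0 : ℕ) : ℤ)) / 2 = z by omega,
    if_neg (show ¬ (2 * z - ((1 : ℕ) : ℤ)) % 2 = 0 by omega),
    if_pos (show (2 * z - ((2 : ℕ) : ℤ)) % 2 = 0 by omega),
    show (2 * z - ((2 : ℕ) : ℤ)) / 2 = z - 1 by omega,
    if_neg (show ¬ (2 * z - ((3 : ℕ) : ℤ)) % 2 = 0 by omega),
    if_pos (show (2 * z - ((4 : ℕ) : ℤ)) % 2 = 0 by omega),
    show (2 * z - ((4 : ℕ) : ℤ)) / 2 = z - 2 by omega,
    if_neg (show ¬ (2 * z - ((5 : ℕ) : ℤ)) % 2 = 0 by omega),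
    if_pos (show (2 * z - ((6 : ℕ) : ℤ)) % 2 = 0 by omega),
    show (2 * z - ((6 : ℕ) : ℤ)) / 2 = z - 3 by omega,
    if_neg (show ¬ (2 * z - ((7 : ℕ) : ℤ)) % 2 = 0 by omega),
    if_pos (show (2 * z - ((8 : ℕ) : ℤ)) % 2 = 0 by omega),
    show (2 * z - ((8 : ℕ) : ℤ)) / 2 = z - 4 by omega,
    if_neg (show ¬ (2 * z - ((9 : ℕ) : ℤ)) % 2 = 0 by omega)]
  norm_num [Nat.choose]
  try ring

theorem T9_odd (z : ℤ) : T 9 (2 * z + 1) = (-9) * T 9 z - 84 * T 9 (z - 1) - 126 * T 9 (z - 2) - 36 * T 9 (z - 3) - T 9 (z - 4) := by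
  rw [T_rec]
  simp only [sum_range_succ, sum_range_zero]
  rw [if_neg (show ¬ (2 * z + 1 - ((0 : ℕ) : ℤ)) % 2 = 0 by omega),
    if_pos (show (2 * z + 1 - ((1 : ℕ) : ℤ)) % 2 = 0 by omega),
    show (2 * z + 1 - ((1 : ℕ) : ℤ)) / 2 = z by omega,
    if_neg (show ¬ (2 * z + 1 - ((2 : ℕ) : ℤ)) % 2 = 0 by omega),
    if_pos (show (2 * z + 1 - ((3 : ℕ) : ℤ)) % 2 = 0 by omega),
    show (2 * z + 1 - ((3 : ℕ) : ℤ)) / 2 = z - 1 by omega,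
    if_neg (show ¬ (2 * z + 1 - ((4 : ℕ) : ℤ)) % 2 = 0 by omega),
    if_pos (show (2 * z + 1 - ((5 : ℕ) : ℤ)) % 2 = 0 by omega),
    show (2 * z + 1 - ((5 : ℕ) : ℤ)) / 2 = z - 2 by omega,
    if_neg (show ¬ (2 * z + 1 - ((6 : ℕ) : ℤ)) % 2 = 0 by omega),
    if_pos (show (2 * z + 1 - ((7 : ℕ) : ℤ)) % 2 = 0 by omega),
    show (2 * z + 1 - ((7 : ℕ) : ℤ)) / 2 = z - 3 by omega,
    if_neg (show ¬ (2 * z + 1 - ((8 : ℕ) : ℤ)) % 2 = 0 by omega),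
    if_pos (show (2 * z + 1 - ((9 : ℕ) : ℤ)) % 2 = 0 by omega),
    show (2 * z + 1 - ((9 : ℕ) : ℤ)) / 2 = z - 4 by omega]
  norm_num [Nat.choose]
  try ring

theorem par9_nat (n : ℕ) : T 9 (n : ℤ) % 2 = if n % 16 < 8 then 1 else 0 := by
  induction n using Nat.strong_induction_on with
  | _ n ih =>
    rcases Nat.eq_zero_or_pos n with rfl | hn
    · rw [Nat.cast_zero, T_zero]; norm_num
    · have key : ∀ z : ℤ, z < n → -8 ≤ z → T 9 z % 2 = if z % 16 < 8 then 1 else 0 := by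
        intro z hz hz2
        by_cases h0 : z < 0
        · rw [T_neg 9 h0, if_neg (by omega)]; norm_num
        · obtain ⟨k, rfl⟩ := Int.eq_ofNat_of_zero_le (not_lt.mp h0)
          rw [ih k (by exact_mod_cast hz)]
          split_ifs <;> first | rfl | (exfalso; omega)
      obtain ⟨k, hk | hk⟩ : ∃ k : ℕ, n = 2 * k ∨ n = 2 * k + 1 := ⟨n / 2, by omega⟩
      · have e := T9_even (k : ℤ)
        rw [show ((n : ℕ) : ℤ) = 2 * (k : ℤ) by omega, e]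
        have h0 := key (k : ℤ) (by omega) (by omega)
        have h4 := key ((k : ℤ) - 4) (by omega) (by omega)
        split_ifs at * <;> omega
      · have e := T9_odd (k : ℤ)
        rw [show ((n : ℕ) : ℤ) = 2 * (k : ℤ) + 1 by omega, e]
        have h0 := key (k : ℤ) (by omega) (by omega)
        have h4 := key ((k : ℤ) - 4) (by omega) (by omega)
        split_ifs at * <;> omega

theorem par9 (z : ℤ) (hz : -8 ≤ z) : T 9 z % 2 = if z % 16 < 8 then 1 else 0 := by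
  by_cases h0 : z < 0
  · rw [T_neg 9 h0, if_neg (by omega)]; norm_num
  · obtain ⟨k, rfl⟩ := Int.eq_ofNat_of_zero_le (not_lt.mp h0)
    rw [par9_nat k]
    split_ifs <;> first | rfl | (exfalso; omega)

/-- the block of 8 coefficients number `2 ^ v * (2 * q + 1) - 1` -/
noncomputable def S9 (v : ℕ) (q : ℤ) (j : ℤ) : ℤ := T 9 (8 * (2 ^ v * (2 * q + 1) - 1) + j)

theorem S9_1_0 (v : ℕ) (q : ℤ) : S9 (v + 1) q 0 = 9 * S9 v q 0 + 84 * S9 v q 1 + 126 * S9 v q 2 + 36 * S9 v q 3 + S9 v q 4 := by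
  have e := T9_even (8 * (2 ^ v * (2 * q + 1) - 1) + 4)
  unfold S9
  rw [show (8 * (2 ^ (v + 1) * (2 * q + 1) - 1) + 0 : ℤ) = 2 * (8 * (2 ^ v * (2 * q + 1) - 1) + 4) by ring, e]
  rw [show (8 * (2 ^ v * (2 * q + 1) - 1) + 4 - 1 : ℤ) = 8 * (2 ^ v * (2 * q + 1) - 1) + 3 by ring,
    show (8 * (2 ^ v * (2 * q + 1) - 1) + 4 - 2 : ℤ) = 8 * (2 ^ v * (2 * q + 1) - 1) + 2 by ring,
    show (8 * (2 ^ v * (2 * q + 1) - 1) + 4 - 3 : ℤ) = 8 * (2 ^ v * (2 * q + 1) - 1) + 1 by ring,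
    show (8 * (2 ^ v * (2 * q + 1) - 1) + 4 - 4 : ℤ) = 8 * (2 ^ v * (2 * q + 1) - 1) + 0 by ring]
  ring

theorem S9_1_1 (v : ℕ) (q : ℤ) : S9 (v + 1) q 1 = (-1) * S9 v q 0 - 36 * S9 v q 1 - 126 * S9 v q 2 - 84 * S9 v q 3 - 9 * S9 v q 4 := by
  have e := T9_odd (8 * (2 ^ v * (2 * q + 1) - 1) + 4)
  unfold S9
  rw [show (8 * (2 ^ (v + 1) * (2 * q + 1) - 1) + 1 : ℤ) = 2 * (8 * (2 ^ v * (2 * q + 1) - 1) + 4) + 1 by ring, e]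
  rw [show (8 * (2 ^ v * (2 * q + 1) - 1) + 4 - 1 : ℤ) = 8 * (2 ^ v * (2 * q + 1) - 1) + 3 by ring,
    show (8 * (2 ^ v * (2 * q + 1) - 1) + 4 - 2 : ℤ) = 8 * (2 ^ v * (2 * q + 1) - 1) + 2 by ring,
    show (8 * (2 ^ v * (2 * q + 1) - 1) + 4 - 3 : ℤ) = 8 * (2 ^ v * (2 * q + 1) - 1) + 1 by ring,
    show (8 * (2 ^ v * (2 * q + 1) - 1) + 4 - 4 : ℤ) = 8 * (2 ^ v * (2 * q + 1) - 1) + 0 by ring]
  ring

theorem S9_1_2 (v : ℕ) (q : ℤ) : S9 (v + 1) q 2 = 9 * S9 v q 1 + 84 * S9 v q 2 + 126 * S9 v q 3 + 36 * S9 v q 4 + S9 v q 5 := by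
  have e := T9_even (8 * (2 ^ v * (2 * q + 1) - 1) + 5)
  unfold S9
  rw [show (8 * (2 ^ (v + 1) * (2 * q + 1) - 1) + 2 : ℤ) = 2 * (8 * (2 ^ v * (2 * q + 1) - 1) + 5) by ring, e]
  rw [show (8 * (2 ^ v * (2 * q + 1) - 1) + 5 - 1 : ℤ) = 8 * (2 ^ v * (2 * q + 1) - 1) + 4 by ring,
    show (8 * (2 ^ v * (2 * q + 1) - 1) + 5 - 2 : ℤ) = 8 * (2 ^ v * (2 * q + 1) - 1) + 3 by ring,
    show (8 * (2 ^ v * (2 * q + 1) - 1) + 5 - 3 : ℤ) = 8 * (2 ^ v * (2 * q + 1) - 1) + 2 by ring,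
    show (8 * (2 ^ v * (2 * q + 1) - 1) + 5 - 4 : ℤ) = 8 * (2 ^ v * (2 * q + 1) - 1) + 1 by ring]
  ring

theorem S9_1_3 (v : ℕ) (q : ℤ) : S9 (v + 1) q 3 = (-1) * S9 v q 1 - 36 * S9 v q 2 - 126 * S9 v q 3 - 84 * S9 v q 4 - 9 * S9 v q 5 := by
  have e := T9_odd (8 * (2 ^ v * (2 * q + 1) - 1) + 5)
  unfold S9
  rw [show (8 * (2 ^ (v + 1) * (2 * q + 1) - 1) + 3 : ℤ) = 2 * (8 * (2 ^ v * (2 * q + 1) - 1) + 5) + 1 by ring, e]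
  rw [show (8 * (2 ^ v * (2 * q + 1) - 1) + 5 - 1 : ℤ) = 8 * (2 ^ v * (2 * q + 1) - 1) + 4 by ring,
    show (8 * (2 ^ v * (2 * q + 1) - 1) + 5 - 2 : ℤ) = 8 * (2 ^ v * (2 * q + 1) - 1) + 3 by ring,
    show (8 * (2 ^ v * (2 * q + 1) - 1) + 5 - 3 : ℤ) = 8 * (2 ^ v * (2 * q + 1) - 1) + 2 by ring,
    show (8 * (2 ^ v * (2 * q + 1) - 1) + 5 - 4 : ℤ) = 8 * (2 ^ v * (2 * q + 1) - 1) + 1 by ring]
  ring

theorem S9_1_4 (v : ℕ) (q : ℤ) : S9 (v + 1) q 4 = 9 * S9 v q 2 + 84 * S9 v q 3 + 126 * S9 v q 4 + 36 * S9 v q 5 + S9 v q 6 := by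
  have e := T9_even (8 * (2 ^ v * (2 * q + 1) - 1) + 6)
  unfold S9
  rw [show (8 * (2 ^ (v + 1) * (2 * q + 1) - 1) + 4 : ℤ) = 2 * (8 * (2 ^ v * (2 * q + 1) - 1) + 6) by ring, e]
  rw [show (8 * (2 ^ v * (2 * q + 1) - 1) + 6 - 1 : ℤ) = 8 * (2 ^ v * (2 * q + 1) - 1) + 5 by ring,
    show (8 * (2 ^ v * (2 * q + 1) - 1) + 6 - 2 : ℤ) = 8 * (2 ^ v * (2 * q + 1) - 1) + 4 by ring,
    show (8 * (2 ^ v * (2 * q + 1) - 1) + 6 - 3 : ℤ) = 8 * (2 ^ v * (2 * q + 1) - 1) + 3 by ring,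
    show (8 * (2 ^ v * (2 * q + 1) - 1) + 6 - 4 : ℤ) = 8 * (2 ^ v * (2 * q + 1) - 1) + 2 by ring]
  ring

theorem S9_1_5 (v : ℕ) (q : ℤ) : S9 (v + 1) q 5 = (-1) * S9 v q 2 - 36 * S9 v q 3 - 126 * S9 v q 4 - 84 * S9 v q 5 - 9 * S9 v q 6 := by
  have e := T9_odd (8 * (2 ^ v * (2 * q + 1) - 1) + 6)
  unfold S9
  rw [show (8 * (2 ^ (v + 1) * (2 * q + 1) - 1) + 5 : ℤ) = 2 * (8 * (2 ^ v * (2 * q + 1) - 1) + 6) + 1 by ring, e]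
  rw [show (8 * (2 ^ v * (2 * q + 1) - 1) + 6 - 1 : ℤ) = 8 * (2 ^ v * (2 * q + 1) - 1) + 5 by ring,
    show (8 * (2 ^ v * (2 * q + 1) - 1) + 6 - 2 : ℤ) = 8 * (2 ^ v * (2 * q + 1) - 1) + 4 by ring,
    show (8 * (2 ^ v * (2 * q + 1) - 1) + 6 - 3 : ℤ) = 8 * (2 ^ v * (2 * q + 1) - 1) + 3 by ring,
    show (8 * (2 ^ v * (2 * q + 1) - 1) + 6 - 4 : ℤ) = 8 * (2 ^ v * (2 * q + 1) - 1) + 2 by ring]
  ring

theorem S9_1_6 (v : ℕ) (q : ℤ) : S9 (v + 1) q 6 = 9 * S9 v q 3 + 84 * S9 v q 4 + 126 * S9 v q 5 + 36 * S9 v q 6 + S9 v q 7 := by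
  have e := T9_even (8 * (2 ^ v * (2 * q + 1) - 1) + 7)
  unfold S9
  rw [show (8 * (2 ^ (v + 1) * (2 * q + 1) - 1) + 6 : ℤ) = 2 * (8 * (2 ^ v * (2 * q + 1) - 1) + 7) by ring, e]
  rw [show (8 * (2 ^ v * (2 * q + 1) - 1) + 7 - 1 : ℤ) = 8 * (2 ^ v * (2 * q + 1) - 1) + 6 by ring,
    show (8 * (2 ^ v * (2 * q + 1) - 1) + 7 - 2 : ℤ) = 8 * (2 ^ v * (2 * q + 1) - 1) + 5 by ring,
    show (8 * (2 ^ v * (2 * q + 1) - 1) + 7 - 3 : ℤ) = 8 * (2 ^ v * (2 * q + 1) - 1) + 4 by ring,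
    show (8 * (2 ^ v * (2 * q + 1) - 1) + 7 - 4 : ℤ) = 8 * (2 ^ v * (2 * q + 1) - 1) + 3 by ring]
  ring

theorem S9_1_7 (v : ℕ) (q : ℤ) : S9 (v + 1) q 7 = (-1) * S9 v q 3 - 36 * S9 v q 4 - 126 * S9 v q 5 - 84 * S9 v q 6 - 9 * S9 v q 7 := by
  have e := T9_odd (8 * (2 ^ v * (2 * q + 1) - 1) + 7)
  unfold S9
  rw [show (8 * (2 ^ (v + 1) * (2 * q + 1) - 1) + 7 : ℤ) = 2 * (8 * (2 ^ v * (2 * q + 1) - 1) + 7) + 1 by ring, e]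
  rw [show (8 * (2 ^ v * (2 * q + 1) - 1) + 7 - 1 : ℤ) = 8 * (2 ^ v * (2 * q + 1) - 1) + 6 by ring,
    show (8 * (2 ^ v * (2 * q + 1) - 1) + 7 - 2 : ℤ) = 8 * (2 ^ v * (2 * q + 1) - 1) + 5 by ring,
    show (8 * (2 ^ v * (2 * q + 1) - 1) + 7 - 3 : ℤ) = 8 * (2 ^ v * (2 * q + 1) - 1) + 4 by ring,
    show (8 * (2 ^ v * (2 * q + 1) - 1) + 7 - 4 : ℤ) = 8 * (2 ^ v * (2 * q + 1) - 1) + 3 by ring]
  ring

theorem S9_2_0 (v : ℕ) (q : ℤ) : S9 (v + 2) q 0 = (-3) * S9 v q 0 - 1170 * S9 v q 1 - 153 * S9 v q 2 + 4692 * S9 v q 3 + 891 * S9 v q 4 - 162 * S9 v q 5 + S9 v q 6 := by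
  rw [show v + 2 = (v + 1) + 1 from rfl, S9_1_0 (v + 1) q, S9_1_0 v q, S9_1_1 v q, S9_1_2 v q, S9_1_3 v q, S9_1_4 v q]
  ring

theorem S9_2_1 (v : ℕ) (q : ℤ) : S9 (v + 2) q 1 = 27 * S9 v q 0 + 162 * S9 v q 1 - 3231 * S9 v q 2 - 3060 * S9 v q 3 + 1709 * S9 v q 4 + 306 * S9 v q 5 - 9 * S9 v q 6 := by
  rw [show v + 2 = (v + 1) + 1 from rfl, S9_1_1 (v + 1) q, S9_1_0 v q, S9_1_1 v q, S9_1_2 v q, S9_1_3 v q, S9_1_4 v q]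
  ring

theorem S9_2_2 (v : ℕ) (q : ℤ) : S9 (v + 2) q 2 = (-9) * S9 v q 0 + 306 * S9 v q 1 + 1709 * S9 v q 2 - 3060 * S9 v q 3 - 3231 * S9 v q 4 + 162 * S9 v q 5 + 27 * S9 v q 6 := by
  rw [show v + 2 = (v + 1) + 1 from rfl, S9_1_2 (v + 1) q, S9_1_1 v q, S9_1_2 v q, S9_1_3 v q, S9_1_4 v q, S9_1_5 v q]
  ring

theorem S9_2_3 (v : ℕ) (q : ℤ) : S9 (v + 2) q 3 = S9 v q 0 - 162 * S9 v q 1 + 891 * S9 v q 2 + 4692 * S9 v q 3 - 153 * S9 v q 4 - 1170 * S9 v q 5 - 3 * S9 v q 6 := by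
  rw [show v + 2 = (v + 1) + 1 from rfl, S9_1_3 (v + 1) q, S9_1_1 v q, S9_1_2 v q, S9_1_3 v q, S9_1_4 v q, S9_1_5 v q]
  ring

theorem S9_2_4 (v : ℕ) (q : ℤ) : S9 (v + 2) q 4 = (-3) * S9 v q 1 - 1170 * S9 v q 2 - 153 * S9 v q 3 + 4692 * S9 v q 4 + 891 * S9 v q 5 - 162 * S9 v q 6 + S9 v q 7 := by
  rw [show v + 2 = (v + 1) + 1 from rfl, S9_1_4 (v + 1) q, S9_1_2 v q, S9_1_3 v q, S9_1_4 v q, S9_1_5 v q, S9_1_6 v q]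
  ring

theorem S9_2_5 (v : ℕ) (q : ℤ) : S9 (v + 2) q 5 = 27 * S9 v q 1 + 162 * S9 v q 2 - 3231 * S9 v q 3 - 3060 * S9 v q 4 + 1709 * S9 v q 5 + 306 * S9 v q 6 - 9 * S9 v q 7 := by
  rw [show v + 2 = (v + 1) + 1 from rfl, S9_1_5 (v + 1) q, S9_1_2 v q, S9_1_3 v q, S9_1_4 v q, S9_1_5 v q, S9_1_6 v q]
  ring

theorem S9_2_6 (v : ℕ) (q : ℤ) : S9 (v + 2) q 6 = (-9) * S9 v q 1 + 306 * S9 v q 2 + 1709 * S9 v q 3 - 3060 * S9 v q 4 - 3231 * S9 v q 5 + 162 * S9 v q 6 + 27 * S9 v q 7 := by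
  rw [show v + 2 = (v + 1) + 1 from rfl, S9_1_6 (v + 1) q, S9_1_3 v q, S9_1_4 v q, S9_1_5 v q, S9_1_6 v q, S9_1_7 v q]
  ring

theorem S9_2_7 (v : ℕ) (q : ℤ) : S9 (v + 2) q 7 = S9 v q 1 - 162 * S9 v q 2 + 891 * S9 v q 3 + 4692 * S9 v q 4 - 153 * S9 v q 5 - 1170 * S9 v q 6 - 3 * S9 v q 7 := by
  rw [show v + 2 = (v + 1) + 1 from rfl, S9_1_7 (v + 1) q, S9_1_3 v q, S9_1_4 v q, S9_1_5 v q, S9_1_6 v q, S9_1_7 v q]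
  ring

theorem S9_4_0 (v : ℕ) (q : ℤ) : S9 (v + 4) q 0 = (-25512) * S9 v q 0 - 1000008 * S9 v q 1 + 6631416 * S9 v q 2 + 26437976 * S9 v q 3 + 2447496 * S9 v q 4 - 5358168 * S9 v q 5 - 201432 * S9 v q 6 + 2376 * S9 v q 7 := by
  rw [show v + 4 = (v + 2) + 2 from rfl, S9_2_0 (v + 2) q, S9_2_0 v q, S9_2_1 v q, S9_2_2 v q, S9_2_3 v q, S9_2_4 v q, S9_2_5 v q, S9_2_6 v q]
  ring

theorem S9_4_1 (v : ℕ) (q : ℤ) : S9 (v + 4) q 1 = 30312 * S9 v q 0 - 495096 * S9 v q 1 - 10728504 * S9 v q 2 - 6105240 * S9 v q 3 + 18318264 * S9 v q 4 + 5176728 * S9 v q 5 - 264168 * S9 v q 6 - 1288 * S9 v q 7 := by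
  rw [show v + 4 = (v + 2) + 2 from rfl, S9_2_1 (v + 2) q, S9_2_0 v q, S9_2_1 v q, S9_2_2 v q, S9_2_3 v q, S9_2_4 v q, S9_2_5 v q, S9_2_6 v q]
  ring

theorem S9_4_2 (v : ℕ) (q : ℤ) : S9 (v + 4) q 2 = (-10152) * S9 v q 0 + 1092600 * S9 v q 1 + 3021688 * S9 v q 2 - 20548584 * S9 v q 3 - 20276856 * S9 v q 4 + 1262952 * S9 v q 5 + 629928 * S9 v q 6 - 3960 * S9 v q 7 := by
  rw [show v + 4 = (v + 2) + 2 from rfl, S9_2_2 (v + 2) q, S9_2_0 v q, S9_2_1 v q, S9_2_2 v q, S9_2_3 v q, S9_2_4 v q, S9_2_5 v q, S9_2_6 v q]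
  ring

theorem S9_4_3 (v : ℕ) (q : ℤ) : S9 (v + 4) q 3 = (-7704) * S9 v q 0 - 545976 * S9 v q 1 + 6215112 * S9 v q 2 + 23587368 * S9 v q 3 - 1001160 * S9 v q 4 - 7521192 * S9 v q 5 - 322280 * S9 v q 6 + 10296 * S9 v q 7 := by
  rw [show v + 4 = (v + 2) + 2 from rfl, S9_2_3 (v + 2) q, S9_2_0 v q, S9_2_1 v q, S9_2_2 v q, S9_2_3 v q, S9_2_4 v q, S9_2_5 v q, S9_2_6 v q]
  ring

theorem S9_4_4 (v : ℕ) (q : ℤ) : S9 (v + 4) q 4 = 10296 * S9 v q 0 - 322280 * S9 v q 1 - 7521192 * S9 v q 2 - 1001160 * S9 v q 3 + 23587368 * S9 v q 4 + 6215112 * S9 v q 5 - 545976 * S9 v q 6 - 7704 * S9 v q 7 := by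
  rw [show v + 4 = (v + 2) + 2 from rfl, S9_2_4 (v + 2) q, S9_2_1 v q, S9_2_2 v q, S9_2_3 v q, S9_2_4 v q, S9_2_5 v q, S9_2_6 v q, S9_2_7 v q]
  ring

theorem S9_4_5 (v : ℕ) (q : ℤ) : S9 (v + 4) q 5 = (-3960) * S9 v q 0 + 629928 * S9 v q 1 + 1262952 * S9 v q 2 - 20276856 * S9 v q 3 - 20548584 * S9 v q 4 + 3021688 * S9 v q 5 + 1092600 * S9 v q 6 - 10152 * S9 v q 7 := by
  rw [show v + 4 = (v + 2) + 2 from rfl, S9_2_5 (v + 2) q, S9_2_1 v q, S9_2_2 v q, S9_2_3 v q, S9_2_4 v q, S9_2_5 v q, S9_2_6 v q, S9_2_7 v q]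
  ring

theorem S9_4_6 (v : ℕ) (q : ℤ) : S9 (v + 4) q 6 = (-1288) * S9 v q 0 - 264168 * S9 v q 1 + 5176728 * S9 v q 2 + 18318264 * S9 v q 3 - 6105240 * S9 v q 4 - 10728504 * S9 v q 5 - 495096 * S9 v q 6 + 30312 * S9 v q 7 := by
  rw [show v + 4 = (v + 2) + 2 from rfl, S9_2_6 (v + 2) q, S9_2_1 v q, S9_2_2 v q, S9_2_3 v q, S9_2_4 v q, S9_2_5 v q, S9_2_6 v q, S9_2_7 v q]
  ring

theorem S9_4_7 (v : ℕ) (q : ℤ) : S9 (v + 4) q 7 = 2376 * S9 v q 0 - 201432 * S9 v q 1 - 5358168 * S9 v q 2 + 2447496 * S9 v q 3 + 26437976 * S9 v q 4 + 6631416 * S9 v q 5 - 1000008 * S9 v q 6 - 25512 * S9 v q 7 := by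
  rw [show v + 4 = (v + 2) + 2 from rfl, S9_2_7 (v + 2) q, S9_2_1 v q, S9_2_2 v q, S9_2_3 v q, S9_2_4 v q, S9_2_5 v q, S9_2_6 v q, S9_2_7 v q]
  ring

theorem S9_6_0 (v : ℕ) (q : ℤ) : S9 (v + 6) q 0 = (-60168448) * S9 v q 0 - 2536088832 * S9 v q 1 + 34330639104 * S9 v q 2 + 123290816256 * S9 v q 3 + 1304315136 * S9 v q 4 - 36485938944 * S9 v q 5 - 1962796800 * S9 v q 6 + 45225216 * S9 v q 7 := by
  rw [show v + 6 = (v + 4) + 2 from rfl, S9_2_0 (v + 4) q, S9_4_0 v q, S9_4_1 v q, S9_4_2 v q, S9_4_3 v q, S9_4_4 v q, S9_4_5 v q, S9_4_6 v q]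
  ring

theorem S9_6_1 (v : ℕ) (q : ℤ) : S9 (v + 6) q 1 = 76992768 * S9 v q 0 - 2322350848 * S9 v q 1 - 42854130432 * S9 v q 2 - 14140659456 * S9 v q 3 + 105689604864 * S9 v q 4 + 31271028480 * S9 v q 5 - 1691635968 * S9 v q 6 - 35400960 * S9 v q 7 := by
  rw [show v + 6 = (v + 4) + 2 from rfl, S9_2_1 (v + 4) q, S9_4_0 v q, S9_4_1 v q, S9_4_2 v q, S9_4_3 v q, S9_4_4 v q, S9_4_5 v q, S9_4_6 v q]
  ring

theorem S9_6_2 (v : ℕ) (q : ℤ) : S9 (v + 6) q 2 = (-18213120) * S9 v q 0 + 4531643136 * S9 v q 1 + 7448558336 * S9 v q 2 - 108956530944 * S9 v q 3 - 105710734080 * S9 v q 4 + 6924351744 * S9 v q 5 + 3911383296 * S9 v q 6 - 14623488 * S9 v q 7 := by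
  rw [show v + 6 = (v + 4) + 2 from rfl, S9_2_2 (v + 4) q, S9_4_0 v q, S9_4_1 v q, S9_4_2 v q, S9_4_3 v q, S9_4_4 v q, S9_4_5 v q, S9_4_6 v q]
  ring

theorem S9_6_3 (v : ℕ) (q : ℤ) : S9 (v + 6) q 3 = (-47066880) * S9 v q 0 - 2195921664 * S9 v q 1 + 33255836928 * S9 v q 2 + 117200773376 * S9 v q 3 - 5277940992 * S9 v q 4 - 39462232320 * S9 v q 5 - 2101600512 * S9 v q 6 + 57957120 * S9 v q 7 := by
  rw [show v + 6 = (v + 4) + 2 from rfl, S9_2_3 (v + 4) q, S9_4_0 v q, S9_4_1 v q, S9_4_2 v q, S9_4_3 v q, S9_4_4 v q, S9_4_5 v q, S9_4_6 v q]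
  ring

theorem S9_6_4 (v : ℕ) (q : ℤ) : S9 (v + 6) q 4 = 57957120 * S9 v q 0 - 2101600512 * S9 v q 1 - 39462232320 * S9 v q 2 - 5277940992 * S9 v q 3 + 117200773376 * S9 v q 4 + 33255836928 * S9 v q 5 - 2195921664 * S9 v q 6 - 47066880 * S9 v q 7 := by
  rw [show v + 6 = (v + 4) + 2 from rfl, S9_2_4 (v + 4) q, S9_4_1 v q, S9_4_2 v q, S9_4_3 v q, S9_4_4 v q, S9_4_5 v q, S9_4_6 v q, S9_4_7 v q]
  ring

theorem S9_6_5 (v : ℕ) (q : ℤ) : S9 (v + 6) q 5 = (-14623488) * S9 v q 0 + 3911383296 * S9 v q 1 + 6924351744 * S9 v q 2 - 105710734080 * S9 v q 3 - 108956530944 * S9 v q 4 + 7448558336 * S9 v q 5 + 4531643136 * S9 v q 6 - 18213120 * S9 v q 7 := by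
  rw [show v + 6 = (v + 4) + 2 from rfl, S9_2_5 (v + 4) q, S9_4_1 v q, S9_4_2 v q, S9_4_3 v q, S9_4_4 v q, S9_4_5 v q, S9_4_6 v q, S9_4_7 v q]
  ring

theorem S9_6_6 (v : ℕ) (q : ℤ) : S9 (v + 6) q 6 = (-35400960) * S9 v q 0 - 1691635968 * S9 v q 1 + 31271028480 * S9 v q 2 + 105689604864 * S9 v q 3 - 14140659456 * S9 v q 4 - 42854130432 * S9 v q 5 - 2322350848 * S9 v q 6 + 76992768 * S9 v q 7 := by
  rw [show v + 6 = (v + 4) + 2 from rfl, S9_2_6 (v + 4) q, S9_4_1 v q, S9_4_2 v q, S9_4_3 v q, S9_4_4 v q, S9_4_5 v q, S9_4_6 v q, S9_4_7 v q]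
  ring

theorem S9_6_7 (v : ℕ) (q : ℤ) : S9 (v + 6) q 7 = 45225216 * S9 v q 0 - 1962796800 * S9 v q 1 - 36485938944 * S9 v q 2 + 1304315136 * S9 v q 3 + 123290816256 * S9 v q 4 + 34330639104 * S9 v q 5 - 2536088832 * S9 v q 6 - 60168448 * S9 v q 7 := by
  rw [show v + 6 = (v + 4) + 2 from rfl, S9_2_7 (v + 4) q, S9_4_1 v q, S9_4_2 v q, S9_4_3 v q, S9_4_4 v q, S9_4_5 v q, S9_4_6 v q, S9_4_7 v q]
  ring

theorem S9_8_0 (v : ℕ) (q : ℤ) : S9 (v + 8) q 0 = (-253978828800) * S9 v q 0 - 10779708874752 * S9 v q 1 + 168681775177728 * S9 v q 2 + 595279260131328 * S9 v q 3 - 10188401025024 * S9 v q 4 - 194312435245056 * S9 v q 5 - 11167063515136 * S9 v q 6 + 276546576384 * S9 v q 7 := by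
  rw [show v + 8 = (v + 4) + 4 from rfl, S9_4_0 (v + 4) q, S9_4_0 v q, S9_4_1 v q, S9_4_2 v q, S9_4_3 v q, S9_4_4 v q, S9_4_5 v q, S9_4_6 v q, S9_4_7 v q]
  ring

theorem S9_8_1 (v : ℕ) (q : ℤ) : S9 (v + 8) q 1 = 308612063232 * S9 v q 0 - 10746441179136 * S9 v q 1 - 197448137515008 * S9 v q 2 - 47876442071040 * S9 v q 3 + 541941502910464 * S9 v q 4 + 161961808011264 * S9 v q 5 - 8879068569600 * S9 v q 6 - 221317619712 * S9 v q 7 := by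
  rw [show v + 8 = (v + 4) + 4 from rfl, S9_4_1 (v + 4) q, S9_4_0 v q, S9_4_1 v q, S9_4_2 v q, S9_4_3 v q, S9_4_4 v q, S9_4_5 v q, S9_4_6 v q, S9_4_7 v q]
  ring

theorem S9_8_2 (v : ℕ) (q : ℤ) : S9 (v + 8) q 2 = (-53584551936) * S9 v q 0 + 21154525028352 * S9 v q 1 + 27012920909824 * S9 v q 2 - 547496229298176 * S9 v q 3 - 528888319451136 * S9 v q 4 + 35085452009472 * S9 v q 5 + 20381921796096 * S9 v q 6 - 62378680320 * S9 v q 7 := by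
  rw [show v + 8 = (v + 4) + 4 from rfl, S9_4_2 (v + 4) q, S9_4_0 v q, S9_4_1 v q, S9_4_2 v q, S9_4_3 v q, S9_4_4 v q, S9_4_5 v q, S9_4_6 v q, S9_4_7 v q]
  ring

theorem S9_8_3 (v : ℕ) (q : ℤ) : S9 (v + 8) q 3 = (-241250443264) * S9 v q 0 - 10141584334848 * S9 v q 1 + 167492169031680 * S9 v q 2 + 579411852288000 * S9 v q 3 - 26482930016256 * S9 v q 4 - 197763983106048 * S9 v q 5 - 11062664257536 * S9 v q 6 + 292965064704 * S9 v q 7 := by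
  rw [show v + 8 = (v + 4) + 4 from rfl, S9_4_3 (v + 4) q, S9_4_0 v q, S9_4_1 v q, S9_4_2 v q, S9_4_3 v q, S9_4_4 v q, S9_4_5 v q, S9_4_6 v q, S9_4_7 v q]
  ring

theorem S9_8_4 (v : ℕ) (q : ℤ) : S9 (v + 8) q 4 = 292965064704 * S9 v q 0 - 11062664257536 * S9 v q 1 - 197763983106048 * S9 v q 2 - 26482930016256 * S9 v q 3 + 579411852288000 * S9 v q 4 + 167492169031680 * S9 v q 5 - 10141584334848 * S9 v q 6 - 241250443264 * S9 v q 7 := by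
  rw [show v + 8 = (v + 4) + 4 from rfl, S9_4_4 (v + 4) q, S9_4_0 v q, S9_4_1 v q, S9_4_2 v q, S9_4_3 v q, S9_4_4 v q, S9_4_5 v q, S9_4_6 v q, S9_4_7 v q]
  ring

theorem S9_8_5 (v : ℕ) (q : ℤ) : S9 (v + 8) q 5 = (-62378680320) * S9 v q 0 + 20381921796096 * S9 v q 1 + 35085452009472 * S9 v q 2 - 528888319451136 * S9 v q 3 - 547496229298176 * S9 v q 4 + 27012920909824 * S9 v q 5 + 21154525028352 * S9 v q 6 - 53584551936 * S9 v q 7 := by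
  rw [show v + 8 = (v + 4) + 4 from rfl, S9_4_5 (v + 4) q, S9_4_0 v q, S9_4_1 v q, S9_4_2 v q, S9_4_3 v q, S9_4_4 v q, S9_4_5 v q, S9_4_6 v q, S9_4_7 v q]
  ring

theorem S9_8_6 (v : ℕ) (q : ℤ) : S9 (v + 8) q 6 = (-221317619712) * S9 v q 0 - 8879068569600 * S9 v q 1 + 161961808011264 * S9 v q 2 + 541941502910464 * S9 v q 3 - 47876442071040 * S9 v q 4 - 197448137515008 * S9 v q 5 - 10746441179136 * S9 v q 6 + 308612063232 * S9 v q 7 := by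
  rw [show v + 8 = (v + 4) + 4 from rfl, S9_4_6 (v + 4) q, S9_4_0 v q, S9_4_1 v q, S9_4_2 v q, S9_4_3 v q, S9_4_4 v q, S9_4_5 v q, S9_4_6 v q, S9_4_7 v q]
  ring

theorem S9_8_7 (v : ℕ) (q : ℤ) : S9 (v + 8) q 7 = 276546576384 * S9 v q 0 - 11167063515136 * S9 v q 1 - 194312435245056 * S9 v q 2 - 10188401025024 * S9 v q 3 + 595279260131328 * S9 v q 4 + 168681775177728 * S9 v q 5 - 10779708874752 * S9 v q 6 - 253978828800 * S9 v q 7 := by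
  rw [show v + 8 = (v + 4) + 4 from rfl, S9_4_7 (v + 4) q, S9_4_0 v q, S9_4_1 v q, S9_4_2 v q, S9_4_3 v q, S9_4_4 v q, S9_4_5 v q, S9_4_6 v q, S9_4_7 v q]
  ring

theorem S9_ch_0 (v : ℕ) (q : ℤ) : S9 (v + 8) q 0 = 6560 * S9 (v + 6) q 0 - 8472576 * S9 (v + 4) q 0 + 2235564032 * S9 (v + 2) q 0 - 68719476736 * S9 v q 0 := by
  rw [S9_8_0 v q, S9_6_0 v q, S9_4_0 v q, S9_2_0 v q]
  ring

theorem S9_ch_1 (v : ℕ) (q : ℤ) : S9 (v + 8) q 1 = 6560 * S9 (v + 6) q 1 - 8472576 * S9 (v + 4) q 1 + 2235564032 * S9 (v + 2) q 1 - 68719476736 * S9 v q 1 := by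
  rw [S9_8_1 v q, S9_6_1 v q, S9_4_1 v q, S9_2_1 v q]
  ring

theorem S9_ch_2 (v : ℕ) (q : ℤ) : S9 (v + 8) q 2 = 6560 * S9 (v + 6) q 2 - 8472576 * S9 (v + 4) q 2 + 2235564032 * S9 (v + 2) q 2 - 68719476736 * S9 v q 2 := by
  rw [S9_8_2 v q, S9_6_2 v q, S9_4_2 v q, S9_2_2 v q]
  ring

theorem S9_ch_3 (v : ℕ) (q : ℤ) : S9 (v + 8) q 3 = 6560 * S9 (v + 6) q 3 - 8472576 * S9 (v + 4) q 3 + 2235564032 * S9 (v + 2) q 3 - 68719476736 * S9 v q 3 := by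
  rw [S9_8_3 v q, S9_6_3 v q, S9_4_3 v q, S9_2_3 v q]
  ring

theorem S9_ch_4 (v : ℕ) (q : ℤ) : S9 (v + 8) q 4 = 6560 * S9 (v + 6) q 4 - 8472576 * S9 (v + 4) q 4 + 2235564032 * S9 (v + 2) q 4 - 68719476736 * S9 v q 4 := by
  rw [S9_8_4 v q, S9_6_4 v q, S9_4_4 v q, S9_2_4 v q]
  ring

theorem S9_ch_5 (v : ℕ) (q : ℤ) : S9 (v + 8) q 5 = 6560 * S9 (v + 6) q 5 - 8472576 * S9 (v + 4) q 5 + 2235564032 * S9 (v + 2) q 5 - 68719476736 * S9 v q 5 := by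
  rw [S9_8_5 v q, S9_6_5 v q, S9_4_5 v q, S9_2_5 v q]
  ring

theorem S9_ch_6 (v : ℕ) (q : ℤ) : S9 (v + 8) q 6 = 6560 * S9 (v + 6) q 6 - 8472576 * S9 (v + 4) q 6 + 2235564032 * S9 (v + 2) q 6 - 68719476736 * S9 v q 6 := by
  rw [S9_8_6 v q, S9_6_6 v q, S9_4_6 v q, S9_2_6 v q]
  ring

theorem S9_ch_7 (v : ℕ) (q : ℤ) : S9 (v + 8) q 7 = 6560 * S9 (v + 6) q 7 - 8472576 * S9 (v + 4) q 7 + 2235564032 * S9 (v + 2) q 7 - 68719476736 * S9 v q 7 := by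
  rw [S9_8_7 v q, S9_6_7 v q, S9_4_7 v q, S9_2_7 v q]
  ring

end Pool.Agent.U890.TM
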